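import Mathlib

/-!
# H2T/Combine: counting by residue classes modulo `K`; the classes hit by the new primes

* `combine`: every `t < N` is `u + K t'` with `u = t % K`, `t' = t / K ≤ N / K`. Given `ε`, apply `h` with `ε/2` to the finitely many `u ∉ Bad` and to
  `N / K + 1 → ∞`. The number of `t < N` with `P t` is at most `∑_{u ∉ Bad} (κ + ε/2)(N/K + 1) + |Bad| (N/K + 1) ≤ (κ + ε/2 + ν)(N + K)`, and
  `(κ + ν + ε/2) K ≤ (ε/2) N` for large `N` (`0 ≤ ν` if `K > 0`). The private theorem `count_classes` in `Pool/Agent/H2S/LocGlob.lean` (and the use of it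
  at the end of that file) can be copied.
* `new_count`: `Π = ∏_{p ∈ S} p`, `P`, `Π` coprime. For fixed `p ∈ S` and `v < P`: the `u < P Π` with `u = v mod P` and `p ∣ r + W u - f v` lie in one class
  modulo `P p` (`W` is invertible modulo `p`, `p ∤ P`), which has `Π / p` members below `P Π`. Sum over `v < P` and `p ∈ S`: `P Π ∑ 1/p`.
-/

namespace H2T

open Finset Filter

private theorem tendsto_div {W : ℕ} (hW : 0 < W) :
    Tendsto (fun N : ℕ => N / W + 1) atTop atTop := by
  rw [tendsto_atTop_atTop]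
  intro b
  refine ⟨b * W, fun a ha => ?_⟩
  have := (Nat.le_div_iff_mul_le hW).2 ha
  omega

/-- counting by residue classes -/
private theorem count_classes {W : ℕ} (hW : 0 < W) (P : ℕ → Prop) [DecidablePred P] (Bad : Finset ℕ) (N : ℕ) {κ β : ℝ}
    (hκ : 0 ≤ κ)
    (hBad : (Bad.card : ℝ) ≤ β * W)
    (h : ∀ r ∈ range W, r ∉ Bad →
      (((range (N / W + 1)).filter (fun t => P (r + W * t))).card : ℝ) ≤ κ * ((N / W + 1 : ℕ) : ℝ)) :
    (((range N).filter P).card : ℝ) ≤ (κ + β) * (N + W) := by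
  have hsub : (range N).filter P ⊆
      ((range W \ Bad).biUnion (fun r => ((range (N / W + 1)).filter (fun t => P (r + W * t))).image
        (fun t => r + W * t))) ∪ (Bad.biUnion (fun r => (range (N / W + 1)).image (fun t => r + W * t))) := by
    intro n hn
    rw [mem_filter, mem_range] at hn
    have h1 : n % W + W * (n / W) = n := Nat.mod_add_div n W
    have h2 : n / W < N / W + 1 := Nat.lt_succ_of_le (Nat.div_le_div_right hn.1.le)
    rw [mem_union]
    by_cases hb : n % W ∈ Bad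
    · right
      rw [mem_biUnion]
      exact ⟨n % W, hb, mem_image.2 ⟨n / W, mem_range.2 h2, h1⟩⟩
    · left
      rw [mem_biUnion]
      refine ⟨n % W, Finset.mem_sdiff.2 ⟨mem_range.2 (Nat.mod_lt _ hW), hb⟩, mem_image.2 ⟨n / W, ?_, h1⟩⟩
      rw [mem_filter, mem_range]
      exact ⟨h2, by rw [h1]; exact hn.2⟩
  have hc1 : (((range W \ Bad).biUnion (fun r => ((range (N / W + 1)).filter
      (fun t => P (r + W * t))).image (fun t => r + W * t))).card : ℝ) ≤
      W * (κ * ((N / W + 1 : ℕ) : ℝ)) := by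
    have e1 : (((range W \ Bad).biUnion (fun r => ((range (N / W + 1)).filter
      (fun t => P (r + W * t))).image (fun t => r + W * t))).card : ℝ) ≤
      ∑ r ∈ range W \ Bad, (((range (N / W + 1)).filter (fun t => P (r + W * t))).card : ℝ) := by
      have e2 : ((range W \ Bad).biUnion (fun r => ((range (N / W + 1)).filter
        (fun t => P (r + W * t))).image (fun t => r + W * t))).card ≤
        ∑ r ∈ range W \ Bad, ((range (N / W + 1)).filter (fun t => P (r + W * t))).card :=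
        card_biUnion_le.trans (sum_le_sum (fun r _ => card_image_le))
      exact_mod_cast e2
    refine e1.trans ?_
    have e3 : ∑ r ∈ range W \ Bad, (((range (N / W + 1)).filter (fun t => P (r + W * t))).card : ℝ) ≤
        ∑ r ∈ range W \ Bad, κ * ((N / W + 1 : ℕ) : ℝ) := by
      apply sum_le_sum
      intro r hr
      rw [Finset.mem_sdiff] at hr
      exact h r hr.1 hr.2
    refine e3.trans ?_
    rw [sum_const, nsmul_eq_mul]
    apply mul_le_mul_of_nonneg_right _ (by positivity)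
    have : (range W \ Bad).card ≤ W := (card_le_card sdiff_subset).trans (by rw [card_range])
    exact_mod_cast this
  have hc2 : ((Bad.biUnion (fun r => (range (N / W + 1)).image (fun t => r + W * t))).card : ℝ) ≤
      β * W * ((N / W + 1 : ℕ) : ℝ) := by
    have e2 : (Bad.biUnion (fun r => (range (N / W + 1)).image (fun t => r + W * t))).card ≤
        Bad.card * (N / W + 1) := by
      refine card_biUnion_le_card_mul _ _ _ (fun r _ => ?_)
      exact card_image_le.trans (by rw [card_range])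
    have e3 : ((Bad.biUnion (fun r => (range (N / W + 1)).image (fun t => r + W * t))).card : ℝ) ≤
        Bad.card * ((N / W + 1 : ℕ) : ℝ) := by exact_mod_cast e2
    exact e3.trans (mul_le_mul_of_nonneg_right hBad (by positivity))
  have hc3 : (((range N).filter P).card : ℝ) ≤
      W * (κ * ((N / W + 1 : ℕ) : ℝ)) + β * W * ((N / W + 1 : ℕ) : ℝ) := by
    have e1 := (card_le_card hsub).trans (card_union_le _ _)
    have e2 : (((range N).filter P).card : ℝ) ≤ (((range W \ Bad).biUnion (fun r =>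
      ((range (N / W + 1)).filter (fun t => P (r + W * t))).image (fun t => r + W * t))).card : ℝ) +
      ((Bad.biUnion (fun r => (range (N / W + 1)).image (fun t => r + W * t))).card : ℝ) := by
      exact_mod_cast e1
    linarith
  have hβ : 0 ≤ β := by
    by_contra hneg
    push Not at hneg
    have : β * W < 0 := mul_neg_of_neg_of_pos hneg (by exact_mod_cast hW)
    have : (0 : ℝ) ≤ Bad.card := by positivity
    linarith
  have hdiv : (W : ℝ) * ((N / W + 1 : ℕ) : ℝ) ≤ N + W := by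
    have : W * (N / W + 1) ≤ N + W := by
      rw [mul_add, mul_one]
      have := Nat.mul_div_le N W
      omega
    exact_mod_cast this
  have : W * (κ * ((N / W + 1 : ℕ) : ℝ)) + β * W * ((N / W + 1 : ℕ) : ℝ) =
      (κ + β) * ((W : ℝ) * ((N / W + 1 : ℕ) : ℝ)) := by ring
  rw [this] at hc3
  exact hc3.trans (mul_le_mul_of_nonneg_left hdiv (by positivity))

theorem combine {K : ℕ} (hK : 0 < K) (P : ℕ → Prop) [DecidablePred P] {κ ν : ℝ} (hκ : 0 ≤ κ) (Bad : Finset ℕ)
    (hBad : (Bad.card : ℝ) ≤ ν * K)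
    (h : ∀ u ∈ range K, u ∉ Bad → ∀ ε : ℝ, 0 < ε → ∀ᶠ N : ℕ in atTop,
      (((range N).filter (fun t => P (u + K * t))).card : ℝ) ≤ (κ + ε) * N) :
    ∀ ε : ℝ, 0 < ε → ∀ᶠ N : ℕ in atTop, (((range N).filter P).card : ℝ) ≤ (κ + ν + ε) * N := by
  intro ε hε
  have hall : ∀ᶠ N : ℕ in atTop, ∀ u ∈ range K, u ∉ Bad →
      (((range N).filter (fun t => P (u + K * t))).card : ℝ) ≤ (κ + ε / 2) * N := by
    rw [Filter.eventually_all_finset]
    intro u hu
    by_cases hb : u ∈ Bad
    · filter_upwards with N h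
      exact absurd hb h
    · filter_upwards [h u hu hb (ε / 2) (by positivity)] with N hN _
      exact hN
  obtain ⟨N0, hN0⟩ := exists_nat_gt ((κ + ε / 2 + ν) * K / (ε / 2))
  filter_upwards [(tendsto_div hK).eventually hall, eventually_ge_atTop N0] with N hN hNN
  have h1 := count_classes hK P Bad N (κ := κ + ε / 2) (β := ν) (by positivity) hBad hN
  refine h1.trans ?_
  have h2 : (N0 : ℝ) ≤ N := by exact_mod_cast hNN
  have h3 : (κ + ε / 2 + ν) * K / (ε / 2) ≤ N := hN0.le.trans h2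
  rw [div_le_iff₀ (by positivity)] at h3
  nlinarith

private theorem new_one {P : ℕ} (hP : 0 < P) {p Q : ℕ} (hp : p.Prime) (hpP : ¬ p ∣ P) (W : ℕ)
    (hpW : ¬ p ∣ W) (r : ℕ) (f : ℕ → ℤ) :
    ((range (P * (p * Q))).filter
      (fun u : ℕ => ((p : ℕ) : ℤ) ∣ (r : ℤ) + W * u - f (u % P))).card ≤ P * Q := by
  have hPp : 0 < P * p := Nat.mul_pos hP hp.pos
  have hcard : ((range P) ×ˢ (range Q)).card = P * Q := by
    rw [card_product, card_range, card_range]
  rw [← hcard]
  refine card_le_card_of_injOn (fun u => (u % P, u / (P * p))) ?_ ?_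
  · intro u hu
    have hu' := mem_filter.1 (mem_coe.1 hu)
    rw [mem_range] at hu'
    rw [mem_coe, mem_product, mem_range, mem_range]
    refine ⟨Nat.mod_lt _ hP, ?_⟩
    rw [Nat.div_lt_iff_lt_mul hPp]
    calc u < P * (p * Q) := hu'.1
      _ = Q * (P * p) := by ring
  · intro u hu v hv huv
    have hu' := (mem_filter.1 (mem_coe.1 hu)).2
    have hv' := (mem_filter.1 (mem_coe.1 hv)).2
    have e1 : u % P = v % P := congrArg Prod.fst huv
    have e2 : u / (P * p) = v / (P * p) := congrArg Prod.snd huv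
    rw [e1] at hu'
    have h1 : (p : ℤ) ∣ (W : ℤ) * ((u : ℤ) - v) := by
      have h2 := dvd_sub hu' hv'
      have e : ((r : ℤ) + W * u - f (v % P)) - ((r : ℤ) + W * v - f (v % P)) =
        (W : ℤ) * ((u : ℤ) - v) := by ring
      rwa [e] at h2
    have hpI : Prime (p : ℤ) := Nat.prime_iff_prime_int.1 hp
    have h2 : (p : ℤ) ∣ (u : ℤ) - v := by
      rcases hpI.dvd_or_dvd h1 with h3 | h3
      · exact absurd (Int.natCast_dvd_natCast.1 h3) hpW
      · exact h3
    have h3 : u ≡ v [MOD p] := by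
      have h4 : (v : ℤ) ≡ u [ZMOD p] := Int.modEq_iff_dvd.2 h2
      exact (Int.natCast_modEq_iff.1 h4).symm
    have hcop : Nat.Coprime P p := ((Nat.Prime.coprime_iff_not_dvd hp).2 hpP).symm
    have h4 : u ≡ v [MOD P * p] := (Nat.modEq_and_modEq_iff_modEq_mul hcop).1 ⟨e1, h3⟩
    have h5 : u % (P * p) = v % (P * p) := h4
    rw [← Nat.div_add_mod u (P * p), ← Nat.div_add_mod v (P * p), e2, h5]

theorem new_count {P : ℕ} (hP : 0 < P) (S : Finset ℕ) (W : ℕ) (hS : ∀ p ∈ S, p.Prime ∧ ¬ p ∣ P ∧ ¬ p ∣ W) (r : ℕ)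
    (f : ℕ → ℤ) :
    (((range (P * ∏ p ∈ S, p)).filter
      (fun u : ℕ => ∃ p ∈ S, ((p : ℕ) : ℤ) ∣ (r : ℤ) + W * u - f (u % P))).card : ℝ) ≤
      (∑ p ∈ S, (1 : ℝ) / p) * ((P * ∏ p ∈ S, p : ℕ) : ℝ) := by
  have hsub : (range (P * ∏ p ∈ S, p)).filter
      (fun u : ℕ => ∃ p ∈ S, ((p : ℕ) : ℤ) ∣ (r : ℤ) + W * u - f (u % P)) ⊆
      S.biUnion (fun p => (range (P * ∏ p ∈ S, p)).filter
        (fun u : ℕ => ((p : ℕ) : ℤ) ∣ (r : ℤ) + W * u - f (u % P))) := by
    intro u hu
    rw [mem_filter] at hu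
    obtain ⟨hu1, p, hp, hd⟩ := hu
    exact mem_biUnion.2 ⟨p, hp, mem_filter.2 ⟨hu1, hd⟩⟩
  have h1 : (((range (P * ∏ p ∈ S, p)).filter
      (fun u : ℕ => ∃ p ∈ S, ((p : ℕ) : ℤ) ∣ (r : ℤ) + W * u - f (u % P))).card : ℝ) ≤
      ∑ p ∈ S, (((range (P * ∏ p ∈ S, p)).filter
        (fun u : ℕ => ((p : ℕ) : ℤ) ∣ (r : ℤ) + W * u - f (u % P))).card : ℝ) := by
    have := (card_le_card hsub).trans card_biUnion_le
    exact_mod_cast this
  refine h1.trans ?_
  rw [sum_mul]
  apply sum_le_sum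
  intro p hp
  obtain ⟨hp1, hp2, hp3⟩ := hS p hp
  have e : ∏ p ∈ S, p = p * ∏ q ∈ S.erase p, q := (mul_prod_erase S (fun q => q) hp).symm
  rw [e]
  have h2 : (((range (P * (p * ∏ q ∈ S.erase p, q))).filter
      (fun u : ℕ => ((p : ℕ) : ℤ) ∣ (r : ℤ) + W * u - f (u % P))).card : ℝ) ≤
      ((P * ∏ q ∈ S.erase p, q : ℕ) : ℝ) := by
    exact_mod_cast new_one hP hp1 hp2 W hp3 r f
  refine h2.trans (le_of_eq ?_)
  have hp0 : (p : ℝ) ≠ 0 := by exact_mod_cast hp1.ne_zero
  push_cast
  field_simp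

end H2T
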