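import Pool.Agent.H2T.Defs
import Pool.Agent.H2S.ClassD

/-!
# H2T/GoodGen: `class_density` for a residue class with good local conditions, general modulus

This is the proof of `H2S.good_class` (file `Pool/Agent/H2S/GoodClass.lean`, copy and adapt it) for a general modulus `W` and step `E`.
Let `z = r - kk a b c d = r - fam a b c d E (0,0)`, `G = gcd (|z|, W)`, `ω = W / G`, `ρ = z / G`.
* `ρ` and `ω` are coprime (`Nat.coprime_div_gcd_div_gcd`).
* `v_3(z) ∈ {0, 2}`, `27 ∣ W`, so `v_3(G) ∈ {0, 2}`; for a prime `q ∣ W`, `q = 3 mod 4`, `q > 3`: `q ∤ G`, or `q³ ∣ W` and `v_q(z) = 2`, so `v_q(G) = 2`.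
  So all primes `= 3 mod 4` have even exponent in `G` and `G` is a sum of two squares (`Nat.eq_sq_add_sq_iff`). As in `good_class` (`8 ∣ W`,
  `z % 4 = 1` or `z % 8 = 2`): `ρ % 4 = 1` and `4 ∣ ω`.
* The primes `p ∣ W`, `p ∤ ω` have `v_p(G) = v_p(W)`, so `p^(v_p(W)) ∣ z`. Such a `p` is not 2, 3, 5 (`8 ∣ W`, `8 ∤ z`; `27 ∣ W`, `27 ∤ z`; `5 ∣ W`, `5 ∤ z`), not
  `3 mod 4` (if `q ∤ z` clear; if `q³ ∣ W` then `q³ ∣ z`, no), so `p % 4 = 1` and `p ∈ S` by hypothesis. The product of the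
  `(1 - 1/p)⁻¹ = 1 + 1/(p-1) ≤ exp ((7/6)/p)` over `p ∈ S` is at most `exp ((7/6) ξ) ≤ 1 + 4 ξ` (`7 ≤ p`).
* `H2S.class_density` (`30 ∣ W` from `8, 27, 5 ∣ W`) has the same constant `C`; use monotonicity in the product (`1 + C τ ≥ 0`).
-/

namespace H2T

open Finset Filter H2S

/-- squares modulo 8 -/
private lemma gg_sq_mod (x : ℕ) : x ^ 2 % 8 = 0 ∨ x ^ 2 % 8 = 1 ∨ x ^ 2 % 8 = 4 := by
  have h : x % 8 < 8 := Nat.mod_lt _ (by norm_num)
  rw [Nat.pow_mod]
  interval_cases x % 8 <;> simp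

private lemma gg_exp {ξ : ℝ} (h0 : 0 ≤ ξ) (h1 : ξ ≤ 1 / 4) : Real.exp (7 / 6 * ξ) ≤ 1 + 4 * ξ := by
  have h2 := Real.one_sub_le_exp_neg (7 / 6 * ξ)
  rw [Real.exp_neg] at h2
  have h3 : 0 < 1 - 7 / 6 * ξ := by linarith
  have h4 : Real.exp (7 / 6 * ξ) ≤ (1 - 7 / 6 * ξ)⁻¹ := by
    rw [← inv_inv (Real.exp (7 / 6 * ξ))]
    exact inv_anti₀ h3 h2
  refine h4.trans ?_
  rw [inv_le_iff_one_le_mul₀ h3]
  nlinarith

open scoped Classical in
theorem good_gen : ∃ C : ℝ, 0 < C ∧ ∀ (E W : ℕ) (τ ξ : ℝ), 0 < E → 0 < W → 8 ∣ W → 27 ∣ W → 5 ∣ W → 0 ≤ τ → 0 ≤ ξ →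
    ξ ≤ 1 / 4 →
    (∀ T : Finset ℕ, (∀ q ∈ T, q.Prime ∧ ¬ q ∣ W) →
      ∑ q ∈ T, wt q / (max (orderOf ((9 : ZMod q) ^ E)) (orderOf ((25 : ZMod q) ^ E)) : ℕ) ≤ τ) →
    ∀ (r a b c d : ℕ) (z : ℤ), z = (r : ℤ) - kk a b c d →
    (∀ p, (W : ℤ) ∣ (fam a b c d E p : ℤ) - fam a b c d E (0, 0)) →
    (z % 4 = 1 ∨ z % 8 = 2) → (z % 3 ≠ 0 ∨ (z % 9 = 0 ∧ z % 27 ≠ 0)) → ¬ (5 : ℤ) ∣ z →
    (∀ q : ℕ, q.Prime → q ∣ W → q % 4 = 3 → 3 < q →
      ¬ (q : ℤ) ∣ z ∨ (q ^ 3 ∣ W ∧ ((q ^ 2 : ℕ) : ℤ) ∣ z ∧ ¬ ((q ^ 3 : ℕ) : ℤ) ∣ z)) →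
    ∀ S : Finset ℕ, (∀ q ∈ S, 7 ≤ q) →
    (∀ p : ℕ, p.Prime → p ∣ W → p % 4 = 1 → p ≠ 5 → p ∉ S → ¬ ((p ^ W.factorization p : ℕ) : ℤ) ∣ z) →
    ∑ q ∈ S, (1 : ℝ) / q ≤ ξ →
    ∀ ε : ℝ, 0 < ε → ∀ᶠ N : ℕ in atTop,
      (((range N).filter (fun t => ¬ Rep (r + W * t))).card : ℝ) ≤
        (450 * ((1 + C * τ) * (1 + 4 * ξ) - 1) + ε) * N := by
  obtain ⟨C, hC, hcd⟩ := class_density
  refine ⟨C, hC, ?_⟩
  intro E W τ ξ hE0 hW0 h8W h27W h5W hτ hξ hξ4 htail r a b c d z hz hfam hg2 hg3 h5 hno S hS7 hpS hQ ε hε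
  have hz0 : z ≠ 0 := by
    intro h0
    rw [h0] at hg2
    omega
  have hzn : z.natAbs ≠ 0 := Int.natAbs_ne_zero.2 hz0
  obtain ⟨G, hG⟩ : ∃ G : ℕ, G = Nat.gcd z.natAbs W := ⟨_, rfl⟩
  have hG0 : 0 < G := by rw [hG]; exact Nat.gcd_pos_of_pos_right _ hW0
  obtain ⟨ω, hω⟩ : G ∣ W := by rw [hG]; exact Nat.gcd_dvd_right _ _
  have hGz : (G : ℤ) ∣ z := by
    rw [hG]
    exact Int.natCast_dvd.2 (Nat.gcd_dvd_left _ _)
  obtain ⟨ρ, hρ⟩ := hGz
  have hcop : Nat.Coprime ρ.natAbs ω := by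
    have h1 := Nat.coprime_div_gcd_div_gcd (m := z.natAbs) (n := W) (by rw [← hG]; exact hG0)
    rw [← hG] at h1
    have h2 : z.natAbs / G = ρ.natAbs := by
      rw [hρ, Int.natAbs_mul, Int.natAbs_natCast]
      exact Nat.mul_div_cancel_left _ hG0
    have h3 : W / G = ω := by
      rw [hω]
      exact Nat.mul_div_cancel_left _ hG0
    rwa [h2, h3] at h1
  have hGz' : (G : ℤ) ∣ z := ⟨ρ, hρ⟩
  -- `G` is a sum of two squares
  have hG2 : ∃ x y : ℕ, G = x ^ 2 + y ^ 2 := by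
    rw [Nat.eq_sq_add_sq_iff]
    intro q hq hq4
    have hqp := Nat.prime_of_mem_primeFactors hq
    have hqG := Nat.dvd_of_mem_primeFactors hq
    have hqW : q ∣ W := hqG.trans ⟨ω, hω⟩
    have hqz : (q : ℤ) ∣ z := (Int.natCast_dvd_natCast.2 hqG).trans hGz'
    by_cases h3 : 3 < q
    · rcases hno q hqp hqW hq4 h3 with h | ⟨hq3W, hq2z, hq3z⟩
      · exact absurd hqz h
      · have hfact : Fact (Nat.Prime q) := ⟨hqp⟩
        have h1 : 2 ≤ padicValNat q G := by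
          rw [← padicValNat_dvd_iff_le hG0.ne', hG]
          apply Nat.dvd_gcd
          · rw [← Int.natCast_dvd]
            exact hq2z
          · exact (pow_dvd_pow q (by norm_num)).trans hq3W
        have h2 : ¬ 3 ≤ padicValNat q G := by
          rw [← padicValNat_dvd_iff_le hG0.ne']
          intro h
          exact hq3z ((Int.natCast_dvd_natCast.2 h).trans hGz')
        have h3' : padicValNat q G = 2 := by omega
        rw [h3']
        exact even_two
    · have hq3 : q = 3 := by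
        have := hqp.two_le
        interval_cases q <;> omega
      subst hq3
      have h9 : z % 9 = 0 ∧ z % 27 ≠ 0 := by
        rcases hg3 with h | h
        · exact absurd (Int.emod_eq_zero_of_dvd (by exact_mod_cast hqz)) h
        · exact h
      have hG9 : 9 ∣ G := by
        rw [hG]
        apply Nat.dvd_gcd
        · rw [← Int.natCast_dvd]
          exact Int.dvd_of_emod_eq_zero h9.1
        · exact (show 9 ∣ 27 by norm_num).trans h27W
      have hG27 : ¬ 27 ∣ G := by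
        intro h
        apply h9.2
        apply Int.emod_eq_zero_of_dvd
        have h1 : ((27 : ℕ) : ℤ) ∣ (G : ℤ) := Int.natCast_dvd_natCast.2 h
        exact (by exact_mod_cast h1.trans hGz')
      have hfact : Fact (Nat.Prime 3) := ⟨Nat.prime_three⟩
      have h1 : 2 ≤ padicValNat 3 G := by
        rw [← padicValNat_dvd_iff_le hG0.ne']
        simpa using hG9
      have h2 : ¬ 3 ≤ padicValNat 3 G := by
        rw [← padicValNat_dvd_iff_le hG0.ne']
        simpa using hG27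
      have h3 : padicValNat 3 G = 2 := by omega
      rw [h3]
      exact even_two
  obtain ⟨x, y, hxy⟩ := hG2
  have hTS : TwoSq (G : ℤ) := ⟨x, y, by rw [hxy]; push_cast; ring⟩
  -- modulo 4
  have h4ρ : ρ % 4 = 1 ∧ 4 ∣ ω := by
    have hx := gg_sq_mod x
    have hy := gg_sq_mod y
    have hmod : (z : ℤ) % 8 = ((G : ℤ) % 8) * (ρ % 8) % 8 := by rw [hρ, Int.mul_emod]
    have hGm : (G : ℤ) % 8 = ((G % 8 : ℕ) : ℤ) := by omega
    have hρr : 0 ≤ ρ % 8 ∧ ρ % 8 < 8 := ⟨Int.emod_nonneg _ (by norm_num), Int.emod_lt_of_pos _ (by norm_num)⟩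
    obtain ⟨hr0, hr8⟩ := hρr
    have hGr : G % 8 = 0 ∨ G % 8 = 1 ∨ G % 8 = 2 ∨ G % 8 = 4 ∨ G % 8 = 5 := by omega
    have hev : z % 2 = 0 → G % 2 = 0 := by
      intro h
      have h1 : 2 ∣ G := by
        rw [hG]
        apply Nat.dvd_gcd
        · rw [← Int.natCast_dvd]
          exact Int.dvd_of_emod_eq_zero h
        · exact (show 2 ∣ 8 by norm_num).trans h8W
      omega
    clear hρ hz hxy hcop hGz' hno hTS htail hpS hfam hQ
    have hcase : (G % 8 = 1 ∨ G % 8 = 5 ∨ G % 8 = 2) ∧ ρ % 4 = 1 := by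
      rw [hGm] at hmod
      have hr4 : ρ % 4 = (ρ % 8) % 4 := by omega
      rw [hr4]
      rcases hGr with h | h | h | h | h <;> rw [h] at hmod <;> interval_cases (ρ % 8) <;> omega
    refine ⟨hcase.2, ?_⟩
    have h8 : 8 ∣ G * ω := by rw [← hω]; exact h8W
    have hc8 : G % 2 = 1 → 4 ∣ ω := by
      intro h
      have h1 : Nat.Coprime (2 ^ 3) G :=
        Nat.Coprime.pow_left 3 (Nat.coprime_two_left.2 (Nat.odd_iff.2 h))
      exact (show 4 ∣ 8 by norm_num).trans (h1.dvd_of_dvd_mul_left (by simpa using h8))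
    rcases hcase.1 with h | h | h
    · exact hc8 (by omega)
    · exact hc8 (by omega)
    · obtain ⟨G', hG'⟩ : 2 ∣ G := by omega
      have hodd : Nat.Coprime (2 ^ 2) G' :=
        Nat.Coprime.pow_left 2 (Nat.coprime_two_left.2 (Nat.odd_iff.2 (by omega)))
      have h4 : 4 ∣ G' * ω := by
        rw [hG'] at h8
        have : 2 * 4 ∣ 2 * (G' * ω) := by
          have e : 2 * (G' * ω) = 2 * G' * ω := by ring
          rw [e]; simpa using h8
        exact Nat.dvd_of_mul_dvd_mul_left (by norm_num) this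
      exact hodd.dvd_of_dvd_mul_left (by simpa using h4)
  -- the product
  have hsub : W.primeFactors.filter (fun p => ¬ p ∣ ω) ⊆ S := by
    intro p hp
    rw [Finset.mem_filter, Nat.mem_primeFactors] at hp
    obtain ⟨⟨hpp, hpW, -⟩, hpω⟩ := hp
    by_contra hpS'
    have hcp : Nat.Coprime p ω := (Nat.Prime.coprime_iff_not_dvd hpp).2 hpω
    have hp4 : p % 4 = 1 ∨ p % 4 = 3 ∨ p = 2 := by
      rcases hpp.eq_two_or_odd with h | h <;> omega
    have h1 : p ^ W.factorization p ∣ G := by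
      have h2 : p ^ W.factorization p ∣ G * ω := by rw [← hω]; exact Nat.ordProj_dvd W p
      exact (Nat.Coprime.pow_left _ hcp).dvd_of_dvd_mul_right h2
    have h2 : ((p ^ W.factorization p : ℕ) : ℤ) ∣ z := (Int.natCast_dvd_natCast.2 h1).trans hGz'
    have hk : ∀ k : ℕ, p ^ k ∣ W → ((p ^ k : ℕ) : ℤ) ∣ z := by
      intro k hk
      have h3 : k ≤ W.factorization p := (hpp.pow_dvd_iff_le_factorization hW0.ne').1 hk
      exact (Int.natCast_dvd_natCast.2 (pow_dvd_pow p h3)).trans h2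
    have h4 : (p : ℤ) ∣ z := by
      have := hk 1 (by rw [pow_one]; exact hpW)
      rwa [pow_one] at this
    rcases hp4 with h | h | h
    · by_cases hp5 : p = 5
      · rw [hp5] at h4
        exact h5 (by exact_mod_cast h4)
      · exact hpS p hpp hpW h hp5 hpS' h2
    · by_cases hp3 : 3 < p
      · rcases hno p hpp hpW h hp3 with h6 | ⟨h6, -, h7⟩
        · exact h6 h4
        · exact h7 (hk 3 h6)
      · have hp3' : p = 3 := by
          have := hpp.two_le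
          interval_cases p <;> omega
        subst hp3'
        have h3 := hk 3 (by simpa using h27W)
        have h6 : z % 3 = 0 := Int.emod_eq_zero_of_dvd (by exact_mod_cast h4)
        have h7 : z % 27 = 0 := Int.emod_eq_zero_of_dvd (by simpa using h3)
        rcases hg3 with h8 | h8
        · exact h8 h6
        · exact h8.2 h7
    · subst h
      have h3 := hk 3 (by simpa using h8W)
      have h6 : z % 8 = 0 := Int.emod_eq_zero_of_dvd (by simpa using h3)
      omega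
  have hprod : ∏ p ∈ W.primeFactors.filter (fun p => ¬ p ∣ ω), (1 - 1 / (p : ℝ))⁻¹ ≤ 1 + 4 * ξ := by
    have hterm : ∀ p : ℕ, p ∈ S →
        1 ≤ (1 - 1 / (p : ℝ))⁻¹ ∧ (1 - 1 / (p : ℝ))⁻¹ ≤ Real.exp (7 / 6 * (1 / (p : ℝ))) := by
      intro p hp
      have hp7 : (7 : ℝ) ≤ p := by exact_mod_cast hS7 p hp
      have hp0 : (0 : ℝ) < p := by linarith
      have h1 : (1 - 1 / (p : ℝ))⁻¹ = 1 + 1 / ((p : ℝ) - 1) := by
        have : (p : ℝ) - 1 ≠ 0 := by linarith
        field_simp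
        ring
      constructor
      · rw [h1]
        have : 0 ≤ 1 / ((p : ℝ) - 1) := by apply div_nonneg <;> linarith
        linarith
      · rw [h1]
        have h2 : 1 / ((p : ℝ) - 1) ≤ 7 / 6 * (1 / (p : ℝ)) := by
          rw [div_le_iff₀ (by linarith)]
          have : 7 / 6 * (1 / (p : ℝ)) * ((p : ℝ) - 1) = 7 / 6 - 7 / 6 * (1 / (p : ℝ)) := by
            field_simp
          rw [this]
          have h3 : 1 / (p : ℝ) ≤ 1 / 7 := by
            apply div_le_div_of_nonneg_left <;> linarith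
          linarith
        have h3 := Real.add_one_le_exp (7 / 6 * (1 / (p : ℝ)))
        linarith
    calc ∏ p ∈ W.primeFactors.filter (fun p => ¬ p ∣ ω), (1 - 1 / (p : ℝ))⁻¹
        ≤ ∏ p ∈ S, (1 - 1 / (p : ℝ))⁻¹ := by
          apply Finset.prod_le_prod_of_subset_of_one_le hsub
          · intro p hp
            exact le_trans zero_le_one (hterm p (hsub hp)).1
          · intro p hp _
            exact (hterm p hp).1
      _ ≤ ∏ p ∈ S,
            Real.exp (7 / 6 * (1 / (p : ℝ))) := by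
          apply Finset.prod_le_prod
          · intro p hp
            exact le_trans zero_le_one (hterm p hp).1
          · intro p hp
            exact (hterm p hp).2
      _ = Real.exp (7 / 6 * ∑ p ∈ S,
            (1 / (p : ℝ))) := by
          rw [← Real.exp_sum, Finset.mul_sum]
      _ ≤ Real.exp (7 / 6 * ξ) := by
          apply Real.exp_le_exp.2
          linarith
      _ ≤ 1 + 4 * ξ := gg_exp hξ hξ4
  have hfin := hcd a b c d E W G ω r ρ τ hE0 hW0 (by omega) hω h4ρ.2 hTS hτ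
    hfam (by
      rw [← hρ, hz]
      unfold fam
      simp) (by
      rw [Int.isCoprime_iff_gcd_eq_one]
      unfold Int.gcd
      rw [Int.natAbs_natCast]
      exact hcop) h4ρ.1 htail ε hε
  filter_upwards [hfin] with N hN
  refine hN.trans ?_
  have hN0 : (0 : ℝ) ≤ N := Nat.cast_nonneg N
  apply mul_le_mul_of_nonneg_right _ hN0
  have h1 : (1 + C * τ) * (∏ p ∈ W.primeFactors.filter (fun p => ¬ p ∣ ω), (1 - 1 / (p : ℝ))⁻¹) ≤
      (1 + C * τ) * (1 + 4 * ξ) := by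
    apply mul_le_mul_of_nonneg_left hprod
    have := mul_nonneg hC.le hτ
    linarith
  linarith

end H2T
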