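import Mathlib

/-!
# H2T/Hens: powers of `u = 1 mod q` fill the residues `1 mod q` modulo `q³`

* `pow_sq`: `dvd_sub_pow_of_dvd_sub` (Mathlib) with `k = 2` gives `q³ ∣ u^(q²) - 1`; `u^(q² x) - 1` is a multiple.
* `pow_lift`: write `u = 1 + q α`, `q ∤ α`, `w = 1 + q β`. Modulo `q²`: `u^x = 1 + q α x`. Choose `x₀ ≥ 0` with `α x₀ = β mod q`
  (`α` is invertible modulo `q`), so `q² ∣ u^x₀ - w`. Modulo `q³`: `u^q = 1 + q² α'` with `α' = α mod q` (as `q > 2`; e.g. from the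
  binomial theorem, or: `q² ∣ u^q - 1` by `dvd_sub_pow_of_dvd_sub` and `q³ ∤ u^q - 1`, by
  `Int.emultiplicity_pow_sub_pow`-type lemmas), so `u^(x₀ + q y) = u^x₀ (1 + q² α' y) mod q³`, and
  `u^(x₀ + q y) - w = (u^x₀ - w) + q² α' y u^x₀ mod q³`; choose `y ≥ 0` with `(u^x₀ - w)/q² + α' u^x₀ y = 0 mod q`
  (`u^x₀ = 1 mod q`). Take `x = x₀ + q y`.
-/

namespace H2T

theorem pow_sq {q : ℕ} {u : ℤ} (hu : (q : ℤ) ∣ u - 1) (x : ℕ) : ((q ^ 3 : ℕ) : ℤ) ∣ u ^ (q ^ 2 * x) - 1 := by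
  have h1 := dvd_sub_pow_of_dvd_sub hu 2
  have h2 : u ^ q ^ 2 - 1 ^ q ^ 2 ∣ (u ^ q ^ 2) ^ x - (1 ^ q ^ 2) ^ x := sub_dvd_pow_sub_pow _ _ x
  have h3 := h1.trans h2
  rw [one_pow, one_pow, ← pow_mul] at h3
  push_cast
  exact h3

private theorem powB (q α : ℤ) (x : ℕ) :
    q ^ 3 ∣ (1 + q * α) ^ x - (1 + q * α * x + q ^ 2 * α ^ 2 * ((x.choose 2 : ℕ) : ℤ)) := by
  induction x with
  | zero => simp
  | succ x ih =>
    obtain ⟨t, ht⟩ := ih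
    have e1 : (x + 1).choose 2 = x + x.choose 2 := by
      rw [Nat.choose_succ_succ' x 1, Nat.choose_one_right]
    rw [e1]
    refine ⟨t * (1 + q * α) + α ^ 3 * ((x.choose 2 : ℕ) : ℤ), ?_⟩
    rw [pow_succ]
    push_cast
    linear_combination (1 + q * α) * ht

private theorem natRes {q : ℕ} (hq : 0 < q) (z : ℤ) : ∃ (y : ℕ) (y' : ℤ), (y : ℤ) = z + q * y' := by
  refine ⟨(z % q).toNat, -(z / q), ?_⟩
  rw [Int.toNat_of_nonneg (Int.emod_nonneg z (by omega))]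
  have := Int.emod_add_mul_ediv z q
  linarith

private theorem chooseC {q : ℕ} (hq : q.Prime) (h2 : 2 < q) (a b : ℕ) :
    ∃ s : ℤ, (((a + q * b).choose 2 : ℕ) : ℤ) = ((a.choose 2 : ℕ) : ℤ) + q * s := by
  have h : ∀ n : ℕ, 2 * ((n.choose 2 : ℕ) : ℤ) = n * (n - 1) := by
    intro n
    induction n with
    | zero => simp
    | succ n ih =>
      rw [Nat.choose_succ_succ' n 1, Nat.choose_one_right]
      push_cast
      linarith
  have h3 : (q : ℤ) ∣ 2 * ((((a + q * b).choose 2 : ℕ) : ℤ) - ((a.choose 2 : ℕ) : ℤ)) := by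
    refine ⟨b * (2 * a + q * b - 1), ?_⟩
    rw [mul_sub, h, h]
    push_cast
    ring
  have h4 : (q : ℤ) ∣ (((a + q * b).choose 2 : ℕ) : ℤ) - ((a.choose 2 : ℕ) : ℤ) := by
    rcases (Nat.prime_iff_prime_int.mp hq).dvd_or_dvd h3 with h5 | h5
    · have := Int.le_of_dvd (by norm_num) h5
      omega
    · exact h5
  obtain ⟨s, hs⟩ := h4
  exact ⟨s, by linarith⟩

theorem pow_lift {q : ℕ} (hq : q.Prime) (h2 : 2 < q) {u w : ℤ} (hu : (q : ℤ) ∣ u - 1)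
    (hu2 : ¬ ((q ^ 2 : ℕ) : ℤ) ∣ u - 1) (hw : (q : ℤ) ∣ w - 1) : ∃ x : ℕ, ((q ^ 3 : ℕ) : ℤ) ∣ u ^ x - w := by
  obtain ⟨α, hα⟩ := hu
  obtain ⟨β, hβ⟩ := hw
  have hα' : ¬ (q : ℤ) ∣ α := by
    rintro ⟨c, hc⟩
    apply hu2
    refine ⟨c, ?_⟩
    rw [hα, hc]
    push_cast
    ring
  have hcop : IsCoprime (q : ℤ) α :=
    (Nat.prime_iff_prime_int.mp hq).coprime_iff_not_dvd.2 hα'
  obtain ⟨e, i, hei⟩ := hcop
  have hq0 : 0 < q := hq.pos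
  obtain ⟨x0, x0', hx0⟩ := natRes hq0 (i * β)
  set C0 : ℤ := ((x0.choose 2 : ℕ) : ℤ) with hC0
  -- `α x0 - β = q m`
  set m : ℤ := -(e * β) + α * x0' with hm
  have hmx : α * x0 - β = q * m := by
    rw [hm, hx0]
    linear_combination β * hei
  obtain ⟨y, y', hy⟩ := natRes hq0 (-(i * (m + α ^ 2 * C0)))
  obtain ⟨s, hs⟩ := chooseC hq h2 x0 y
  obtain ⟨t, ht⟩ := powB q α (x0 + q * y)
  refine ⟨x0 + q * y, t + α ^ 2 * s + e * (m + α ^ 2 * C0) + α * y', ?_⟩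
  have hu' : u = 1 + q * α := by linarith
  have hw' : w = 1 + q * β := by linarith
  rw [hs] at ht
  rw [hu', hw']
  push_cast at ht ⊢
  rw [← hC0] at ht
  linear_combination ht + q * hmx + q ^ 2 * α * hy + (-(q : ℤ) ^ 2 * (m + α ^ 2 * C0)) * hei

end H2T
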