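import Pool.Agent.H2T.Defs
import Pool.Agent.H2T.Hens
import Pool.Agent.H2S.Per

/-!
# H2T/Per2: the modulus `WF` and the periods

Let `W = Wd ℓ Jp E`, `P = ∏_{q ∈ F} q²`, `WF = W P ∏_{p ∈ New} p`. `W = (primorial ℓ)^Jp ∏_{q ∈ Qset} q`, the `q ∈ Qset` are primes `> ℓ`, so for
`q ∈ F ⊆ Qset` the exponent of `q` in `W` is 1, `W = W₀ ∏_{q ∈ F} q` with `W₀` coprime to the `q ∈ F`.
* `cube_dvd_WF`: `q ∣ W`, `q² ∣ P`. `prime_dvd_WF`: `p ∣ W` (then `p ≤ ℓ` or `p ∈ Qset`), or `p ∣ q²`, `q ∈ F ⊆ Qset`, or `p ∣ p' ∈ New`.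
* `WF_dvd` (`E = (primorial ℓ)^J`, `E' = E P`): `fam a b c d E' (i, j) = fam a b c d E (P i, P j)`, so `W` divides the difference by `H2S.Wd_dvd`.
  For `q ∈ F`: `q ∣ 9^E - 1`, `q ∣ 25^E - 1` (`Qset`), `q² ∣ P`, so `q³ ∣ 9^(E' i) - 1`, `q³ ∣ 25^(E' j) - 1` (`pow_sq`), and
  `fam (i,j) - fam (0,0) = 4^a 9^b (9^(E' i) - 1) + 4^c 25^d (25^(E' j) - 1)` is divisible by `q³`. A new prime `p` divides `9^E' - 1` and
  `25^E' - 1`, hence the difference. `W₀`, the `q³` (`q ∈ F`) and the new primes (`∤ W`) are pairwise coprime.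
-/

namespace H2T

open Finset H2S

private lemma Qp {ℓ E q : ℕ} (hq : q ∈ Qset ℓ E) : q.Prime := by
  unfold Qset at hq
  rw [Finset.mem_filter, Finset.mem_inter] at hq
  exact Nat.prime_of_mem_primeFactors hq.1.1

private lemma Ql {ℓ E q : ℕ} (hq : q ∈ Qset ℓ E) : ℓ < q := by
  unfold Qset at hq
  exact (Finset.mem_filter.1 hq).2

private lemma Np' {W E p : ℕ} {F : Finset ℕ} (hp : p ∈ New W E F) : p.Prime ∧ ¬ p ∣ W := by
  unfold New at hp
  rw [Finset.mem_filter, Finset.mem_inter] at hp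
  exact ⟨Nat.prime_of_mem_primeFactors hp.1.1, hp.2⟩

private lemma Q_dvd_W {ℓ Jp E q : ℕ} (hq : q ∈ Qset ℓ E) : q ∣ Wd ℓ Jp E := by
  unfold Wd
  exact (Finset.dvd_prod_of_mem (fun q => q) hq).mul_left _

private lemma prime_dvd_primorial {ℓ p : ℕ} (hp : p.Prime) (h : p ∣ primorial ℓ) : p ≤ ℓ := by
  unfold primorial at h
  obtain ⟨r, hr, hpr⟩ := (Prime.dvd_finsetProd_iff hp.prime _).1 h
  rw [Finset.mem_filter, Finset.mem_range] at hr
  rw [(Nat.prime_dvd_prime_iff_eq hp hr.2).1 hpr]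
  omega

private lemma fam_diff (a b c d E : ℕ) (p : ℕ × ℕ) :
    (fam a b c d E p : ℤ) - fam a b c d E (0, 0) =
      4 ^ a * ((9 : ℤ) ^ b * ((9 : ℤ) ^ (E * p.1) - 1)) +
      4 ^ c * ((25 : ℤ) ^ d * ((25 : ℤ) ^ (E * p.2) - 1)) := by
  unfold fam kk
  have e9 : (9 : ℤ) = 3 ^ 2 := by norm_num
  have e25 : (25 : ℤ) = 5 ^ 2 := by norm_num
  have e4 : (4 : ℤ) = 2 ^ 2 := by norm_num
  push_cast
  rw [e9, e25, e4]
  simp only [mul_zero, add_zero, mul_pow, ← pow_mul]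
  ring

private lemma dvd_int {g e q : ℕ} (hg : 1 ≤ g) (h : q ∈ (g ^ e - 1).primeFactors) :
    (q : ℤ) ∣ (g : ℤ) ^ e - 1 := by
  have h1 := Int.natCast_dvd_natCast.2 (Nat.dvd_of_mem_primeFactors h)
  rw [Nat.cast_sub (Nat.one_le_pow _ _ hg)] at h1
  push_cast at h1
  exact h1

private lemma dvd_fam {a b c d E : ℕ} {p : ℕ × ℕ} {m : ℤ} (h9 : m ∣ (9 : ℤ) ^ (E * p.1) - 1)
    (h25 : m ∣ (25 : ℤ) ^ (E * p.2) - 1) : m ∣ (fam a b c d E p : ℤ) - fam a b c d E (0, 0) := by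
  rw [fam_diff]
  exact dvd_add ((h9.mul_left _).mul_left _) ((h25.mul_left _).mul_left _)

theorem WF_pos {ℓ Jp E : ℕ} {F : Finset ℕ} (hF : F ⊆ Qset ℓ E) : 0 < WF (Wd ℓ Jp E) E F := by
  unfold WF KF
  refine Nat.mul_pos (Wd_pos ℓ Jp E) (Nat.mul_pos ?_ ?_)
  · exact Finset.prod_pos fun q hq => pow_pos (Qp (hF hq)).pos 2
  · exact Finset.prod_pos fun p hp => (Np' hp).1.pos

theorem cube_dvd_WF {ℓ Jp E q : ℕ} {F : Finset ℕ} (hF : F ⊆ Qset ℓ E) (hq : q ∈ F) : q ^ 3 ∣ WF (Wd ℓ Jp E) E F := by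
  unfold WF KF
  have h1 : q ^ 3 = q * q ^ 2 := by ring
  rw [h1]
  refine mul_dvd_mul (Q_dvd_W (hF hq)) (Dvd.dvd.mul_right ?_ _)
  exact Finset.dvd_prod_of_mem (fun q => q ^ 2) hq

theorem prime_dvd_WF {ℓ Jp E p : ℕ} {F : Finset ℕ} (hF : F ⊆ Qset ℓ E) (hp : p.Prime) (h : p ∣ WF (Wd ℓ Jp E) E F) :
    p ≤ ℓ ∨ p ∈ Qset ℓ E ∨ p ∈ New (Wd ℓ Jp E) E F := by
  unfold WF KF at h
  rcases (Nat.Prime.dvd_mul hp).1 h with h | h
  · unfold Wd at h
    rcases (Nat.Prime.dvd_mul hp).1 h with h | h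
    · exact Or.inl (prime_dvd_primorial hp (hp.dvd_of_dvd_pow h))
    · obtain ⟨q, hq, hpq⟩ := (Prime.dvd_finsetProd_iff hp.prime _).1 h
      rw [(Nat.prime_dvd_prime_iff_eq hp (Qp hq)).1 hpq]
      exact Or.inr (Or.inl hq)
  · rcases (Nat.Prime.dvd_mul hp).1 h with h | h
    · obtain ⟨q, hq, hpq⟩ := (Prime.dvd_finsetProd_iff hp.prime _).1 h
      rw [(Nat.prime_dvd_prime_iff_eq hp (Qp (hF hq))).1 (hp.dvd_of_dvd_pow hpq)]
      exact Or.inr (Or.inl (hF hq))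
    · obtain ⟨q, hq, hpq⟩ := (Prime.dvd_finsetProd_iff hp.prime _).1 h
      rw [(Nat.prime_dvd_prime_iff_eq hp (Np' hq).1).1 hpq]
      exact Or.inr (Or.inr hq)

theorem WF_dvd {ℓ J Jp E : ℕ} (hE : E = (primorial ℓ) ^ J) (hℓ : 5 ≤ ℓ) (hJp : 1 ≤ Jp) (hJ : Jp + ℓ ≤ J)
    {F : Finset ℕ} (hF : F ⊆ Qset ℓ E) {a b c d : ℕ} (hb : Jp ≤ b) (hd : Jp ≤ d) (p : ℕ × ℕ) :
    ((WF (Wd ℓ Jp E) E F : ℕ) : ℤ) ∣ (fam a b c d (EF E F) p : ℤ) - fam a b c d (EF E F) (0, 0) := by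
  classical
  set P : ℕ := ∏ q ∈ F, q ^ 2 with hP
  set W0 : ℕ := (primorial ℓ) ^ Jp * ∏ q ∈ Qset ℓ E \ F, q with hW0
  have hW : Wd ℓ Jp E = W0 * ∏ q ∈ F, q := by
    rw [hW0]
    unfold Wd
    rw [mul_assoc, Finset.prod_sdiff hF]
  have hWF : WF (Wd ℓ Jp E) E F = W0 * (∏ q ∈ F, q ^ 3) * ∏ p ∈ New (Wd ℓ Jp E) E F, p := by
    unfold WF KF
    have h1 : ∏ q ∈ F, q ^ 3 = (∏ q ∈ F, q) * ∏ q ∈ F, q ^ 2 := by
      rw [← Finset.prod_mul_distrib]
      exact Finset.prod_congr rfl (fun q _ => by ring)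
    rw [h1]
    nth_rewrite 1 [hW]
    ring
  -- the three divisibilities
  have d0 : ((W0 : ℕ) : ℤ) ∣ (fam a b c d (EF E F) p : ℤ) - fam a b c d (EF E F) (0, 0) := by
    have h1 : fam a b c d (EF E F) p = fam a b c d E (P * p.1, P * p.2) := by
      unfold fam EF
      rw [← hP, mul_assoc, mul_assoc]
    have h2 : fam a b c d (EF E F) (0, 0) = fam a b c d E (0, 0) := by
      unfold fam
      simp
    rw [h1, h2]
    have h3 := Wd_dvd (ℓ := ℓ) (J := J) (Jp := Jp) hℓ hJp hJ (a := a) (c := c) hb hd (P * p.1, P * p.2)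
    rw [← hE, hW] at h3
    refine dvd_trans ?_ h3
    push_cast
    exact dvd_mul_right _ _
  have d1 : ∀ q ∈ F, ((q ^ 3 : ℕ) : ℤ) ∣ (fam a b c d (EF E F) p : ℤ) - fam a b c d (EF E F) (0, 0) := by
    intro q hq
    have hqQ := hF hq
    unfold Qset at hqQ
    rw [Finset.mem_filter, Finset.mem_inter] at hqQ
    obtain ⟨P', hP'⟩ : q ^ 2 ∣ P := Finset.dvd_prod_of_mem (fun q => q ^ 2) hq
    have h9 := dvd_int (by norm_num) hqQ.1.1
    have h25 := dvd_int (by norm_num) hqQ.1.2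
    have e : ∀ i : ℕ, EF E F * i = E * (q ^ 2 * (P' * i)) := by
      intro i
      unfold EF
      rw [← hP, hP']
      ring
    apply dvd_fam
    · rw [e, pow_mul]
      exact pow_sq h9 _
    · rw [e, pow_mul]
      exact pow_sq h25 _
  have d2 : ∀ r ∈ New (Wd ℓ Jp E) E F, ((r : ℕ) : ℤ) ∣ (fam a b c d (EF E F) p : ℤ) - fam a b c d (EF E F) (0, 0) := by
    intro r hr
    unfold New at hr
    rw [Finset.mem_filter, Finset.mem_inter] at hr
    have h9 := dvd_int (by norm_num) hr.1.1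
    have h25 := dvd_int (by norm_num) hr.1.2
    apply dvd_fam
    · refine h9.trans ?_
      rw [pow_mul]
      simpa using sub_dvd_pow_sub_pow ((9 : ℤ) ^ EF E F) 1 p.1
    · refine h25.trans ?_
      rw [pow_mul]
      simpa using sub_dvd_pow_sub_pow ((25 : ℤ) ^ EF E F) 1 p.2
  -- coprimality
  have c1 : Nat.Coprime W0 (∏ q ∈ F, q ^ 3) := by
    apply Nat.Coprime.prod_right
    intro q hq
    apply Nat.Coprime.pow_right
    have hqp := Qp (hF hq)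
    rw [hW0]
    apply Nat.Coprime.mul_left
    · apply Nat.Coprime.pow_left
      rw [Nat.coprime_comm, hqp.coprime_iff_not_dvd]
      intro h1
      have h2 := prime_dvd_primorial hqp h1
      have h3 := Ql (hF hq)
      omega
    · apply Nat.Coprime.prod_left
      intro r hr
      rw [Finset.mem_sdiff] at hr
      rw [Nat.coprime_primes (Qp hr.1) hqp]
      intro h1
      rw [h1] at hr
      exact hr.2 hq
  have c2 : Nat.Coprime (W0 * ∏ q ∈ F, q ^ 3) (∏ p ∈ New (Wd ℓ Jp E) E F, p) := by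
    apply Nat.Coprime.prod_right
    intro r hr
    obtain ⟨hrp, hrW⟩ := Np' hr
    apply Nat.Coprime.mul_left
    · rw [Nat.coprime_comm, hrp.coprime_iff_not_dvd]
      intro h1
      apply hrW
      rw [hW]
      exact h1.mul_right _
    · apply Nat.Coprime.prod_left
      intro q hq
      apply Nat.Coprime.pow_left
      rw [Nat.coprime_comm, hrp.coprime_iff_not_dvd]
      intro h1
      exact hrW (h1.trans (Q_dvd_W (hF hq)))
  have c1' := Nat.isCoprime_iff_coprime.2 c1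
  have c2' := Nat.isCoprime_iff_coprime.2 c2
  rw [hWF]
  push_cast at c1' c2' ⊢
  apply c2'.mul_dvd
  · apply c1'.mul_dvd d0
    apply Finset.prod_dvd_of_coprime
    · intro q hq q' hq' hne
      exact (Nat.isCoprime_iff_coprime.2 ((Nat.coprime_primes (Qp (hF hq)) (Qp (hF hq'))).2 hne)).pow
    · intro q hq
      have h1 := d1 q hq
      push_cast at h1
      exact h1
  · apply Finset.prod_dvd_of_coprime
    · intro q hq q' hq' hne
      exact Nat.isCoprime_iff_coprime.2 ((Nat.coprime_primes (Np' hq).1 (Np' hq').1).2 hne)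
    · intro q hq
      exact d2 q hq

end H2T
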