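import Pool.Agent.H2T.TuneF
import Pool.Agent.H2T.Per2
import Pool.Agent.H2T.GoodGen
import Pool.Agent.H2T.Combine

/-!
# H2T/Class2: a good and nice residue class modulo `W`, with tuning at the primes of `F`

`W = Wd ℓ Jp E`, `z = r - kk a b c d`, `F` = the `q ∈ Qset`, `q = 3 mod 4`, dividing `z`; `P = ∏_{q ∈ F} q²`, `K = KF W E F = P ∏_{p ∈ New} p`,
`E' = EF E F`, `WF = W K`. For `v < P` apply `tuneF` to `n = r + W v` (`q ∈ F` divides `W` and `z`; `q > ℓ` so `q ∤ E`; `q ∣ 9^E - 1`, `q ∣ 25^E - 1` from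
`Qset`): `x_v, y_v`. Put `f v = kk a (b + E x_v) c (d + E y_v)`. Let `Bad` be the `u < K` such that some `p ∈ New` divides `r + W u - f (u % P)`; by `new_count`
(`p ∤ W`, and `p ∤ P` as the primes of `P` divide `W`) `|Bad| ≤ τ K`. Let `u < K`, `u ∉ Bad`, `v = u % P`, `b' = b + E x_v`, `d' = d + E y_v`, `r' = r + W u`,
`z' = r' - f v`. Apply `good_gen` to `E', WF, r', a, b', c, d', z'` and `S` = the `q ∈ Qset`, `q % 4 = 1`, `q ∣ z` (`q > ℓ ≥ 5`, so `q ≥ 7`):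
* `WF_dvd` (`b' ≥ b ≥ Jp`, `d' ≥ Jp`). `8, 27, 5 ∣ Wd` (`Jp ≥ 3`, `2, 3, 5 ≤ ℓ`).
* `W ∣ z' - z`: `kk a b' c d' = fam a b c d E (x_v, y_v)`, `kk a b c d = fam a b c d E (0, 0)`, `H2S.Wd_dvd`. So the conditions at 2, 3, 5 carry over (8, 27, 5
  divide `W`), `p^Jp ∣ z' ↔ p^Jp ∣ z` for primes `p ≤ ℓ`, `q ∣ z' ↔ q ∣ z` for `q ∈ Qset`.
* `q ∣ WF`, `q = 3 mod 4`, `q > 3` (`prime_dvd_WF`): if `q ≤ ℓ` use `GoodQ q z` and `goodQ_congr` (`q³ ∣ q^Jp ∣ W`). If `q ∈ F`: `GoodQ q (r + W v - f v)` and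
  `r + W u = r + W v mod W P`, `q³ ∣ W P`; `q³ ∣ WF` by `cube_dvd_WF`. If `q ∈ Qset`, `q ∉ F`: `q ∤ z`, so `q ∤ z'`. If `q ∈ New`: `u ∉ Bad`.
* `p ∣ WF`, `p % 4 = 1`, `p ≠ 5`, `p ∉ S`: if `p ≤ ℓ` then `p^Jp ∣ WF`, so `v_p(WF) ≥ Jp`, and `p^Jp ∤ z`; if `p ∈ Qset` then `p ∤ z'`; if `p ∈ New` then `p ∤ z'`
  (`v_p(WF) ≥ 1`).
So for `u ∉ Bad` the number of `t < N` with `r + W (u + K t) = r' + WF t` not representable is at most `(450 (...) + ε) N` for large `N`; `combine` with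
`P t := ¬ Rep (r + W t)` finishes the proof. (`0 ≤ 450 ((1 + C τ)(1 + 4 ξ) - 1)`.)
-/

namespace H2T

open Finset Filter H2S

private lemma Qp {ℓ E q : ℕ} (hq : q ∈ Qset ℓ E) : q.Prime := by
  unfold Qset at hq
  rw [Finset.mem_filter, Finset.mem_inter] at hq
  exact Nat.prime_of_mem_primeFactors hq.1.1

private lemma Ql {ℓ E q : ℕ} (hq : q ∈ Qset ℓ E) : ℓ < q := by
  unfold Qset at hq
  exact (Finset.mem_filter.1 hq).2

private lemma Nw {W E p : ℕ} {F : Finset ℕ} (hp : p ∈ New W E F) : p.Prime ∧ ¬ p ∣ W := by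
  unfold New at hp
  rw [Finset.mem_filter, Finset.mem_inter] at hp
  exact ⟨Nat.prime_of_mem_primeFactors hp.1.1, hp.2⟩

private lemma Q_dvd_W {ℓ Jp E q : ℕ} (hq : q ∈ Qset ℓ E) : q ∣ Wd ℓ Jp E := by
  unfold Wd
  exact (Finset.dvd_prod_of_mem (fun q => q) hq).mul_left _

private lemma prime_dvd_primorial {ℓ p : ℕ} (hp : p.Prime) (h : p ∣ primorial ℓ) : p ≤ ℓ := by
  unfold primorial at h
  obtain ⟨r, hr, hpr⟩ := (Prime.dvd_finsetProd_iff hp.prime _).1 h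
  rw [Finset.mem_filter, Finset.mem_range] at hr
  rw [(Nat.prime_dvd_prime_iff_eq hp hr.2).1 hpr]
  omega

private lemma pow_dvd_W {ℓ Jp E p : ℕ} (hp : p.Prime) (h : p ≤ ℓ) : p ^ Jp ∣ Wd ℓ Jp E := by
  unfold Wd
  refine Dvd.dvd.mul_right (pow_dvd_pow_of_dvd ?_ _) _
  unfold primorial
  exact Finset.dvd_prod_of_mem _ (Finset.mem_filter.2 ⟨Finset.mem_range.2 (by omega), hp⟩)

open scoped Classical in
theorem good_class2 : ∃ C : ℝ, 0 < C ∧ ∀ (ℓ J Jp E : ℕ) (τ ξ : ℝ), E = (primorial ℓ) ^ J → 5 ≤ ℓ → 3 ≤ Jp → Jp + ℓ ≤ J →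
    0 ≤ τ → 0 ≤ ξ → ξ ≤ 1 / 4 →
    ∀ (r a b c d : ℕ) (z : ℤ), z = (r : ℤ) - kk a b c d → Jp ≤ b → Jp ≤ d →
    ∀ F : Finset ℕ, F = (Qset ℓ E).filter (fun q : ℕ => q % 4 = 3 ∧ (q : ℤ) ∣ z) →
    (∀ T : Finset ℕ, (∀ q ∈ T, q.Prime ∧ ¬ q ∣ WF (Wd ℓ Jp E) E F) →
      ∑ q ∈ T, wt q / (max (orderOf ((9 : ZMod q) ^ EF E F)) (orderOf ((25 : ZMod q) ^ EF E F)) : ℕ) ≤ τ) →
    ∑ p ∈ New (Wd ℓ Jp E) E F, (1 : ℝ) / p ≤ τ →
    (z % 4 = 1 ∨ z % 8 = 2) → (z % 3 ≠ 0 ∨ (z % 9 = 0 ∧ z % 27 ≠ 0)) → ¬ (5 : ℤ) ∣ z →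
    (∀ q : ℕ, q.Prime → q ≤ ℓ → q % 4 = 3 → 3 < q → GoodQ q z) → (∀ q ∈ F, ¬ DW q) →
    (∀ p : ℕ, p.Prime → p ≤ ℓ → p % 4 = 1 → p ≠ 5 → ¬ ((p ^ Jp : ℕ) : ℤ) ∣ z) →
    ∑ q ∈ (Qset ℓ E).filter (fun q : ℕ => q % 4 = 1 ∧ (q : ℤ) ∣ z), (1 : ℝ) / q ≤ ξ →
    ∀ ε : ℝ, 0 < ε → ∀ᶠ N : ℕ in atTop,
      (((range N).filter (fun t => ¬ Rep (r + Wd ℓ Jp E * t))).card : ℝ) ≤
        (450 * ((1 + C * τ) * (1 + 4 * ξ) - 1) + τ + ε) * N := by
  obtain ⟨C, hC, hgood⟩ := good_gen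
  refine ⟨C, hC, ?_⟩
  intro ℓ J Jp E τ ξ hE hℓ hJp hJ hτ hξ hξ4 r a b c d z hz hb hd F hFdef hT hNew h4 h3 h5 hsmall hDW hnp hsum
  have hJp1 : 1 ≤ Jp := by omega
  have hFQ : F ⊆ Qset ℓ E := by
    rw [hFdef]
    exact Finset.filter_subset _ _
  have hFz : ∀ q ∈ F, (q : ℤ) ∣ z := by
    intro q hq
    rw [hFdef, Finset.mem_filter] at hq
    exact hq.2.2
  have hE0 : 0 < E := by
    rw [hE]
    exact pow_pos (primorial_pos ℓ) _
  set W := Wd ℓ Jp E with hW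
  have hWpos : 0 < W := Wd_pos ℓ Jp E
  set P : ℕ := ∏ q ∈ F, q ^ 2 with hP
  have hPpos : 0 < P := Finset.prod_pos fun q hq => pow_pos (Qp (hFQ hq)).pos 2
  set K := KF W E F with hK
  have hKP : K = P * ∏ p ∈ New W E F, p := rfl
  have hKpos : 0 < K := by
    rw [hKP]
    exact Nat.mul_pos hPpos (Finset.prod_pos fun p hp => (Nw hp).1.pos)
  have hFfacts : ∀ q ∈ F, q.Prime ∧ 5 < q ∧ ¬ DW q ∧ ¬ q ∣ E ∧ q ∣ 9 ^ E - 1 ∧ q ∣ 25 ^ E - 1 := by
    intro q hq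
    have hqQ := hFQ hq
    have hqp := Qp hqQ
    have hql := Ql hqQ
    refine ⟨hqp, by omega, hDW q hq, ?_, ?_, ?_⟩
    · intro h
      rw [hE] at h
      have := prime_dvd_primorial hqp (hqp.dvd_of_dvd_pow h)
      omega
    · unfold Qset at hqQ
      rw [Finset.mem_filter, Finset.mem_inter] at hqQ
      exact Nat.dvd_of_mem_primeFactors hqQ.1.1
    · unfold Qset at hqQ
      rw [Finset.mem_filter, Finset.mem_inter] at hqQ
      exact Nat.dvd_of_mem_primeFactors hqQ.1.2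
  have htune : ∀ v : ℕ, ∃ x y : ℕ, ∀ q ∈ F, GoodQ q (((r : ℤ) + W * v) - kk a (b + E * x) c (d + E * y)) := by
    intro v
    apply tuneF F hFfacts
    intro q hq
    have h1 : (r : ℤ) + W * v - kk a b c d = z + W * v := by
      rw [hz]
      ring
    rw [h1]
    exact dvd_add (hFz q hq) ((Int.natCast_dvd_natCast.2 (Q_dvd_W (hFQ hq))).mul_right _)
  choose x y hxy using htune
  set f : ℕ → ℤ := fun v => (kk a (b + E * x v) c (d + E * y v) : ℤ) with hf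
  have hWf : ∀ v, (W : ℤ) ∣ f v - kk a b c d := by
    intro v
    have h1 := Wd_dvd (ℓ := ℓ) (J := J) (Jp := Jp) hℓ hJp1 hJ (a := a) (c := c) hb hd (x v, y v)
    rw [← hE] at h1
    have h2 : fam a b c d E (0, 0) = kk a b c d := by
      unfold fam
      simp
    rw [h2] at h1
    exact h1
  set Bad : Finset ℕ := (range K).filter
    (fun u : ℕ => ∃ p ∈ New W E F, ((p : ℕ) : ℤ) ∣ (r : ℤ) + W * u - f (u % P)) with hBaddef
  have hBad : (Bad.card : ℝ) ≤ τ * K := by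
    have h1 := new_count hPpos (New W E F) W (by
      intro p hp
      obtain ⟨hpp, hpW⟩ := Nw hp
      refine ⟨hpp, ?_, hpW⟩
      intro h
      obtain ⟨q, hq, hpq⟩ := (Prime.dvd_finsetProd_iff hpp.prime _).1 h
      apply hpW
      rw [(Nat.prime_dvd_prime_iff_eq hpp (Qp (hFQ hq))).1 (hpp.dvd_of_dvd_pow hpq)]
      exact Q_dvd_W (hFQ hq)) r f
    rw [← hKP] at h1
    refine le_trans ?_ (h1.trans (mul_le_mul_of_nonneg_right hNew (Nat.cast_nonneg _)))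
    apply le_of_eq
    congr 1
  have hκ : 0 ≤ 450 * ((1 + C * τ) * (1 + 4 * ξ) - 1) := by
    have h1 : 0 ≤ C * τ := by positivity
    nlinarith [mul_nonneg h1 hξ]
  have h8W : 8 ∣ W := by
    have h1 : 2 ^ Jp ∣ W := pow_dvd_W Nat.prime_two (by omega)
    exact (pow_dvd_pow 2 hJp).trans h1
  have h27W : 27 ∣ W := by
    have h1 : 3 ^ Jp ∣ W := pow_dvd_W Nat.prime_three (by omega)
    exact (pow_dvd_pow 3 hJp).trans h1
  have h5W : 5 ∣ W := by
    have h1 : 5 ^ Jp ∣ W := pow_dvd_W Nat.prime_five (by omega)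
    exact (dvd_pow_self 5 (by omega)).trans h1
  have hWW : W ∣ WF W E F := by
    unfold WF
    exact dvd_mul_right _ _
  apply combine hKpos (fun t => ¬ Rep (r + W * t)) hκ Bad hBad
  intro u hu huBad ε hε
  have huNew : ∀ p ∈ New W E F, ¬ ((p : ℕ) : ℤ) ∣ (r : ℤ) + W * u - f (u % P) := by
    intro p hp h
    apply huBad
    rw [hBaddef, Finset.mem_filter]
    exact ⟨hu, p, hp, h⟩
  set v := u % P with hv
  set z' : ℤ := ((r + W * u : ℕ) : ℤ) - kk a (b + E * x v) c (d + E * y v) with hz'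
  have hz'2 : z' = (r : ℤ) + W * u - f v := by
    rw [hz', hf]
    push_cast
    ring
  have hWz : (W : ℤ) ∣ z' - z := by
    have h1 : z' - z = W * u - (f v - kk a b c d) := by
      rw [hz'2, hz]
      ring
    rw [h1]
    exact dvd_sub (dvd_mul_right _ _) (hWf v)
  have h8z : (8 : ℤ) ∣ z' - z := (Int.natCast_dvd_natCast.2 h8W).trans hWz
  have h27z : (27 : ℤ) ∣ z' - z := (Int.natCast_dvd_natCast.2 h27W).trans hWz
  have h5z : (5 : ℤ) ∣ z' - z := (Int.natCast_dvd_natCast.2 h5W).trans hWz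
  have hmod : ∀ m : ℤ, m ∣ z' - z → m ∣ z' → m ∣ z := by
    intro m h1 h2
    have h3 : z = z' - (z' - z) := by ring
    rw [h3]
    exact dvd_sub h2 h1
  have key := hgood (EF E F) (WF W E F) τ ξ (by
      unfold EF
      exact Nat.mul_pos hE0 hPpos) (Nat.mul_pos hWpos hKpos) (h8W.trans hWW) (h27W.trans hWW) (h5W.trans hWW)
    hτ hξ hξ4 hT (r + W * u) a (b + E * x v) c (d + E * y v) z' hz'
    (fun p => WF_dvd hE hℓ hJp1 hJ hFQ (by omega) (by omega) p)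
    (by
      obtain ⟨m, hm⟩ := h8z
      omega)
    (by
      obtain ⟨m, hm⟩ := h27z
      omega)
    (fun h => h5 (hmod 5 h5z h))
    (by
      intro q hq hqW hq4 hq3
      rcases prime_dvd_WF hFQ hq hqW with hle | hqQ | hqN
      · have h1 := hsmall q hq hle hq4 hq3
        have h2 : q ^ 3 ∣ W := (pow_dvd_pow q hJp).trans (pow_dvd_W hq hle)
        have h3 : GoodQ q z' := (goodQ_congr ((Int.natCast_dvd_natCast.2 h2).trans hWz)).2 h1
        rcases h3 with h3 | h3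
        · exact Or.inl h3
        · exact Or.inr ⟨h2.trans hWW, h3.2.1, h3.2.2⟩
      · by_cases hqF : q ∈ F
        · have h1 := hxy v q hqF
          have h2 : ((q ^ 3 : ℕ) : ℤ) ∣ z' - ((r : ℤ) + W * v - kk a (b + E * x v) c (d + E * y v)) := by
            obtain ⟨m, hm⟩ : ∃ m : ℕ, u = P * m + v := ⟨u / P, (Nat.div_add_mod u P).symm⟩
            have h3 : z' - ((r : ℤ) + W * v - kk a (b + E * x v) c (d + E * y v)) = ((W * (P * m) : ℕ) : ℤ) := by
              have h4 : (u : ℤ) = P * m + v := by exact_mod_cast hm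
              rw [hz']
              push_cast
              rw [h4]
              ring
            rw [h3]
            apply Int.natCast_dvd_natCast.2
            have h5 : q ^ 3 = q * q ^ 2 := by ring
            rw [h5]
            exact mul_dvd_mul (Q_dvd_W hqQ) ((Finset.dvd_prod_of_mem (fun q => q ^ 2) hqF).mul_right _)
          have h3 : GoodQ q z' := (goodQ_congr h2).2 h1
          rcases h3 with h3 | h3
          · exact Or.inl h3
          · exact Or.inr ⟨cube_dvd_WF hFQ hqF, h3.2.1, h3.2.2⟩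
        · left
          intro h
          apply hqF
          rw [hFdef, Finset.mem_filter]
          exact ⟨hqQ, hq4, hmod _ ((Int.natCast_dvd_natCast.2 (Q_dvd_W hqQ)).trans hWz) h⟩
      · left
        rw [hz'2]
        exact huNew q hqN)
    ((Qset ℓ E).filter (fun q : ℕ => q % 4 = 1 ∧ (q : ℤ) ∣ z))
    (by
      intro q hq
      have hq1 := (Finset.mem_filter.1 hq).1
      have h1 := Ql hq1
      have h2 := Qp hq1
      by_contra hc
      have h3 : q = 6 := by omega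
      rw [h3] at h2
      exact absurd h2 (by norm_num))
    (by
      intro p hp hpW hp4 hp5 hpS h
      have hfac : 1 ≤ (WF W E F).factorization p :=
        (hp.dvd_iff_one_le_factorization (Nat.mul_pos hWpos hKpos).ne').1 hpW
      have hpz : (p : ℤ) ∣ z' :=
        (Int.natCast_dvd_natCast.2 (dvd_pow_self p (by omega))).trans h
      rcases prime_dvd_WF hFQ hp hpW with hle | hpQ | hpN
      · have h1 : p ^ Jp ∣ W := pow_dvd_W hp hle
        have h2 : Jp ≤ (WF W E F).factorization p :=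
          (hp.pow_dvd_iff_le_factorization (Nat.mul_pos hWpos hKpos).ne').1 (h1.trans hWW)
        have h3 : ((p ^ Jp : ℕ) : ℤ) ∣ z' := (Int.natCast_dvd_natCast.2 (pow_dvd_pow p h2)).trans h
        exact hnp p hp hle hp4 hp5 (hmod _ ((Int.natCast_dvd_natCast.2 h1).trans hWz) h3)
      · apply hpS
        rw [Finset.mem_filter]
        exact ⟨hpQ, hp4, hmod _ ((Int.natCast_dvd_natCast.2 (Q_dvd_W hpQ)).trans hWz) hpz⟩
      · rw [hz'2] at hpz
        exact huNew p hpN hpz)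
    hsum ε hε
  filter_upwards [key] with N hN
  refine le_trans (le_of_eq ?_) hN
  congr 2
  ext t
  have e : r + W * (u + K * t) = (r + W * u) + WF W E F * t := by
    unfold WF
    rw [← hK]
    ring
  simp only [Finset.mem_filter, e]

end H2T
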