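import Pool.Agent.H2S.Defs

/-!
# H2T/Defs: the local-global theorem with the true local conditions (MP_af1663_nt)

Second part of the development H2S. The remainder `z = n - kk a b c d` is now allowed to be divisible by `q²` (exactly) for a
prime `q = 3 mod 4`, unless `q` is a Wieferich prime to both bases 3 and 5.
-/

namespace H2T

open Finset H2S

/-- `q` is a Wieferich prime to both bases 3 and 5 -/
def DW (q : ℕ) : Prop := q ^ 2 ∣ 3 ^ (q - 1) - 1 ∧ q ^ 2 ∣ 5 ^ (q - 1) - 1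

instance : DecidablePred DW := fun q => by unfold DW; infer_instance

/-- the condition at `q`: `q ∤ z`, or `q` is not doubly Wieferich and `v_q(z) = 2` -/
def GoodQ (q : ℕ) (z : ℤ) : Prop :=
  ¬ (q : ℤ) ∣ z ∨ (¬ DW q ∧ ((q ^ 2 : ℕ) : ℤ) ∣ z ∧ ¬ ((q ^ 3 : ℕ) : ℤ) ∣ z)

/-- the conditions at 2, at 3 and at the `q ∈ Q` -/
def GoodZ2 (Q : Finset ℕ) (z : ℤ) : Prop :=
  (z % 4 = 1 ∨ z % 8 = 2) ∧ (z % 3 ≠ 0 ∨ (z % 9 = 0 ∧ z % 27 ≠ 0)) ∧ ∀ q ∈ Q, GoodQ q z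

/-- the step `E ∏_{q ∈ F} q²` -/
def EF (E : ℕ) (F : Finset ℕ) : ℕ := E * ∏ q ∈ F, q ^ 2

/-- the new primes: they divide `9^(E') - 1` and `25^(E') - 1`, `E' = EF E F`, and not `W` -/
def New (W E : ℕ) (F : Finset ℕ) : Finset ℕ :=
  ((9 ^ EF E F - 1).primeFactors ∩ (25 ^ EF E F - 1).primeFactors).filter (fun p => ¬ p ∣ W)

/-- the quotient `W' / W` -/
def KF (W E : ℕ) (F : Finset ℕ) : ℕ := (∏ q ∈ F, q ^ 2) * ∏ p ∈ New W E F, p

/-- the modulus `W' = W ∏_{q ∈ F} q² ∏_{p new} p` -/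
def WF (W E : ℕ) (F : Finset ℕ) : ℕ := W * KF W E F

/-- the period of the conditions -/
def Lper (Q : Finset ℕ) : ℕ := 9 * ∏ q ∈ Q, ((q - 1) / 2 * q ^ 2)

end H2T
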