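import Mathlib

/-!
# H2T/Wief: the order of 9 modulo `q²` if `q` is not a Wieferich prime to the base 3

Suppose `q² ∣ 9^T - 1`. Let `v = 3^(q-1)`, `v = 1 mod q` (Fermat, `q ∤ 3`), `v = 1 + q α`. Then
`v^(2T) = (9^T)^(q-1) = 1 mod q²` and `v^(2T) = 1 + 2 T q α mod q²` (binomial theorem; e.g. `q² ∣ (1 + x)^m - 1 - m x` for
`q ∣ x`), so `q ∣ 2 T α`, `q ∤ 2`, `q ∤ T`, hence `q ∣ α` and `q² ∣ v - 1`, a contradiction. The same for 25 and 5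
(`5 < q`). Note that `T ≠ 0` since `q ∤ T`.
-/

namespace H2T

private theorem bin2 (x : ℤ) (n : ℕ) : ∃ c : ℤ, (1 + x) ^ n = 1 + n * x + x ^ 2 * c := by
  induction n with
  | zero => exact ⟨0, by simp⟩
  | succ n ih =>
    obtain ⟨c, hc⟩ := ih
    refine ⟨c + n + x * c, ?_⟩
    rw [pow_succ, hc]
    push_cast
    ring

private theorem cast_dvd {b m : ℕ} (hb : 1 ≤ b) : m ∣ b - 1 ↔ (m : ℤ) ∣ (b : ℤ) - 1 := by
  rw [← Int.natCast_dvd_natCast, Nat.cast_sub hb, Nat.cast_one]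

private theorem gen {q T a : ℕ} (hq : q.Prime) (h2 : 2 < q) (ha : Nat.Coprime a q) (ha1 : 1 ≤ a)
    (hT : ¬ q ∣ T) (hw : ¬ q ^ 2 ∣ a ^ (q - 1) - 1) : ¬ q ^ 2 ∣ (a ^ 2) ^ T - 1 := by
  intro h
  apply hw
  rw [cast_dvd (Nat.one_le_pow _ _ ha1)]
  rw [cast_dvd (Nat.one_le_pow _ _ (Nat.one_le_pow _ _ ha1))] at h
  push_cast at h ⊢
  obtain ⟨x, hx⟩ : ∃ x : ℤ, x = (a : ℤ) ^ (q - 1) - 1 := ⟨_, rfl⟩
  have hv : (a : ℤ) ^ (q - 1) = 1 + x := by rw [hx]; ring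
  rw [← hx]
  have hqx : (q : ℤ) ∣ x := by
    have hcop : IsCoprime (a : ℤ) (q : ℤ) := Nat.isCoprime_iff_coprime.2 ha
    have := Int.ModEq.pow_card_sub_one_eq_one hq hcop
    rw [hx]
    exact this.symm.dvd
  have h1 : (q : ℤ) ^ 2 ∣ (1 + x) ^ (2 * T) - 1 := by
    have e : (1 + x) ^ (2 * T) = (((a : ℤ) ^ 2) ^ T) ^ (q - 1) := by
      rw [← hv, ← pow_mul, ← pow_mul, ← pow_mul]
      congr 1
      ring
    rw [e]
    have h3 := sub_dvd_pow_sub_pow (((a : ℤ) ^ 2) ^ T) 1 (q - 1)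
    rw [one_pow] at h3
    exact h.trans h3
  obtain ⟨c, hc⟩ := bin2 x (2 * T)
  have hx2 : (q : ℤ) ^ 2 ∣ x ^ 2 := pow_dvd_pow_of_dvd hqx 2
  have h4 : (q : ℤ) ^ 2 ∣ ((2 * T : ℕ) : ℤ) * x := by
    have e : ((2 * T : ℕ) : ℤ) * x = ((1 + x) ^ (2 * T) - 1) - x ^ 2 * c := by
      rw [hc]
      ring
    rw [e]
    exact dvd_sub h1 (hx2.mul_right c)
  have h5 : IsCoprime ((q : ℤ) ^ 2) ((2 * T : ℕ) : ℤ) := by
    apply IsCoprime.pow_left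
    rw [Nat.isCoprime_iff_coprime, hq.coprime_iff_not_dvd]
    intro h6
    rcases hq.dvd_mul.1 h6 with h7 | h7
    · have := Nat.le_of_dvd (by norm_num) h7
      omega
    · exact hT h7
  exact h5.dvd_of_dvd_mul_left h4

theorem not_sq_dvd9 {q T : ℕ} (hq : q.Prime) (h3 : 3 < q) (hT : ¬ q ∣ T) (hw : ¬ q ^ 2 ∣ 3 ^ (q - 1) - 1) :
    ¬ q ^ 2 ∣ 9 ^ T - 1 := by
  have hc : Nat.Coprime 3 q := by
    rw [Nat.coprime_primes Nat.prime_three hq]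
    omega
  exact gen hq (by omega) hc (by norm_num) hT hw

theorem not_sq_dvd25 {q T : ℕ} (hq : q.Prime) (h5 : 5 < q) (hT : ¬ q ∣ T) (hw : ¬ q ^ 2 ∣ 5 ^ (q - 1) - 1) :
    ¬ q ^ 2 ∣ 25 ^ T - 1 := by
  have hc : Nat.Coprime 5 q := by
    rw [Nat.coprime_primes Nat.prime_five hq]
    omega
  exact gen hq (by omega) hc (by norm_num) hT hw

end H2T
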