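import Pool.Agent.H2T.Defs
import Pool.Agent.H2T.Hens
import Pool.Agent.H2T.Wief

/-!
# H2T/Tune: moving the exponents so that `v_q(z) = 2`

`kk a b c d = 4^a 9^b + 4^c 25^d` (unfold `kk`, `ring`). As `¬ DW q`, one of the two:
* `¬ q² ∣ 3^(q-1) - 1`: take `y = 0`, `u = 9^T` (`q ∣ u - 1`, `¬ q² ∣ u - 1` by `not_sq_dvd9`). Let `A = 4^a 9^b`, a unit modulo
  `q³` with an inverse `A'` (`q³ ∣ A A' - 1`), and `w = A' (n - 4^c 25^d - q²)`. As `q ∣ n - kk a b c d`, `w = 1 mod q`. By `pow_lift`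
  there is `x` with `u^x = w mod q³`, so `4^a 9^(b + T x) = A u^x = n - 4^c 25^d - q² mod q³`: the new `z` is `q² mod q³`.
* `¬ q² ∣ 5^(q-1) - 1`: the same with `x = 0`, `u = 25^T`, `A = 4^c 25^d`.
-/

namespace H2T

open Finset H2S

private theorem core {q : ℕ} (hq : q.Prime) (h2 : 2 < q) {u A B n : ℤ} (hA : IsCoprime A (q : ℤ))
    (hu : (q : ℤ) ∣ u - 1) (hu2 : ¬ ((q ^ 2 : ℕ) : ℤ) ∣ u - 1) (hz : (q : ℤ) ∣ n - (A + B)) :
    ∃ x : ℕ, ((q ^ 2 : ℕ) : ℤ) ∣ n - (A * u ^ x + B) ∧ ¬ ((q ^ 3 : ℕ) : ℤ) ∣ n - (A * u ^ x + B) := by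
  obtain ⟨e, i, hei⟩ := hA.pow_right (n := 3)
  obtain ⟨k, hk⟩ := hz
  obtain ⟨x, t, ht⟩ := pow_lift hq h2 (w := e * (n - B - q ^ 2)) hu hu2
    ⟨e * k - e * q - i * q ^ 2, by linear_combination e * hk + hei⟩
  push_cast at ht
  have key : n - (A * u ^ x + B) = (q : ℤ) ^ 2 + q ^ 3 * (i * (n - B - q ^ 2) - A * t) := by
    linear_combination (-A) * ht - (n - B - q ^ 2) * hei
  refine ⟨x, ?_, ?_⟩
  · rw [key]
    push_cast
    exact ⟨1 + q * (i * (n - B - q ^ 2) - A * t), by ring⟩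
  · rw [key]
    push_cast
    intro h
    have h3 : (q : ℤ) ^ 3 ∣ (q : ℤ) ^ 2 := by
      have := dvd_sub h (dvd_mul_right ((q : ℤ) ^ 3) (i * (n - B - q ^ 2) - A * t))
      rwa [add_sub_cancel_right] at this
    have hq0 : (0 : ℤ) < (q : ℤ) ^ 2 := by
      have := hq.pos
      positivity
    have h4 := Int.le_of_dvd hq0 h3
    have h5 : (q : ℤ) ^ 3 = (q : ℤ) ^ 2 * q := by ring
    have h6 : (2 : ℤ) < q := by exact_mod_cast h2
    nlinarith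

private theorem cop {q m : ℕ} (hq : q.Prime) (h5 : 5 < q) (hm : m = 2 ∨ m = 3 ∨ m = 5) :
    IsCoprime ((m : ℕ) : ℤ) (q : ℤ) := by
  rw [Nat.isCoprime_iff_coprime]
  apply Nat.Coprime.symm
  rw [hq.coprime_iff_not_dvd]
  intro h
  have := Nat.le_of_dvd (by omega) h
  omega

private theorem cast_sub {q m T k : ℕ} (hm : 0 < m) :
    ((q ^ k : ℕ) : ℤ) ∣ (m : ℤ) ^ T - 1 ↔ q ^ k ∣ m ^ T - 1 := by
  have h : ((m ^ T - 1 : ℕ) : ℤ) = (m : ℤ) ^ T - 1 := by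
    rw [Nat.cast_sub (Nat.one_le_iff_ne_zero.2 (pow_pos hm T).ne')]
    push_cast
    ring
  rw [← h, Int.natCast_dvd_natCast]

theorem tune {q : ℕ} (hq : q.Prime) (h5 : 5 < q) (hD : ¬ DW q) {T : ℕ} (hT : ¬ q ∣ T)
    (h9 : q ∣ 9 ^ T - 1) (h25 : q ∣ 25 ^ T - 1) (n : ℤ) (a b c d : ℕ) (hz : (q : ℤ) ∣ n - kk a b c d) :
    ∃ x y : ℕ, GoodQ q (n - kk a (b + T * x) c (d + T * y)) := by
  have hkk : ∀ a b c d : ℕ, ((kk a b c d : ℕ) : ℤ) = (4 ^ a * 9 ^ b) + (4 ^ c * 25 ^ d) := by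
    intro a b c d
    unfold kk
    push_cast
    rw [mul_pow, mul_pow, ← pow_mul, ← pow_mul, ← pow_mul, ← pow_mul, mul_comm a, mul_comm b,
      mul_comm c, mul_comm d, pow_mul, pow_mul, pow_mul, pow_mul]
    norm_num
  have c2 := cop hq h5 (m := 2) (by simp)
  have c3 := cop hq h5 (m := 3) (by simp)
  have c5 := cop hq h5 (m := 5) (by simp)
  have cA : IsCoprime ((4 : ℤ) ^ a * 9 ^ b) (q : ℤ) := by
    have e : (4 : ℤ) ^ a * 9 ^ b = ((2 : ℕ) : ℤ) ^ (2 * a) * ((3 : ℕ) : ℤ) ^ (2 * b) := by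
      rw [pow_mul, pow_mul]; norm_num
    rw [e]
    exact (c2.pow_left).mul_left c3.pow_left
  have cB : IsCoprime ((4 : ℤ) ^ c * 25 ^ d) (q : ℤ) := by
    have e : (4 : ℤ) ^ c * 25 ^ d = ((2 : ℕ) : ℤ) ^ (2 * c) * ((5 : ℕ) : ℤ) ^ (2 * d) := by
      rw [pow_mul, pow_mul]; norm_num
    rw [e]
    exact (c2.pow_left).mul_left c5.pow_left
  rw [hkk] at hz
  by_cases h3 : q ^ 2 ∣ 3 ^ (q - 1) - 1
  · have h5' : ¬ q ^ 2 ∣ 5 ^ (q - 1) - 1 := fun h => hD ⟨h3, h⟩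
    have hu2 : ¬ ((q ^ 2 : ℕ) : ℤ) ∣ (25 : ℤ) ^ T - 1 := by
      have := (cast_sub (q := q) (m := 25) (T := T) (k := 2) (by norm_num)).not.2
        (not_sq_dvd25 hq h5 hT h5')
      exact_mod_cast this
    have hu : (q : ℤ) ∣ (25 : ℤ) ^ T - 1 := by
      have := (cast_sub (q := q) (m := 25) (T := T) (k := 1) (by norm_num)).2 (by simpa using h25)
      simpa using this
    obtain ⟨y, h6, h7⟩ := core hq (by omega) (n := n) (B := 4 ^ a * 9 ^ b) cB hu hu2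
      (by rw [add_comm]; exact hz)
    refine ⟨0, y, Or.inr ⟨hD, ?_, ?_⟩⟩
    · rw [hkk, mul_zero, add_zero, pow_add, pow_mul, ← mul_assoc, add_comm (4 ^ a * 9 ^ b : ℤ)]
      exact h6
    · rw [hkk, mul_zero, add_zero, pow_add, pow_mul, ← mul_assoc, add_comm (4 ^ a * 9 ^ b : ℤ)]
      exact h7
  · have hu2 : ¬ ((q ^ 2 : ℕ) : ℤ) ∣ (9 : ℤ) ^ T - 1 := by
      have := (cast_sub (q := q) (m := 9) (T := T) (k := 2) (by norm_num)).not.2
        (not_sq_dvd9 hq (by omega) hT h3)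
      exact_mod_cast this
    have hu : (q : ℤ) ∣ (9 : ℤ) ^ T - 1 := by
      have := (cast_sub (q := q) (m := 9) (T := T) (k := 1) (by norm_num)).2 (by simpa using h9)
      simpa using this
    obtain ⟨x, h6, h7⟩ := core hq (by omega) (n := n) (B := 4 ^ c * 25 ^ d) cA hu hu2 hz
    refine ⟨x, 0, Or.inr ⟨hD, ?_, ?_⟩⟩
    · rw [hkk, mul_zero, add_zero, pow_add, pow_mul, ← mul_assoc]
      exact h6
    · rw [hkk, mul_zero, add_zero, pow_add, pow_mul, ← mul_assoc]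
      exact h7

end H2T
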