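import Pool.Agent.H2T.Shift2
import Pool.Agent.H2T.Tune

/-!
# H2T/LocSol: without doubly Wieferich primes everything is locally solvable

* `base_choice`: `b = 2`. The conditions at 2 and 3 only depend on `n` modulo `216` (`9^2 = 1 mod 8`, `9^2 = 0 mod 27`), and for every
  `n < 216` with `4 ∤ n` some `a < 5`, `c < 5`, `d < 9` works (a finite check, `decide +kernel`; verified).
* `loc_sol`: induction on `Q` with `Finset.induction_on_max`: `Q = insert q Q'`, all elements of `Q'` are smaller than `q`. Take `a b c d`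
  for `Q'` and `n`. If `q ∤ z` they also work for `Q`. If `q ∣ z`, put `T = Lper Q' · ((q-1)/2)`. Then `q ∤ T` (`q ∤ 9`; the `q' ∈ Q'` are
  primes `< q`, `0 < (q'-1)/2 < q`, `0 < (q-1)/2 < q`), `q ∣ 9^T - 1` and `q ∣ 25^T - 1` (`9^((q-1)/2) = 3^(q-1) = 1 mod q`), so `tune`
  gives `x, y`; by `good_shift` (`Lper Q' ∣ T`) the conditions for `Q'` remain valid (`b + T x ≥ 2`).
-/

namespace H2T

open Finset H2S

private theorem base_check : ∀ r : ℕ, r < 216 → ¬ 4 ∣ r → ∃ a : ℕ, a < 5 ∧ ∃ c : ℕ, c < 5 ∧ ∃ d : ℕ, d < 9 ∧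
    (((r : ℤ) - (kk a 2 c d : ℕ)) % 4 = 1 ∨ ((r : ℤ) - (kk a 2 c d : ℕ)) % 8 = 2) ∧
    (((r : ℤ) - (kk a 2 c d : ℕ)) % 3 ≠ 0 ∨ (((r : ℤ) - (kk a 2 c d : ℕ)) % 9 = 0 ∧ ((r : ℤ) - (kk a 2 c d : ℕ)) % 27 ≠ 0)) := by
  decide +kernel

theorem base_choice (n : ℕ) (h4 : ¬ 4 ∣ n) : ∃ a b c d : ℕ, 2 ≤ b ∧ GoodZ2 ∅ ((n : ℤ) - kk a b c d) := by
  obtain ⟨a, _, c, _, d, _, h1, h2⟩ := base_check (n % 216) (Nat.mod_lt _ (by norm_num)) (by omega)
  refine ⟨a, 2, c, d, le_rfl, ?_, ?_, ?_⟩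
  · have h3 : ((n : ℤ)) = 216 * ((n / 216 : ℕ) : ℤ) + ((n % 216 : ℕ) : ℤ) := by
      have := Nat.div_add_mod n 216
      exact_mod_cast this.symm
    rw [h3]
    generalize (kk a 2 c d : ℕ) = K at *
    omega
  · have h3 : ((n : ℤ)) = 216 * ((n / 216 : ℕ) : ℤ) + ((n % 216 : ℕ) : ℤ) := by
      have := Nat.div_add_mod n 216
      exact_mod_cast this.symm
    rw [h3]
    generalize (kk a 2 c d : ℕ) = K at *
    omega
  · intro q hq
    simp at hq

private theorem fermat_dvd {q x m : ℕ} (hq : q.Prime) (h2 : q % 2 = 1) (hx : ¬ q ∣ x) :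
    q ∣ (x ^ 2) ^ (m * ((q - 1) / 2)) - 1 := by
  have h1 : x ^ (q - 1) ≡ 1 [MOD q] := by
    have := Nat.ModEq.pow_totient ((Nat.Prime.coprime_iff_not_dvd hq).mpr hx).symm
    rwa [Nat.totient_prime hq] at this
  have h3 : (x ^ 2) ^ (m * ((q - 1) / 2)) = (x ^ (q - 1)) ^ m := by
    rw [← pow_mul, ← pow_mul]
    congr 1
    have h4 : 2 * ((q - 1) / 2) = q - 1 := by have := hq.two_le; omega
    calc 2 * (m * ((q - 1) / 2)) = (2 * ((q - 1) / 2)) * m := by ring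
      _ = (q - 1) * m := by rw [h4]
  rw [h3]
  have h5 : (x ^ (q - 1)) ^ m ≡ 1 [MOD q] := by
    have := h1.pow m
    rwa [one_pow] at this
  have hx0 : 0 < x := Nat.pos_of_ne_zero (fun h => hx (h ▸ dvd_zero q))
  exact (Nat.modEq_iff_dvd' (Nat.one_le_iff_ne_zero.mpr (pow_ne_zero _ (pow_ne_zero _ hx0.ne')))).mp h5.symm

private theorem not_dvd_T {Q : Finset ℕ} (hQ : ∀ q ∈ Q, q.Prime ∧ q % 4 = 3 ∧ 3 < q ∧ ¬ DW q) {q : ℕ}
    (hq : q.Prime) (h3 : 3 < q) (hlt : ∀ x ∈ Q, x < q) : ¬ q ∣ Lper Q * ((q - 1) / 2) := by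
  intro h
  rcases (Nat.Prime.dvd_mul hq).mp h with h | h
  · unfold Lper at h
    rcases (Nat.Prime.dvd_mul hq).mp h with h | h
    · have h1 : q ∣ 3 ^ 2 := by norm_num; exact h
      have h2 := (Nat.prime_dvd_prime_iff_eq hq Nat.prime_three).mp (hq.dvd_of_dvd_pow h1)
      omega
    · obtain ⟨p, hp, hd⟩ := (Prime.dvd_finsetProd_iff hq.prime _).mp h
      have hpq := hlt p hp
      have hp1 := hQ p hp
      rcases (Nat.Prime.dvd_mul hq).mp hd with h | h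
      · have := Nat.le_of_dvd (by omega) h
        omega
      · have h1 := Nat.le_of_dvd (by omega) (hq.dvd_of_dvd_pow h)
        omega
  · have := Nat.le_of_dvd (by omega) h
    omega

theorem loc_sol (Q : Finset ℕ) (hQ : ∀ q ∈ Q, q.Prime ∧ q % 4 = 3 ∧ 3 < q ∧ ¬ DW q) (n : ℕ) (h4 : ¬ 4 ∣ n) :
    ∃ a b c d : ℕ, 2 ≤ b ∧ GoodZ2 Q ((n : ℤ) - kk a b c d) := by
  induction Q using Finset.induction_on_max with
  | empty => exact base_choice n h4
  | insert q Q hlt ih =>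
    have hQ' : ∀ x ∈ Q, x.Prime ∧ x % 4 = 3 ∧ 3 < x ∧ ¬ DW x := fun x hx => hQ x (mem_insert_of_mem hx)
    obtain ⟨a, b, c, d, hb, hg⟩ := ih hQ'
    obtain ⟨hq, hq4, hq3, hD⟩ := hQ q (mem_insert_self _ _)
    by_cases hz : (q : ℤ) ∣ (n : ℤ) - kk a b c d
    · have h5 : 5 < q := by
        rcases Nat.lt_or_ge 5 q with h | h
        · exact h
        · have : q = 4 ∨ q = 5 := by omega
          rcases this with rfl | rfl <;> omega
      have hn3 : ¬ q ∣ 3 := fun h => by have := Nat.le_of_dvd (by norm_num) h; omega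
      have hn5 : ¬ q ∣ 5 := fun h => by have := Nat.le_of_dvd (by norm_num) h; omega
      have h9 : q ∣ 9 ^ (Lper Q * ((q - 1) / 2)) - 1 := by
        have := fermat_dvd (m := Lper Q) hq (by omega) hn3
        norm_num at this
        exact this
      have h25 : q ∣ 25 ^ (Lper Q * ((q - 1) / 2)) - 1 := by
        have := fermat_dvd (m := Lper Q) hq (by omega) hn5
        norm_num at this
        exact this
      obtain ⟨x, y, hxy⟩ := tune hq h5 hD (not_dvd_T hQ' hq hq3 hlt) h9 h25 (n : ℤ) a b c d hz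
      have hs := (good_shift Q (fun x hx => ⟨(hQ' x hx).1, (hQ' x hx).2.1, (hQ' x hx).2.2.1⟩)
        (L := Lper Q * ((q - 1) / 2)) (Dvd.intro _ rfl) (n := (n : ℤ)) (a := a) (b := b) (c := c) (d := d) hb x y).mpr hg
      refine ⟨a, b + Lper Q * ((q - 1) / 2) * x, c, d + Lper Q * ((q - 1) / 2) * y, by omega, hs.1, hs.2.1, ?_⟩
      intro p hp
      rcases mem_insert.1 hp with rfl | hp
      · exact hxy
      · exact hs.2.2 p hp
    · refine ⟨a, b, c, d, hb, hg.1, hg.2.1, ?_⟩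
      intro p hp
      rcases mem_insert.1 hp with rfl | hp
      · exact Or.inl hz
      · exact hg.2.2 p hp

end H2T
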