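import Pool.Agent.H2T.LocGlob2
import Pool.Agent.H2T.LocSol

/-!
# H2T/DensP: the upper density of the non-representable integers is at most the sum of `1/q` over the doubly Wieferich primes

Let `Q` be given by `local_global2` for `ε/8`, `P` = the `q ∈ Q` with `DW q`, `Q' = Q \ P`, `M = 216 ∏_{q ∈ Q'} q³`; the `q ∈ P` do not divide `M`.
For every residue `s < M` with `4 ∤ s` choose by `loc_sol Q'` (with `n = s`) `a b c d`, `b ≥ 2`, and put `f s = kk a b c d`. If `n % M = s` (so `4 ∤ n`) then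
`GoodZ2 Q' (n - f s)` by `good_congr2` (`8, 27, q³ ∣ M ∣ n - s`). If moreover no `q ∈ P` divides `n - f s` then `GoodZ2 Q (n - f s)` (`GoodQ q` holds for `q ∈ P`).
So a non-representable `n < N` with `4 ∤ n` is counted in `local_global2` (at most `(ε/8) N`) or `q ∣ n - f (n % M)` for some `q ∈ P`. For fixed `q ∈ P` the `n` with
`4 ∤ n`, `q ∣ n - f (n % M)` form `(3/4) M` classes modulo `M q` (one for each `s < M`, `4 ∤ s`), so at most `(3/4) M (N/(M q) + 1)` of them are `< N`. So with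
`S = ∑_{q ∈ P} 1/q` and `g N = #{n < N : ¬ Rep n}`: `g N ≤ (3/4 · S + ε/4) N + g (N/4 + 1)` for `N ≥ N0` (if `4 ∣ n` is not representable then `n/4` is not, see
`rep_four`, `bad_four` in `Pool/Agent/H2S/Dens.lean`). By strong induction `g N ≤ (S + ε/2) N + C0` for all `N`, `C0 = N0 + 100 + ...`:
`(3/4 S + ε/4) N + (S + ε/2)(N/4 + 1) + C0 ≤ (S + ε/2) N + C0` as soon as `S + ε/2 ≤ (ε/8) N`. So `g N ≤ (S + ε) N` for large `N`.
-/

namespace H2T

open Finset Filter H2S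

/-- `4 m` is representable if `m` is -/
private theorem rep_four {m : ℕ} (h : Rep m) : Rep (4 * m) := by
  obtain ⟨a, b, c, d, x, y, h⟩ := h
  refine ⟨a + 1, b, c + 1, d, 2 * x, 2 * y, ?_⟩
  rw [h]
  ring

open scoped Classical in
private theorem bad_four (N : ℕ) : ((range N).filter (fun n => 4 ∣ n ∧ ¬ Rep n)).card ≤
    ((range (N / 4 + 1)).filter (fun n => ¬ Rep n)).card := by
  apply card_le_card_of_injOn (fun n => n / 4)
  · intro n hn
    have hn' := mem_filter.1 (mem_coe.1 hn)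
    rw [mem_range] at hn'
    obtain ⟨h1, ⟨m, rfl⟩, h3⟩ := hn'
    apply mem_coe.2
    rw [mem_filter, mem_range]
    have h4 : 4 * m / 4 = m := by omega
    refine ⟨?_, ?_⟩
    · show 4 * m / 4 < N / 4 + 1
      omega
    · show ¬ Rep (4 * m / 4)
      rw [h4]
      exact fun h => h3 (rep_four h)
  · intro n hn m hm h
    have hn' := mem_filter.1 (mem_coe.1 hn)
    have hm' := mem_filter.1 (mem_coe.1 hm)
    obtain ⟨a, ha⟩ := hn'.2.1
    obtain ⟨b, hb⟩ := hm'.2.1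
    have h' : n / 4 = m / 4 := h
    omega

/-- the number of residues modulo `4 m` which are not divisible by 4 -/
private theorem card_res (m : ℕ) : ((range (4 * m)).filter (fun s => ¬ 4 ∣ s)).card ≤ 3 * m := by
  have h1 : ((range (4 * m)).filter (fun s => 4 ∣ s)).card +
      ((range (4 * m)).filter (fun s => ¬ 4 ∣ s)).card = 4 * m := by
    rw [card_filter_add_card_filter_not, card_range]
  have h2 : m ≤ ((range (4 * m)).filter (fun s => 4 ∣ s)).card := by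
    have h3 : ((range m).image (fun j => 4 * j)).card = m := by
      rw [card_image_of_injective _ (fun a b h => by
        have h' : 4 * a = 4 * b := h
        omega), card_range]
    rw [← h3]
    apply card_le_card
    intro n hn
    rw [mem_image] at hn
    obtain ⟨j, hj, rfl⟩ := hn
    rw [mem_range] at hj
    rw [mem_filter, mem_range]
    rw [h3]
    exact ⟨by omega, Dvd.intro _ rfl⟩
  omega

/-- one class modulo `M q` -/
private theorem card_class {M q : ℕ} (hM : 0 < M) (hq : 0 < q) (hco : Nat.Coprime M q) (s : ℕ)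
    (k : ℤ) (N : ℕ) :
    ((range N).filter (fun n : ℕ => n % M = s ∧ (q : ℤ) ∣ (n : ℤ) - k)).card ≤
      N / (M * q) + 1 := by
  have h0 : 0 < M * q := Nat.mul_pos hM hq
  rw [← card_range (N / (M * q) + 1)]
  apply card_le_card_of_injOn (fun n => n / (M * q))
  · intro n hn
    have hn' := mem_filter.1 (mem_coe.1 hn)
    rw [mem_range] at hn'
    apply mem_coe.2
    rw [mem_range]
    have : n / (M * q) ≤ N / (M * q) := Nat.div_le_div_right hn'.1.le
    exact Nat.lt_succ_of_le this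
  · intro n hn m hm h
    have hn' := (mem_filter.1 (mem_coe.1 hn)).2
    have hm' := (mem_filter.1 (mem_coe.1 hm)).2
    have h' : n / (M * q) = m / (M * q) := h
    have h1 : n ≡ m [MOD M] := by
      unfold Nat.ModEq
      rw [hn'.1, hm'.1]
    have h2 : n ≡ m [MOD q] := by
      rw [← Int.natCast_modEq_iff]
      have h3 : (q : ℤ) ∣ (m : ℤ) - n := by
        have := dvd_sub hm'.2 hn'.2
        have e : (m : ℤ) - k - ((n : ℤ) - k) = (m : ℤ) - n := by ring
        rwa [e] at this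
      exact Int.modEq_iff_dvd.2 h3
    have h3 : n ≡ m [MOD M * q] := (Nat.modEq_and_modEq_iff_modEq_mul hco).1 ⟨h1, h2⟩
    have h4 : n % (M * q) = m % (M * q) := h3
    rw [← Nat.div_add_mod n (M * q), ← Nat.div_add_mod m (M * q), h', h4]

open scoped Classical in
private theorem count_q {m q : ℕ} (hm : 0 < m) (hq : 0 < q) (hco : Nat.Coprime (4 * m) q)
    (f : ℕ → ℤ) (N : ℕ) :
    (((range N).filter (fun n : ℕ => ¬ 4 ∣ n ∧ (q : ℤ) ∣ (n : ℤ) - f (n % (4 * m)))).card : ℝ) ≤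
      3 / 4 * (1 / q) * N + 3 * m := by
  have hM : 0 < 4 * m := by omega
  have hsub : (range N).filter (fun n : ℕ => ¬ 4 ∣ n ∧ (q : ℤ) ∣ (n : ℤ) - f (n % (4 * m))) ⊆
      ((range (4 * m)).filter (fun s => ¬ 4 ∣ s)).biUnion (fun s =>
        (range N).filter (fun n : ℕ => n % (4 * m) = s ∧ (q : ℤ) ∣ (n : ℤ) - f s)) := by
    intro n hn
    rw [mem_filter] at hn
    rw [mem_biUnion]
    refine ⟨n % (4 * m), ?_, ?_⟩
    · rw [mem_filter, mem_range]
      refine ⟨Nat.mod_lt _ hM, ?_⟩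
      intro h
      apply hn.2.1
      have h1 : 4 ∣ 4 * m * (n / (4 * m)) := Dvd.dvd.mul_right (Dvd.intro _ rfl) _
      have h2 := dvd_add h1 h
      rwa [Nat.div_add_mod] at h2
    · rw [mem_filter]
      exact ⟨hn.1, rfl, hn.2.2⟩
  have h1 := card_le_card hsub
  have h2 := card_biUnion_le (s := (range (4 * m)).filter (fun s => ¬ 4 ∣ s)) (t := fun s =>
        (range N).filter (fun n : ℕ => n % (4 * m) = s ∧ (q : ℤ) ∣ (n : ℤ) - f s))
  have h3 : ∑ s ∈ (range (4 * m)).filter (fun s => ¬ 4 ∣ s),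
      ((range N).filter (fun n : ℕ => n % (4 * m) = s ∧ (q : ℤ) ∣ (n : ℤ) - f s)).card ≤
      3 * m * (N / (4 * m * q) + 1) := by
    calc _ ≤ ∑ s ∈ (range (4 * m)).filter (fun s => ¬ 4 ∣ s), (N / (4 * m * q) + 1) :=
          sum_le_sum fun s _ => card_class hM hq hco s (f s) N
      _ = ((range (4 * m)).filter (fun s => ¬ 4 ∣ s)).card * (N / (4 * m * q) + 1) := by
          rw [sum_const, smul_eq_mul]
      _ ≤ 3 * m * (N / (4 * m * q) + 1) := Nat.mul_le_mul_right _ (card_res m)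
  have h4 : (((range N).filter (fun n : ℕ => ¬ 4 ∣ n ∧
      (q : ℤ) ∣ (n : ℤ) - f (n % (4 * m)))).card : ℝ) ≤
      ((3 * m * (N / (4 * m * q) + 1) : ℕ) : ℝ) := by
    exact_mod_cast h1.trans (h2.trans h3)
  refine h4.trans ?_
  have h5 : ((N / (4 * m * q) : ℕ) : ℝ) ≤ (N : ℝ) / (4 * m * q) := by
    have := @Nat.cast_div_le ℝ _ _ _ N (4 * m * q)
    push_cast at this
    exact this
  have hm' : (0 : ℝ) < m := by exact_mod_cast hm
  have hq' : (0 : ℝ) < q := by exact_mod_cast hq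
  push_cast
  calc (3 : ℝ) * m * (((N / (4 * m * q) : ℕ) : ℝ) + 1) ≤
        3 * m * ((N : ℝ) / (4 * m * q) + 1) := by
        apply mul_le_mul_of_nonneg_left _ (by positivity)
        linarith
    _ = 3 / 4 * (1 / q) * N + 3 * m := by
        field_simp

open scoped Classical in
theorem density_P {ε : ℝ} (hε : 0 < ε) : ∃ P : Finset ℕ, (∀ q ∈ P, q.Prime ∧ q % 4 = 3 ∧ 3 < q ∧ DW q) ∧
    ∀ᶠ N : ℕ in atTop, (((range N).filter (fun n => ¬ Rep n)).card : ℝ) ≤ (∑ q ∈ P, (1 : ℝ) / q + ε) * N := by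
  obtain ⟨Q, hQ, hlg⟩ := local_global2 (ε := ε / 8) (by positivity)
  set P : Finset ℕ := Q.filter (fun q => DW q) with hP
  set Q' : Finset ℕ := Q.filter (fun q => ¬ DW q) with hQ'
  have hP1 : ∀ q ∈ P, q.Prime ∧ q % 4 = 3 ∧ 3 < q ∧ DW q := by
    intro q hq
    rw [hP, mem_filter] at hq
    exact ⟨(hQ q hq.1).1, (hQ q hq.1).2.1, (hQ q hq.1).2.2, hq.2⟩
  have hQ1 : ∀ q ∈ Q', q.Prime ∧ q % 4 = 3 ∧ 3 < q ∧ ¬ DW q := by
    intro q hq
    rw [hQ', mem_filter] at hq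
    exact ⟨(hQ q hq.1).1, (hQ q hq.1).2.1, (hQ q hq.1).2.2, hq.2⟩
  refine ⟨P, hP1, ?_⟩
  set m : ℕ := 54 * ∏ q ∈ Q', q ^ 3 with hm
  have hprod : 0 < ∏ q ∈ Q', q ^ 3 := prod_pos fun q hq => pow_pos (hQ1 q hq).1.pos _
  have hm0 : 0 < m := by
    rw [hm]
    exact Nat.mul_pos (by norm_num) hprod
  have hM216 : (216 : ℕ) ∣ 4 * m := by
    rw [hm]
    exact ⟨∏ q ∈ Q', q ^ 3, by ring⟩
  have hMq : ∀ q ∈ Q', q ^ 3 ∣ 4 * m := by
    intro q hq
    rw [hm]
    have h1 : q ^ 3 ∣ ∏ q ∈ Q', q ^ 3 := dvd_prod_of_mem (fun q => q ^ 3) hq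
    exact (h1.mul_left 54).mul_left 4
  have hco : ∀ q ∈ P, Nat.Coprime (4 * m) q := by
    intro q hq
    obtain ⟨h1, h2, h3, h4⟩ := hP1 q hq
    rw [Nat.coprime_comm, Nat.Prime.coprime_iff_not_dvd h1]
    intro h
    have h5 : 4 * m = 216 * ∏ q ∈ Q', q ^ 3 := by rw [hm]; ring
    rw [h5] at h
    rcases (Nat.Prime.dvd_mul h1).1 h with h | h
    · have h6 : (216 : ℕ) = 2 ^ 3 * 3 ^ 3 := by norm_num
      rw [h6] at h
      rcases (Nat.Prime.dvd_mul h1).1 h with h | h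
      · have := (Nat.prime_dvd_prime_iff_eq h1 Nat.prime_two).1 (h1.dvd_of_dvd_pow h)
        omega
      · have := (Nat.prime_dvd_prime_iff_eq h1 Nat.prime_three).1 (h1.dvd_of_dvd_pow h)
        omega
    · obtain ⟨p, hp, hd⟩ := (Prime.dvd_finsetProd_iff h1.prime _).1 h
      have h7 := (Nat.prime_dvd_prime_iff_eq h1 (hQ1 p hp).1).1 (h1.dvd_of_dvd_pow hd)
      exact (hQ1 p hp).2.2.2 (h7 ▸ h4)
  have hch : ∀ s : ℕ, ∃ v : ℕ × ℕ × ℕ × ℕ, ¬ 4 ∣ s →
      2 ≤ v.2.1 ∧ GoodZ2 Q' ((s : ℤ) - kk v.1 v.2.1 v.2.2.1 v.2.2.2) := by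
    intro s
    by_cases h4 : 4 ∣ s
    · exact ⟨(0, 0, 0, 0), fun h => absurd h4 h⟩
    · obtain ⟨a, b, c, d, h1, h2⟩ := loc_sol Q' hQ1 s h4
      exact ⟨(a, b, c, d), fun _ => ⟨h1, h2⟩⟩
  choose v hv using hch
  set f : ℕ → ℤ := fun s => ((kk (v s).1 (v s).2.1 (v s).2.2.1 (v s).2.2.2 : ℕ) : ℤ) with hf
  have hgood : ∀ n : ℕ, ¬ 4 ∣ n → (∀ q ∈ P, ¬ (q : ℤ) ∣ (n : ℤ) - f (n % (4 * m))) →
      ∃ a b c d : ℕ, 2 ≤ b ∧ GoodZ2 Q ((n : ℤ) - kk a b c d) := by
    intro n h4 hnP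
    have hs : ¬ 4 ∣ n % (4 * m) := by
      intro h
      apply h4
      have h1 : 4 ∣ 4 * m * (n / (4 * m)) := Dvd.dvd.mul_right (Dvd.intro _ rfl) _
      have h2 := dvd_add h1 h
      rwa [Nat.div_add_mod] at h2
    obtain ⟨h1, h2⟩ := hv _ hs
    refine ⟨(v (n % (4 * m))).1, (v (n % (4 * m))).2.1, (v (n % (4 * m))).2.2.1,
      (v (n % (4 * m))).2.2.2, h1, ?_⟩
    have hdiff : ((4 * m : ℕ) : ℤ) ∣ ((n : ℤ) - f (n % (4 * m))) -
        (((n % (4 * m) : ℕ) : ℤ) - f (n % (4 * m))) := by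
      have e : ((n : ℤ) - f (n % (4 * m))) - (((n % (4 * m) : ℕ) : ℤ) - f (n % (4 * m))) =
          ((4 * m : ℕ) : ℤ) * ((n / (4 * m) : ℕ) : ℤ) := by
        have h3 : ((4 * m : ℕ) : ℤ) * ((n / (4 * m) : ℕ) : ℤ) + ((n % (4 * m) : ℕ) : ℤ) = n := by
          exact_mod_cast Nat.div_add_mod n (4 * m)
        linarith
      rw [e]
      exact Dvd.intro _ rfl
    have h216 : ((216 : ℕ) : ℤ) ∣ ((4 * m : ℕ) : ℤ) := Int.natCast_dvd_natCast.2 hM216
    have h3 : GoodZ2 Q' ((n : ℤ) - f (n % (4 * m))) := by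
      refine (good_congr2 Q' (z := (n : ℤ) - f (n % (4 * m)))
        (w := ((n % (4 * m) : ℕ) : ℤ) - f (n % (4 * m))) ?_ ?_ ?_).2 h2
      · exact (Dvd.dvd.trans ⟨27, by norm_num⟩ h216).trans hdiff
      · exact (Dvd.dvd.trans ⟨8, by norm_num⟩ h216).trans hdiff
      · intro q hq
        exact (Int.natCast_dvd_natCast.2 (hMq q hq)).trans hdiff
    refine ⟨h3.1, h3.2.1, fun q hq => ?_⟩
    by_cases hD : DW q
    · left
      exact hnP q (mem_filter.2 ⟨hq, hD⟩)
    · exact h3.2.2 q (mem_filter.2 ⟨hq, hD⟩)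
  set S : ℝ := ∑ q ∈ P, (1 : ℝ) / q with hS
  have hS0 : 0 ≤ S := sum_nonneg fun q _ => by positivity
  have hcount : ∀ N : ℕ, (((range N).filter (fun n : ℕ => ¬ 4 ∣ n ∧
      ∃ q ∈ P, (q : ℤ) ∣ (n : ℤ) - f (n % (4 * m)))).card : ℝ) ≤
      3 / 4 * S * N + P.card * (3 * m) := by
    intro N
    have hsub : (range N).filter (fun n : ℕ => ¬ 4 ∣ n ∧
        ∃ q ∈ P, (q : ℤ) ∣ (n : ℤ) - f (n % (4 * m))) ⊆
        P.biUnion (fun q => (range N).filter (fun n : ℕ => ¬ 4 ∣ n ∧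
          (q : ℤ) ∣ (n : ℤ) - f (n % (4 * m)))) := by
      intro n hn
      rw [mem_filter] at hn
      obtain ⟨h1, h2, q, hq, h3⟩ := hn
      rw [mem_biUnion]
      exact ⟨q, hq, mem_filter.2 ⟨h1, h2, h3⟩⟩
    have h1 := (card_le_card hsub).trans card_biUnion_le
    have h2 : (((range N).filter (fun n : ℕ => ¬ 4 ∣ n ∧
        ∃ q ∈ P, (q : ℤ) ∣ (n : ℤ) - f (n % (4 * m)))).card : ℝ) ≤
        ∑ q ∈ P, (((range N).filter (fun n : ℕ => ¬ 4 ∣ n ∧
          (q : ℤ) ∣ (n : ℤ) - f (n % (4 * m)))).card : ℝ) := by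
      exact_mod_cast h1
    refine h2.trans ?_
    calc ∑ q ∈ P, (((range N).filter (fun n : ℕ => ¬ 4 ∣ n ∧
          (q : ℤ) ∣ (n : ℤ) - f (n % (4 * m)))).card : ℝ) ≤
          ∑ q ∈ P, (3 / 4 * (1 / (q : ℝ)) * N + 3 * m) :=
          sum_le_sum fun q hq => count_q hm0 (hP1 q hq).1.pos (hco q hq) f N
      _ = 3 / 4 * S * N + P.card * (3 * m) := by
          rw [sum_add_distrib, sum_const, nsmul_eq_mul, ← sum_mul, ← mul_sum]
  have hlarge : ∀ᶠ N : ℕ in atTop, ((P.card : ℝ) * (3 * m)) / (ε / 8) ≤ N :=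
    tendsto_natCast_atTop_atTop.eventually (eventually_ge_atTop _)
  have hstep : ∀ᶠ N : ℕ in atTop, (((range N).filter (fun n => ¬ Rep n)).card : ℝ) ≤
      (3 / 4 * S + ε / 4) * N + (((range (N / 4 + 1)).filter (fun n => ¬ Rep n)).card : ℝ) := by
    filter_upwards [hlg, hlarge] with N h1 hl
    rw [div_le_iff₀ (by positivity)] at hl
    have hsub : (range N).filter (fun n => ¬ Rep n) ⊆
        ((range N).filter (fun n : ℕ => ¬ Rep n ∧
          ∃ a b c d : ℕ, 2 ≤ b ∧ GoodZ2 Q ((n : ℤ) - kk a b c d)) ∪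
        (range N).filter (fun n : ℕ => ¬ 4 ∣ n ∧
          ∃ q ∈ P, (q : ℤ) ∣ (n : ℤ) - f (n % (4 * m)))) ∪
        (range N).filter (fun n => 4 ∣ n ∧ ¬ Rep n) := by
      intro n hn
      rw [mem_filter] at hn
      rw [mem_union, mem_union, mem_filter, mem_filter, mem_filter]
      by_cases h4 : 4 ∣ n
      · exact Or.inr ⟨hn.1, h4, hn.2⟩
      · by_cases hq : ∃ q ∈ P, (q : ℤ) ∣ (n : ℤ) - f (n % (4 * m))
        · exact Or.inl (Or.inr ⟨hn.1, h4, hq⟩)
        · push Not at hq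
          exact Or.inl (Or.inl ⟨hn.1, hn.2, hgood n h4 hq⟩)
    have h3 := (card_le_card hsub).trans ((card_union_le _ _).trans
      (Nat.add_le_add_right (card_union_le _ _) _))
    have h4 := bad_four N
    have h5 : (((range N).filter (fun n => ¬ Rep n)).card : ℝ) ≤
        ((((range N).filter (fun n : ℕ => ¬ Rep n ∧
          ∃ a b c d : ℕ, 2 ≤ b ∧ GoodZ2 Q ((n : ℤ) - kk a b c d))).card : ℕ) : ℝ) +
        ((((range N).filter (fun n : ℕ => ¬ 4 ∣ n ∧
          ∃ q ∈ P, (q : ℤ) ∣ (n : ℤ) - f (n % (4 * m)))).card : ℕ) : ℝ) +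
        ((((range (N / 4 + 1)).filter (fun n => ¬ Rep n)).card : ℕ) : ℝ) := by
      exact_mod_cast h3.trans (Nat.add_le_add_left h4 _)
    have h6 := hcount N
    linarith
  obtain ⟨N0, hN0⟩ := eventually_atTop.1 hstep
  obtain ⟨K, hK⟩ := exists_nat_ge ((S + ε / 2) / (ε / 8))
  have hmain : ∀ N : ℕ, (((range N).filter (fun n => ¬ Rep n)).card : ℝ) ≤
      (S + ε / 2) * N + ((N0 : ℝ) + K + 100) := by
    intro N
    induction N using Nat.strong_induction_on with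
    | _ N ih =>
      by_cases hN : N < N0 + K + 100
      · have h1 : ((range N).filter (fun n => ¬ Rep n)).card ≤ N :=
          (card_filter_le _ _).trans (by rw [card_range])
        have h2 : (((range N).filter (fun n => ¬ Rep n)).card : ℝ) ≤ N := by exact_mod_cast h1
        have h3 : (N : ℝ) ≤ N0 + K + 100 := by exact_mod_cast hN.le
        have h5 : 0 ≤ (S + ε / 2) * (N : ℝ) := by positivity
        linarith
      · rw [not_lt] at hN
        have h1 := hN0 N (by omega)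
        have h2 := ih (N / 4 + 1) (by omega)
        have h3 : ((N / 4 + 1 : ℕ) : ℝ) ≤ (N : ℝ) / 4 + 1 := by
          push_cast
          have := @Nat.cast_div_le ℝ _ _ _ N 4
          push_cast at this
          linarith
        have h4 : (K : ℝ) ≤ N := by exact_mod_cast (by omega : K ≤ N)
        have h5 : (S + ε / 2) * ((N / 4 + 1 : ℕ) : ℝ) ≤ (S + ε / 2) * ((N : ℝ) / 4 + 1) :=
          mul_le_mul_of_nonneg_left h3 (by positivity)
        have h6 : S + ε / 2 ≤ ε / 8 * (N : ℝ) := by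
          have h7 := hK.trans h4
          rw [div_le_iff₀ (by positivity)] at h7
          linarith
        linarith
  have hfin : ∀ᶠ N : ℕ in atTop, ((N0 : ℝ) + K + 100) / (ε / 2) ≤ N :=
    tendsto_natCast_atTop_atTop.eventually (eventually_ge_atTop _)
  filter_upwards [hfin] with N hN
  have h1 := hmain N
  rw [div_le_iff₀ (by positivity)] at hN
  linarith

end H2T
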