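import Pool.Agent.H2T.Defs
import Pool.Agent.H2S.Split

/-!
# H2T/Split2: `Wd = WA WB` and the number of classes which are not nice

Adapt `Pool/Agent/H2S/Split.lean` (copy the proofs; `H2S.count_dvd` can be used as it is).
* `W_split2`: `primorial ℓ ^ Jp = ∏_{p ≤ ℓ} p^Jp`; split both products; all primes involved are distinct (`q ∈ Qset` are `> ℓ`), so `WA`, `WB` are coprime.
* `good_congrA`: `8 ∣ WA`, `27 ∣ WA` (`Jp ≥ 3`, `ℓ ≥ 5`), `5 ∣ WA`. A prime `q ∈ Q3 (WA ℓ Jp E)` is `≤ ℓ`, and then `q³ ∣ q^Jp ∣ WA` and `GoodQ q` depends on `z` modulo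
  `q³`; or it is in `Qset` with `DW q`, and then `GoodQ q z` just says `q ∤ z` and depends on `z` modulo `q`, `q ∣ WA`.
* `not_nice2`: by `H2S.count_dvd` the number of `r` with `p^Jp ∣ z(r)`, `z(r) = r - f (r % WA)`, is `W / p^Jp ≤ W / 5^Jp` for each of the at most `ℓ` primes
  `p ≤ ℓ`, `p % 4 = 1`, `p ≠ 5` (`p^Jp ∣ WB`); and `∑_r ∑_{q ∣ z(r)} q^(-1/2) = ∑_q (W/q) q^(-1/2)` over `q ∈ Qset`, `q ∣ WB`, `q > ℓ`, at most
  `W ∑_{m > ℓ} m^(-3/2) ≤ 2 W ℓ^(-1/2)` (e.g. `m^(-3/2) ≤ 2 ((m-1)^(-1/2) - m^(-1/2))`), so by Markov at most `2 W/(ξ √ℓ)` of the `r` have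
  `∑_{q ∣ z(r)} q^(-1/2) > ξ`.
-/

namespace H2T

open Finset H2S

/-- the part of `Wd` at the primes `= 1 mod 4` (not 5) up to `ℓ` and at the primes of `Qset` which are not (`3 mod 4` and doubly Wieferich) -/
def WB (ℓ Jp E : ℕ) : ℕ :=
  (∏ p ∈ (Nat.primesBelow (ℓ + 1)).filter (fun p => p % 4 = 1 ∧ p ≠ 5), p ^ Jp) *
    ∏ q ∈ (Qset ℓ E).filter (fun q => ¬ (q % 4 = 3 ∧ DW q)), q

/-- the other part of `Wd` -/
def WA (ℓ Jp E : ℕ) : ℕ :=
  (∏ p ∈ (Nat.primesBelow (ℓ + 1)).filter (fun p => ¬ (p % 4 = 1 ∧ p ≠ 5)), p ^ Jp) *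
    ∏ q ∈ (Qset ℓ E).filter (fun q => q % 4 = 3 ∧ DW q), q

theorem W_split2 (ℓ Jp E : ℕ) (hℓ : 5 ≤ ℓ) :
    Wd ℓ Jp E = WA ℓ Jp E * WB ℓ Jp E ∧ Nat.Coprime (WA ℓ Jp E) (WB ℓ Jp E) := by
  have hQp : ∀ q ∈ Qset ℓ E, q.Prime ∧ ℓ < q := by
    intro q hq
    unfold Qset at hq
    rw [mem_filter, mem_inter] at hq
    exact ⟨Nat.prime_of_mem_primeFactors hq.1.1, hq.2⟩
  have hPp : ∀ p ∈ Nat.primesBelow (ℓ + 1), p.Prime ∧ p ≤ ℓ := by
    intro p hp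
    rw [Nat.mem_primesBelow] at hp
    exact ⟨hp.2, by omega⟩
  constructor
  · have h1 : (primorial ℓ) ^ Jp = ∏ p ∈ Nat.primesBelow (ℓ + 1), p ^ Jp := by
      rw [prod_pow]
      rfl
    unfold Wd WA WB
    rw [h1, ← prod_filter_mul_prod_filter_not (Nat.primesBelow (ℓ + 1))
      (fun p => p % 4 = 1 ∧ p ≠ 5) (fun p => p ^ Jp),
      ← prod_filter_mul_prod_filter_not (Qset ℓ E) (fun q => q % 4 = 3 ∧ DW q) (fun q => q)]
    ring
  · unfold WA WB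
    refine Nat.Coprime.mul_left (Nat.Coprime.mul_right ?_ ?_) (Nat.Coprime.mul_right ?_ ?_)
    · refine Nat.Coprime.prod_left fun p hp => Nat.Coprime.prod_right fun q hq => ?_
      rw [mem_filter] at hp hq
      refine Nat.Coprime.pow _ _ ((Nat.coprime_primes (hPp p hp.1).1 (hPp q hq.1).1).2 ?_)
      rintro rfl
      exact hp.2 hq.2
    · refine Nat.Coprime.prod_left fun p hp => Nat.Coprime.prod_right fun q hq => ?_
      rw [mem_filter] at hp hq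
      refine Nat.Coprime.pow_left _ ((Nat.coprime_primes (hPp p hp.1).1 (hQp q hq.1).1).2 ?_)
      have := (hPp p hp.1).2
      have := (hQp q hq.1).2
      omega
    · refine Nat.Coprime.prod_left fun p hp => Nat.Coprime.prod_right fun q hq => ?_
      rw [mem_filter] at hp hq
      refine Nat.Coprime.pow_right _ ((Nat.coprime_primes (hQp p hp.1).1 (hPp q hq.1).1).2 ?_)
      have := (hQp p hp.1).2
      have := (hPp q hq.1).2
      omega
    · refine Nat.Coprime.prod_left fun p hp => Nat.Coprime.prod_right fun q hq => ?_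
      rw [mem_filter] at hp hq
      refine (Nat.coprime_primes (hQp p hp.1).1 (hQp q hq.1).1).2 ?_
      rintro rfl
      exact hq.2 hp.2

private theorem pow_dvd_WA {ℓ Jp E p : ℕ} (hp : p.Prime) (hpl : p ≤ ℓ)
    (h : ¬ (p % 4 = 1 ∧ p ≠ 5)) : p ^ Jp ∣ WA ℓ Jp E := by
  unfold WA
  refine Dvd.dvd.mul_right ?_ _
  refine dvd_prod_of_mem (fun p => p ^ Jp) ?_
  rw [mem_filter, Nat.mem_primesBelow]
  exact ⟨⟨by omega, hp⟩, h⟩

private theorem Q3_WA {ℓ Jp E q : ℕ} (h : q ∈ Q3 (WA ℓ Jp E)) :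
    q.Prime ∧ q % 4 = 3 ∧ q ∣ WA ℓ Jp E ∧ (q ≤ ℓ ∨ DW q) := by
  unfold Q3 at h
  rw [mem_filter] at h
  obtain ⟨h1, h2, h3⟩ := h
  have hq := Nat.prime_of_mem_primeFactors h1
  have hd := Nat.dvd_of_mem_primeFactors h1
  refine ⟨hq, h2, hd, ?_⟩
  unfold WA at hd
  rcases (Nat.Prime.dvd_mul hq).1 hd with hd | hd
  · left
    rw [Prime.dvd_finset_prod_iff hq.prime] at hd
    obtain ⟨p, hp, hqp⟩ := hd
    rw [mem_filter, Nat.mem_primesBelow] at hp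
    have h4 := (Nat.prime_dvd_prime_iff_eq hq hp.1.2).1 (hq.dvd_of_dvd_pow hqp)
    rw [h4]
    omega
  · right
    rw [Prime.dvd_finset_prod_iff hq.prime] at hd
    obtain ⟨p, hp, hqp⟩ := hd
    rw [mem_filter] at hp
    have hpp : p.Prime := by
      have := hp.1
      unfold Qset at this
      rw [mem_filter, mem_inter] at this
      exact Nat.prime_of_mem_primeFactors this.1.1
    have h4 := (Nat.prime_dvd_prime_iff_eq hq hpp).1 hqp
    rw [h4]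
    exact hp.2.2

theorem good_congrA {ℓ Jp E : ℕ} (hℓ : 5 ≤ ℓ) (hJp : 3 ≤ Jp) {z z' : ℤ}
    (h : ((WA ℓ Jp E : ℕ) : ℤ) ∣ z - z') :
    (GoodZ2 (Q3 (WA ℓ Jp E)) z ↔ GoodZ2 (Q3 (WA ℓ Jp E)) z') ∧ ((5 : ℤ) ∣ z ↔ (5 : ℤ) ∣ z') := by
  have h8 : (8 : ℤ) ∣ z - z' := by
    refine dvd_trans ?_ h
    have h1 : (8 : ℕ) ∣ WA ℓ Jp E := by
      refine dvd_trans ?_ (pow_dvd_WA Nat.prime_two (by omega) (by omega))
      have : (8 : ℕ) = 2 ^ 3 := by norm_num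
      rw [this]
      exact pow_dvd_pow _ hJp
    exact_mod_cast h1
  have h27 : (27 : ℤ) ∣ z - z' := by
    refine dvd_trans ?_ h
    have h1 : (27 : ℕ) ∣ WA ℓ Jp E := by
      refine dvd_trans ?_ (pow_dvd_WA Nat.prime_three (by omega) (by omega))
      have : (27 : ℕ) = 3 ^ 3 := by norm_num
      rw [this]
      exact pow_dvd_pow _ hJp
    exact_mod_cast h1
  have h5 : (5 : ℤ) ∣ z - z' := by
    refine dvd_trans ?_ h
    have h1 : (5 : ℕ) ∣ WA ℓ Jp E := by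
      refine dvd_trans ?_ (pow_dvd_WA Nat.prime_five (by omega) (by omega))
      exact dvd_pow_self _ (by omega)
    exact_mod_cast h1
  have hq : ∀ q ∈ Q3 (WA ℓ Jp E), (GoodQ q z ↔ GoodQ q z') := by
    intro q hq
    obtain ⟨hqp, hq4, hqd, hor⟩ := Q3_WA hq
    have h1 : (q : ℤ) ∣ z - z' := by
      refine dvd_trans ?_ h
      exact_mod_cast hqd
    have e1 : (q : ℤ) ∣ z ↔ (q : ℤ) ∣ z' := dvd_iff_dvd_of_dvd_sub h1
    unfold GoodQ
    rcases hor with hle | hDW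
    · have h3 : ((q ^ 3 : ℕ) : ℤ) ∣ z - z' := by
        refine dvd_trans ?_ h
        have h4 : q ^ 3 ∣ WA ℓ Jp E :=
          (pow_dvd_pow q hJp).trans (pow_dvd_WA hqp hle (by omega))
        exact_mod_cast h4
      have h2 : ((q ^ 2 : ℕ) : ℤ) ∣ z - z' := by
        refine dvd_trans ?_ h3
        have h4 : q ^ 2 ∣ q ^ 3 := pow_dvd_pow q (by norm_num)
        exact_mod_cast h4
      rw [e1, dvd_iff_dvd_of_dvd_sub h2, dvd_iff_dvd_of_dvd_sub h3]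
    · have hn : ∀ P : Prop, ¬ (¬ DW q ∧ P) := fun P hP => hP.1 hDW
      constructor
      · rintro (h2 | h2)
        · exact Or.inl (fun h3 => h2 (e1.2 h3))
        · exact absurd h2 (hn _)
      · rintro (h2 | h2)
        · exact Or.inl (fun h3 => h2 (e1.1 h3))
        · exact absurd h2 (hn _)
  refine ⟨?_, by omega⟩
  unfold GoodZ2
  have e1 : (z % 4 = 1 ∨ z % 8 = 2) ↔ (z' % 4 = 1 ∨ z' % 8 = 2) := by omega
  have e2 : (z % 3 ≠ 0 ∨ (z % 9 = 0 ∧ z % 27 ≠ 0)) ↔ (z' % 3 ≠ 0 ∨ (z' % 9 = 0 ∧ z' % 27 ≠ 0)) := by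
    omega
  have e3 : (∀ q ∈ Q3 (WA ℓ Jp E), GoodQ q z) ↔ (∀ q ∈ Q3 (WA ℓ Jp E), GoodQ q z') :=
    forall₂_congr fun q hq' => hq q hq'
  rw [e1, e2, e3]

private theorem step_le (m : ℕ) (hm : 1 ≤ m) :
    1 / Real.sqrt ((m + 1 : ℕ) : ℝ) * (1 / ((m + 1 : ℕ) : ℝ)) ≤
      2 / Real.sqrt m - 2 / Real.sqrt ((m + 1 : ℕ) : ℝ) := by
  have hm0 : (0 : ℝ) < m := by exact_mod_cast hm
  set a := Real.sqrt (m : ℝ) with ha
  set b := Real.sqrt ((m + 1 : ℕ) : ℝ) with hb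
  have ha0 : 0 < a := Real.sqrt_pos.2 hm0
  have hb0 : 0 < b := Real.sqrt_pos.2 (by positivity)
  have hb2 : b * b = ((m + 1 : ℕ) : ℝ) := Real.mul_self_sqrt (by positivity)
  have ha2 : a * a = (m : ℝ) := Real.mul_self_sqrt hm0.le
  have hab : a ≤ b := Real.sqrt_le_sqrt (by push_cast; linarith)
  have h1 : b * b = a * a + 1 := by
    rw [hb2, ha2]
    push_cast
    ring
  rw [← hb2]
  have e : 2 / a - 2 / b - 1 / b * (1 / (b * b)) =
      (2 * (b - a) * (b * b) - a) / (a * b * (b * b)) := by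
    field_simp
  have h2 : 0 ≤ 2 * (b - a) * (b * b) - a := by
    have h3 : (b - a) * (b + a) = 1 := by linarith [mul_comm a b, h1, (by ring : (b - a) * (b + a) = b * b - a * a)]
    have h4 : 1 ≤ (b - a) * (2 * b) := by
      rw [← h3]
      exact mul_le_mul_of_nonneg_left (by linarith) (by linarith)
    have h5 : b ≤ 2 * (b - a) * (b * b) := by
      have := mul_le_mul_of_nonneg_right h4 hb0.le
      nlinarith
    linarith
  have h6 : 0 ≤ 2 / a - 2 / b - 1 / b * (1 / (b * b)) := by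
    rw [e]
    positivity
  linarith

private theorem sum_sqrt_le {ℓ : ℕ} (hℓ : 1 ≤ ℓ) (F : Finset ℕ) (hF : ∀ q ∈ F, ℓ < q) :
    ∑ q ∈ F, 1 / Real.sqrt q * (1 / (q : ℝ)) ≤ 2 / Real.sqrt ℓ := by
  set n := max ℓ (F.sup id) with hn
  have h1 : F ⊆ Ioc ℓ n := by
    intro q hq
    rw [mem_Ioc]
    refine ⟨hF q hq, le_trans ?_ (le_max_right _ _)⟩
    exact le_sup (f := id) hq
  have h2 : ∀ k : ℕ, ∑ q ∈ Ioc ℓ (ℓ + k), 1 / Real.sqrt q * (1 / (q : ℝ)) ≤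
      2 / Real.sqrt ℓ - 2 / Real.sqrt ((ℓ + k : ℕ) : ℝ) := by
    intro k
    induction k with
    | zero => simp
    | succ k ih =>
      rw [← Nat.add_assoc, ← Finset.insert_Ioc_right_eq_Ioc_add_one (by omega : ℓ ≤ ℓ + k),
        sum_insert (by simp)]
      have := step_le (ℓ + k) (by omega)
      linarith
  have h3 := h2 (n - ℓ)
  have h4 : ℓ + (n - ℓ) = n := by
    have : ℓ ≤ n := le_max_left _ _
    omega
  rw [h4] at h3
  have h5 : (0 : ℝ) ≤ 2 / Real.sqrt n := by positivity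
  calc ∑ q ∈ F, 1 / Real.sqrt q * (1 / (q : ℝ)) ≤ ∑ q ∈ Ioc ℓ n, 1 / Real.sqrt q * (1 / (q : ℝ)) :=
        sum_le_sum_of_subset_of_nonneg h1 fun q _ _ => by positivity
    _ ≤ 2 / Real.sqrt ℓ := by linarith

open scoped Classical in
theorem not_nice2 {ℓ Jp E : ℕ} (hℓ : 5 ≤ ℓ) (hJp : 1 ≤ Jp) {ξ : ℝ} (hξ : 0 < ξ) (f : ℕ → ℤ) :
    (((range (Wd ℓ Jp E)).filter (fun r : ℕ =>
      (∃ p : ℕ, p.Prime ∧ p ≤ ℓ ∧ p % 4 = 1 ∧ p ≠ 5 ∧ ((p ^ Jp : ℕ) : ℤ) ∣ (r : ℤ) - f (r % WA ℓ Jp E)) ∨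
      ξ < ∑ q ∈ (Qset ℓ E).filter
        (fun q : ℕ => ¬ (q % 4 = 3 ∧ DW q) ∧ (q : ℤ) ∣ (r : ℤ) - f (r % WA ℓ Jp E)), 1 / Real.sqrt q)).card : ℝ) ≤
      (Wd ℓ Jp E : ℝ) * ((ℓ : ℝ) / 5 ^ Jp + 2 / (ξ * Real.sqrt ℓ)) := by
  obtain ⟨hW, hcop⟩ := W_split2 ℓ Jp E hℓ
  have hWpos := Wd_pos ℓ Jp E
  have h3pos : 0 < WA ℓ Jp E := Nat.pos_of_ne_zero (by
    intro h0; rw [hW, h0, zero_mul] at hWpos; exact lt_irrefl _ hWpos)
  have h1pos : 0 < WB ℓ Jp E := Nat.pos_of_ne_zero (by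
    intro h0; rw [hW, h0, mul_zero] at hWpos; exact lt_irrefl _ hWpos)
  set W := Wd ℓ Jp E with hWdef
  have hcount : ∀ D : ℕ, 0 < D → D ∣ WB ℓ Jp E →
      (((range W).filter (fun r : ℕ => (D : ℤ) ∣ (r : ℤ) - f (r % WA ℓ Jp E))).card : ℝ) =
        (W : ℝ) / D := by
    intro D hD0 hD
    have h := count_dvd h3pos h1pos hcop hD f
    rw [← hW] at h
    rw [eq_div_iff (by exact_mod_cast hD0.ne')]
    exact_mod_cast h
  set P1 := (Nat.primesBelow (ℓ + 1)).filter (fun p => p % 4 = 1 ∧ p ≠ 5) with hP1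
  set Q1 := (Qset ℓ E).filter (fun q => ¬ (q % 4 = 3 ∧ DW q)) with hQ1
  set S : ℕ → ℝ := fun r => ∑ q ∈ (Qset ℓ E).filter
    (fun q : ℕ => ¬ (q % 4 = 3 ∧ DW q) ∧ (q : ℤ) ∣ (r : ℤ) - f (r % WA ℓ Jp E)), 1 / Real.sqrt q with hS
  have hsub : (range W).filter (fun r : ℕ =>
      (∃ p : ℕ, p.Prime ∧ p ≤ ℓ ∧ p % 4 = 1 ∧ p ≠ 5 ∧
        ((p ^ Jp : ℕ) : ℤ) ∣ (r : ℤ) - f (r % WA ℓ Jp E)) ∨ ξ < S r) ⊆
      (P1.biUnion fun p => (range W).filter
        (fun r : ℕ => ((p ^ Jp : ℕ) : ℤ) ∣ (r : ℤ) - f (r % WA ℓ Jp E))) ∪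
      (range W).filter (fun r => ξ < S r) := by
    intro r hr
    rw [mem_filter] at hr
    rw [mem_union]
    rcases hr.2 with ⟨p, hp, hpl, hp4, hp5, hpd⟩ | h
    · left
      rw [mem_biUnion]
      refine ⟨p, ?_, mem_filter.2 ⟨hr.1, hpd⟩⟩
      rw [hP1, mem_filter, Nat.mem_primesBelow]
      exact ⟨⟨by omega, hp⟩, hp4, hp5⟩
    · right
      exact mem_filter.2 ⟨hr.1, h⟩
  have hfirst : ((P1.biUnion fun p => (range W).filter
        (fun r : ℕ => ((p ^ Jp : ℕ) : ℤ) ∣ (r : ℤ) - f (r % WA ℓ Jp E))).card : ℝ) ≤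
      (W : ℝ) * ((ℓ : ℝ) / 5 ^ Jp) := by
    have hP1card : P1.card ≤ ℓ := by
      have h1 : P1 ⊆ Icc 1 ℓ := by
        intro p hp
        rw [hP1, mem_filter, Nat.mem_primesBelow] at hp
        rw [mem_Icc]
        exact ⟨hp.1.2.one_lt.le, by omega⟩
      simpa using card_le_card h1
    calc ((P1.biUnion fun p => (range W).filter
        (fun r : ℕ => ((p ^ Jp : ℕ) : ℤ) ∣ (r : ℤ) - f (r % WA ℓ Jp E))).card : ℝ)
        ≤ ∑ p ∈ P1, (((range W).filter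
        (fun r : ℕ => ((p ^ Jp : ℕ) : ℤ) ∣ (r : ℤ) - f (r % WA ℓ Jp E))).card : ℝ) := by
          exact_mod_cast card_biUnion_le
      _ ≤ ∑ p ∈ P1, (W : ℝ) / 5 ^ Jp := by
          refine sum_le_sum fun p hp => ?_
          have hp' := hp
          rw [hP1, mem_filter, Nat.mem_primesBelow] at hp'
          obtain ⟨⟨_, hpp⟩, hp4, hp5⟩ := hp'
          have hp5' : 5 ≤ p := by
            have := hpp.two_le
            omega
          rw [hcount (p ^ Jp) (pow_pos hpp.pos _) (by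
            unfold WB
            refine Dvd.dvd.mul_right ?_ _
            exact dvd_prod_of_mem (fun p => p ^ Jp) hp)]
          push_cast
          gcongr
          exact_mod_cast hp5'
      _ = (P1.card : ℝ) * ((W : ℝ) / 5 ^ Jp) := by rw [sum_const, nsmul_eq_mul]
      _ ≤ (ℓ : ℝ) * ((W : ℝ) / 5 ^ Jp) := by
          gcongr
      _ = (W : ℝ) * ((ℓ : ℝ) / 5 ^ Jp) := by ring
  have hsecond : (((range W).filter (fun r => ξ < S r)).card : ℝ) ≤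
      (W : ℝ) * (2 / (ξ * Real.sqrt ℓ)) := by
    have h1 : ∀ r, S r = ∑ q ∈ Q1, if (q : ℤ) ∣ (r : ℤ) - f (r % WA ℓ Jp E) then
        1 / Real.sqrt (q : ℝ) else 0 := by
      intro r
      rw [hS, hQ1, ← sum_filter, filter_filter]
    have hSnn : ∀ r, 0 ≤ S r := by
      intro r
      rw [h1]
      refine sum_nonneg fun q _ => ?_
      split_ifs
      · positivity
      · exact le_rfl
    have hmark : ξ * (((range W).filter (fun r => ξ < S r)).card : ℝ) ≤ ∑ r ∈ range W, S r := by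
      calc ξ * (((range W).filter (fun r => ξ < S r)).card : ℝ)
          = ∑ r ∈ (range W).filter (fun r => ξ < S r), ξ := by rw [sum_const, nsmul_eq_mul]; ring
        _ ≤ ∑ r ∈ (range W).filter (fun r => ξ < S r), S r :=
            sum_le_sum fun r hr => (mem_filter.1 hr).2.le
        _ ≤ ∑ r ∈ range W, S r :=
            sum_le_sum_of_subset_of_nonneg (filter_subset _ _) fun r _ _ => hSnn r
    have hsum : ∑ r ∈ range W, S r = (W : ℝ) * ∑ q ∈ Q1, 1 / Real.sqrt (q : ℝ) * (1 / (q : ℝ)) := by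
      simp_rw [h1]
      rw [sum_comm, mul_sum]
      refine sum_congr rfl fun q hq => ?_
      have hqp : q.Prime := by
        have := (mem_filter.1 hq).1
        unfold Qset at this
        rw [mem_filter, mem_inter] at this
        exact Nat.prime_of_mem_primeFactors this.1.1
      rw [← sum_filter, sum_const, nsmul_eq_mul, hcount q hqp.pos (by
        unfold WB
        refine Dvd.dvd.mul_left ?_ _
        exact dvd_prod_of_mem (fun q => q) hq)]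
      ring
    have hle : ∑ q ∈ Q1, 1 / Real.sqrt (q : ℝ) * (1 / (q : ℝ)) ≤ 2 / Real.sqrt ℓ := by
      refine sum_sqrt_le (by omega) Q1 fun q hq => ?_
      have := (mem_filter.1 hq).1
      unfold Qset at this
      rw [mem_filter] at this
      exact this.2
    rw [hsum] at hmark
    have hℓ0 : (0 : ℝ) < ℓ := by
      have : 0 < ℓ := by omega
      exact_mod_cast this
    have hs0 : 0 < Real.sqrt (ℓ : ℝ) := Real.sqrt_pos.2 hℓ0
    have h2 : ξ * (((range W).filter (fun r => ξ < S r)).card : ℝ) ≤ (W : ℝ) * (2 / Real.sqrt ℓ) :=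
      hmark.trans (mul_le_mul_of_nonneg_left hle (by positivity))
    have h3 : (W : ℝ) * (2 / (ξ * Real.sqrt ℓ)) = ((W : ℝ) * (2 / Real.sqrt ℓ)) / ξ := by
      field_simp
    rw [h3, le_div_iff₀ hξ, mul_comm]
    exact h2
  calc (((range W).filter (fun r : ℕ =>
      (∃ p : ℕ, p.Prime ∧ p ≤ ℓ ∧ p % 4 = 1 ∧ p ≠ 5 ∧
        ((p ^ Jp : ℕ) : ℤ) ∣ (r : ℤ) - f (r % WA ℓ Jp E)) ∨ ξ < S r)).card : ℝ)
      ≤ (((P1.biUnion fun p => (range W).filter
        (fun r : ℕ => ((p ^ Jp : ℕ) : ℤ) ∣ (r : ℤ) - f (r % WA ℓ Jp E))) ∪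
      (range W).filter (fun r => ξ < S r)).card : ℝ) := by exact_mod_cast card_le_card hsub
    _ ≤ ((P1.biUnion fun p => (range W).filter
        (fun r : ℕ => ((p ^ Jp : ℕ) : ℤ) ∣ (r : ℤ) - f (r % WA ℓ Jp E))).card : ℝ) +
      (((range W).filter (fun r => ξ < S r)).card : ℝ) := by exact_mod_cast card_union_le _ _
    _ ≤ (W : ℝ) * ((ℓ : ℝ) / 5 ^ Jp) + (W : ℝ) * (2 / (ξ * Real.sqrt ℓ)) := add_le_add hfirst hsecond
    _ = (W : ℝ) * ((ℓ : ℝ) / 5 ^ Jp + 2 / (ξ * Real.sqrt ℓ)) := by ring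

end H2T
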