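import Pool.Agent.H2T.TailF
import Pool.Agent.H2S.Per

/-!
# H2T/Tail2: the Romanoff tail with the step `E' = EF E F`, and the new primes

Let `E = (primorial ℓ)^J`, `W = Wd ℓ Jp E`. `C9, C25` from `tailF 9`, `tailF 25`; `tail 9`, `tail 25` (`H2S/Tail`) with `τ/4`. Take `ℓ0` so large
that `ℓ ≥ 256` (so `ℓ^(-1/4) ≤ 1/4`) and `(C9 + C25) (log ℓ)^7 ℓ^(-1/4) ≤ τ/4`.
* Let `p ∈ T`, `p ∤ WF W E F`. Then `p ∤ W`, so `p > ℓ` (`H2S.not_dvd`), and not both `9^E' = 1` and `25^E' = 1` in `ZMod p`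
  (otherwise `p ∈ New W E F`, `p ∣ WF W E F`). `T = T9 ∪ T25` accordingly; `1/max ≤ 1/ord`. In `T9` (`9^E' ≠ 1`): the `p` such that some `q ∈ F`
  divides `s = orderOf 9` contribute at most `τ/4` (`tailF`); for the others `gcd(s, E') = gcd(s, E)` (`s` is coprime to the `q ∈ F`), so
  `orderOf (9^E') = orderOf (9^E)` (`orderOf_pow`), in particular `9^E ≠ 1`, and `tail 9` gives `τ/4`. The same for `T25`.
* Let `p ∈ New W E F`. Then `p ∤ W`, `9^E' = 25^E' = 1` in `ZMod p`, and `9^E ≠ 1` or `25^E ≠ 1` (`H2S.not_dvd`). In the first case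
  `s = orderOf 9` divides `E'` and not `E`, so some `q ∈ F` divides `s` (else `s` would be coprime to `∏ q²`), and
  `1/p ≤ wt p = wt p / orderOf (9^E')` (`orderOf 1 = 1`, `log p ≥ 1` as `p ≥ 3`); `tailF 9` bounds the sum. The same with 25. Total at most
  `(C9 + C25) (log ℓ)^7 ℓ^(-1/4) ≤ τ`.
-/

namespace H2T

open Finset H2S

private lemma t2_wt_nonneg (p : ℕ) : 0 ≤ wt p := by
  unfold wt
  positivity

private lemma t2_log (C : ℝ) {τ : ℝ} (hτ : 0 < τ) : ∃ ℓ0 : ℕ, ∀ ℓ : ℕ, ℓ0 ≤ ℓ →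
    C * (Real.log ℓ) ^ 7 * (ℓ : ℝ) ^ (-(1 / 4) : ℝ) ≤ τ := by
  have h1 := (isLittleO_log_rpow_rpow_atTop (7 : ℝ) (show (0 : ℝ) < 1 / 4 by norm_num)).tendsto_div_nhds_zero
  have h2 := (h1.const_mul C).comp (tendsto_natCast_atTop_atTop (R := ℝ))
  rw [mul_zero] at h2
  have h3 := h2.eventually (gt_mem_nhds hτ)
  obtain ⟨N, hN⟩ := Filter.eventually_atTop.1 h3
  refine ⟨N, fun ℓ hℓ => ?_⟩
  have h4 := hN ℓ hℓ
  simp only [Function.comp_apply] at h4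
  rw [Real.rpow_neg (Nat.cast_nonneg ℓ), mul_assoc, ← div_eq_mul_inv]
  have h5 : Real.log (ℓ : ℝ) ^ (7 : ℝ) = Real.log (ℓ : ℝ) ^ 7 := by
    rw [← Real.rpow_natCast]
    norm_num
  rw [h5] at h4
  exact h4.le

private lemma t2_quarter {ℓ : ℕ} (h : 256 ≤ ℓ) : (ℓ : ℝ) ^ (-(1 / 4) : ℝ) ≤ 1 / 4 := by
  have h1 : (256 : ℝ) ≤ ℓ := by exact_mod_cast h
  have h2 : (ℓ : ℝ) ^ (-(1 / 4) : ℝ) ≤ (256 : ℝ) ^ (-(1 / 4) : ℝ) :=
    Real.rpow_le_rpow_of_nonpos (by norm_num) h1 (by norm_num)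
  have h3 : (256 : ℝ) ^ (-(1 / 4) : ℝ) = 1 / 4 := by
    rw [show (256 : ℝ) = (4 : ℝ) ^ (4 : ℝ) by norm_num, ← Real.rpow_mul (by norm_num)]
    norm_num [Real.rpow_neg_one]
  linarith

private lemma t2_coprime {F : Finset ℕ} (hF : ∀ q ∈ F, q.Prime) {s : ℕ} (h : ∀ q ∈ F, ¬ q ∣ s) :
    Nat.Coprime s (∏ q ∈ F, q ^ 2) := by
  apply Nat.Coprime.prod_right
  intro q hq
  exact Nat.Coprime.pow_right 2 (((hF q hq).coprime_iff_not_dvd.2 (h q hq)).symm)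

private lemma t2_order_pos {g q : ℕ} (hq : q.Prime) (hg : ¬ q ∣ g) (E : ℕ) :
    0 < orderOf ((g : ZMod q) ^ E) := by
  haveI := Fact.mk hq
  have hne : ((g : ZMod q) ^ E) ≠ 0 := by
    apply pow_ne_zero
    intro h0
    exact hg ((ZMod.natCast_eq_zero_iff _ _).1 h0)
  rw [orderOf_pos_iff, isOfFinOrder_iff_pow_eq_one]
  exact ⟨q - 1, by have := hq.two_le; omega, ZMod.pow_card_sub_one_eq_one hne⟩

private lemma t2_A {g : ℕ} {ℓ J : ℕ} {F : Finset ℕ} {b σ : ℝ} (hF : ∀ q ∈ F, q.Prime ∧ ℓ < q)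
    (hC : ∀ T : Finset ℕ, (∀ p ∈ T, p.Prime ∧ ¬ p ∣ g ∧ ∃ q ∈ F, q ∣ orderOf (g : ZMod p)) →
      ∑ p ∈ T, wt p / (orderOf ((g : ZMod p) ^ EF ((primorial ℓ) ^ J) F) : ℝ) ≤ b)
    (hT : ∀ T : Finset ℕ, (∀ q ∈ T, q.Prime ∧ ¬ q ∣ g ∧ (g : ZMod q) ^ ((primorial ℓ) ^ J) ≠ 1) →
      ∑ q ∈ T, wt q / (orderOf ((g : ZMod q) ^ ((primorial ℓ) ^ J)) : ℝ) ≤ σ)
    (T : Finset ℕ)
    (h : ∀ p ∈ T, p.Prime ∧ ¬ p ∣ g ∧ (g : ZMod p) ^ EF ((primorial ℓ) ^ J) F ≠ 1) :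
    ∑ p ∈ T, wt p / (orderOf ((g : ZMod p) ^ EF ((primorial ℓ) ^ J) F) : ℝ) ≤ b + σ := by
  classical
  rw [← Finset.sum_filter_add_sum_filter_not T (fun p => ∃ q ∈ F, q ∣ orderOf (g : ZMod p))]
  apply add_le_add
  · apply hC
    intro p hp
    rw [Finset.mem_filter] at hp
    exact ⟨(h p hp.1).1, (h p hp.1).2.1, hp.2⟩
  · have hord : ∀ p ∈ T.filter (fun p => ¬ ∃ q ∈ F, q ∣ orderOf (g : ZMod p)),
        orderOf ((g : ZMod p) ^ EF ((primorial ℓ) ^ J) F) =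
          orderOf ((g : ZMod p) ^ ((primorial ℓ) ^ J)) := by
      intro p hp
      rw [Finset.mem_filter] at hp
      have h1 := hp.2
      push Not at h1
      have h2 := t2_coprime (fun q hq => (hF q hq).1) h1
      unfold EF
      rw [pow_mul]
      apply Nat.Coprime.orderOf_pow
      exact Nat.Coprime.coprime_dvd_left (orderOf_pow_dvd _) h2
    have h3 : ∑ p ∈ T.filter (fun p => ¬ ∃ q ∈ F, q ∣ orderOf (g : ZMod p)),
        wt p / (orderOf ((g : ZMod p) ^ EF ((primorial ℓ) ^ J) F) : ℝ) =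
        ∑ p ∈ T.filter (fun p => ¬ ∃ q ∈ F, q ∣ orderOf (g : ZMod p)),
        wt p / (orderOf ((g : ZMod p) ^ ((primorial ℓ) ^ J)) : ℝ) :=
      Finset.sum_congr rfl fun p hp => by rw [hord p hp]
    rw [h3]
    apply hT
    intro p hp
    have h4 := Finset.mem_filter.1 hp
    refine ⟨(h p h4.1).1, (h p h4.1).2.1, fun h5 => (h p h4.1).2.2 ?_⟩
    unfold EF
    rw [pow_mul, h5, one_pow]

private lemma t2_B {g : ℕ} {ℓ J : ℕ} {F : Finset ℕ} {b : ℝ} (hF : ∀ q ∈ F, q.Prime ∧ ℓ < q)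
    (hC : ∀ T : Finset ℕ, (∀ p ∈ T, p.Prime ∧ ¬ p ∣ g ∧ ∃ q ∈ F, q ∣ orderOf (g : ZMod p)) →
      ∑ p ∈ T, wt p / (orderOf ((g : ZMod p) ^ EF ((primorial ℓ) ^ J) F) : ℝ) ≤ b)
    (T : Finset ℕ)
    (h : ∀ p ∈ T, p.Prime ∧ 3 ≤ p ∧ ¬ p ∣ g ∧ (g : ZMod p) ^ EF ((primorial ℓ) ^ J) F = 1 ∧
      (g : ZMod p) ^ ((primorial ℓ) ^ J) ≠ 1) :
    ∑ p ∈ T, (1 : ℝ) / p ≤ b := by
  classical
  refine le_trans (Finset.sum_le_sum ?_) (hC T ?_)
  · intro p hp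
    obtain ⟨h1, h2, _, h4, _⟩ := h p hp
    rw [h4, orderOf_one, Nat.cast_one, div_one]
    unfold wt
    have hp0 : (0 : ℝ) < p := by exact_mod_cast h1.pos
    apply div_le_div_of_nonneg_right _ hp0.le
    have h5 : (1 : ℝ) ≤ Real.log p := by
      rw [Real.le_log_iff_exp_le hp0]
      have h6 := Real.exp_one_lt_d9
      have h7 : (3 : ℝ) ≤ p := by exact_mod_cast h2
      linarith
    nlinarith
  · intro p hp
    obtain ⟨h1, _, h3, h4, h5⟩ := h p hp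
    refine ⟨h1, h3, ?_⟩
    by_contra hcon
    push Not at hcon
    have h6 := t2_coprime (fun q hq => (hF q hq).1) hcon
    have h7 := orderOf_dvd_of_pow_eq_one h4
    unfold EF at h7
    have h8 := h6.dvd_of_dvd_mul_right h7
    exact h5 (orderOf_dvd_iff_pow_eq_one.1 h8)

theorem tail_both2 {τ : ℝ} (hτ : 0 < τ) : ∃ ℓ0 : ℕ, ∀ ℓ : ℕ, ℓ0 ≤ ℓ → ∃ J0 : ℕ, ∀ J Jp : ℕ, J0 ≤ J → 1 ≤ Jp →
    ∀ F : Finset ℕ, (∀ q ∈ F, q.Prime ∧ ℓ < q) → ∑ q ∈ F, 1 / Real.sqrt q ≤ (ℓ : ℝ) ^ (-(1 / 4) : ℝ) →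
    (∀ T : Finset ℕ, (∀ p ∈ T, p.Prime ∧ ¬ p ∣ WF (Wd ℓ Jp ((primorial ℓ) ^ J)) ((primorial ℓ) ^ J) F) →
      ∑ p ∈ T, wt p / (max (orderOf ((9 : ZMod p) ^ EF ((primorial ℓ) ^ J) F))
        (orderOf ((25 : ZMod p) ^ EF ((primorial ℓ) ^ J) F)) : ℕ) ≤ τ) ∧
    ∑ p ∈ New (Wd ℓ Jp ((primorial ℓ) ^ J)) ((primorial ℓ) ^ J) F, (1 : ℝ) / p ≤ τ := by
  classical
  obtain ⟨C9, hC9, t9⟩ := tailF 9 (by norm_num)
  obtain ⟨C25, hC25, t25⟩ := tailF 25 (by norm_num)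
  obtain ⟨l9, h9⟩ := tail 9 (by norm_num) (show 0 < τ / 4 by positivity)
  obtain ⟨l25, h25⟩ := tail 25 (by norm_num) (show 0 < τ / 4 by positivity)
  obtain ⟨lC, hlC⟩ := t2_log (C9 + C25) (show 0 < τ / 4 by positivity)
  refine ⟨max (max 256 lC) (max l9 l25), fun ℓ hℓ => ?_⟩
  have hl256 : 256 ≤ ℓ := ((le_max_left _ _).trans (le_max_left _ _)).trans hℓ
  have hlC' : lC ≤ ℓ := ((le_max_right _ _).trans (le_max_left _ _)).trans hℓ
  obtain ⟨J9, hJ9⟩ := h9 ℓ (((le_max_left _ _).trans (le_max_right _ _)).trans hℓ)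
  obtain ⟨J25, hJ25⟩ := h25 ℓ (((le_max_right _ _).trans (le_max_right _ _)).trans hℓ)
  refine ⟨max J9 J25, fun J Jp hJ hJp F hF hsum => ?_⟩
  have hq := t2_quarter hl256
  have hs4 : ∑ q ∈ F, 1 / Real.sqrt q ≤ 1 / 4 := hsum.trans hq
  have hlog : 0 ≤ (Real.log ℓ) ^ 7 := pow_nonneg (Real.log_nonneg (by
    have : (256 : ℝ) ≤ ℓ := by exact_mod_cast hl256
    linarith)) 7
  have hbound := hlC ℓ hlC'
  have tF9 : ∀ T : Finset ℕ, (∀ p ∈ T, p.Prime ∧ ¬ p ∣ 9 ∧ ∃ q ∈ F, q ∣ orderOf ((9 : ℕ) : ZMod p)) →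
      ∑ p ∈ T, wt p / (orderOf (((9 : ℕ) : ZMod p) ^ EF ((primorial ℓ) ^ J) F) : ℝ) ≤
        C9 * (Real.log ℓ) ^ 7 * (ℓ : ℝ) ^ (-(1 / 4) : ℝ) := by
    intro T hT
    exact (t9 ℓ J (by omega) F hF hs4 T hT).trans
      (mul_le_mul_of_nonneg_left hsum (mul_nonneg hC9.le hlog))
  have tF25 : ∀ T : Finset ℕ, (∀ p ∈ T, p.Prime ∧ ¬ p ∣ 25 ∧ ∃ q ∈ F, q ∣ orderOf ((25 : ℕ) : ZMod p)) →
      ∑ p ∈ T, wt p / (orderOf (((25 : ℕ) : ZMod p) ^ EF ((primorial ℓ) ^ J) F) : ℝ) ≤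
        C25 * (Real.log ℓ) ^ 7 * (ℓ : ℝ) ^ (-(1 / 4) : ℝ) := by
    intro T hT
    exact (t25 ℓ J (by omega) F hF hs4 T hT).trans
      (mul_le_mul_of_nonneg_left hsum (mul_nonneg hC25.le hlog))
  have hJ9' := hJ9 J ((le_max_left _ _).trans hJ)
  have hJ25' := hJ25 J ((le_max_right _ _).trans hJ)
  have hE0 : 0 < (primorial ℓ) ^ J := pow_pos (primorial_pos ℓ) _
  have hbad : ∀ p : ℕ, p.Prime → ℓ < p → ¬ p ∣ 9 ∧ ¬ p ∣ 25 := by
    intro p hp hpl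
    constructor
    · intro h
      have := Nat.le_of_dvd (by norm_num) h
      omega
    · intro h
      have := Nat.le_of_dvd (by norm_num) h
      omega
  have hsplit : (C9 + C25) * (Real.log ℓ) ^ 7 * (ℓ : ℝ) ^ (-(1 / 4) : ℝ) =
      C9 * (Real.log ℓ) ^ 7 * (ℓ : ℝ) ^ (-(1 / 4) : ℝ) +
      C25 * (Real.log ℓ) ^ 7 * (ℓ : ℝ) ^ (-(1 / 4) : ℝ) := by ring
  constructor
  · intro T hT
    have hnd : ∀ p ∈ T, ℓ < p ∧ ((9 : ZMod p) ^ EF ((primorial ℓ) ^ J) F ≠ 1 ∨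
        (25 : ZMod p) ^ EF ((primorial ℓ) ^ J) F ≠ 1) := by
      intro p hp
      obtain ⟨hpp, hpW⟩ := hT p hp
      have hpW1 : ¬ p ∣ Wd ℓ Jp ((primorial ℓ) ^ J) := fun h => hpW (h.mul_right _)
      have h1 := not_dvd (by omega) hJp hE0 hpp hpW1
      refine ⟨h1.1, ?_⟩
      by_contra hcon
      push Not at hcon
      apply hpW
      unfold WF KF
      apply Dvd.dvd.mul_left
      apply Dvd.dvd.mul_left
      apply Finset.dvd_prod_of_mem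
      have hEF : 0 < EF ((primorial ℓ) ^ J) F := by
        unfold EF
        exact Nat.mul_pos hE0 (Finset.prod_pos fun q hq => pow_pos (hF q hq).1.pos 2)
      have key : ∀ g : ℕ, 2 ≤ g → ((g : ZMod p)) ^ EF ((primorial ℓ) ^ J) F = 1 →
          p ∈ (g ^ EF ((primorial ℓ) ^ J) F - 1).primeFactors := by
        intro g hg hgE
        have h2 : 1 < g ^ EF ((primorial ℓ) ^ J) F := Nat.one_lt_pow hEF.ne' (by omega)
        rw [Nat.mem_primeFactors]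
        refine ⟨hpp, ?_, by omega⟩
        rw [← ZMod.natCast_eq_zero_iff, Nat.cast_sub h2.le]
        push_cast
        rw [hgE, sub_self]
      unfold New
      rw [Finset.mem_filter, Finset.mem_inter]
      exact ⟨⟨key 9 (by norm_num) (by push_cast; exact hcon.1),
        key 25 (by norm_num) (by push_cast; exact hcon.2)⟩, hpW1⟩
    have s9 := t2_A hF tF9 hJ9' (T.filter fun p => (9 : ZMod p) ^ EF ((primorial ℓ) ^ J) F ≠ 1) (by
      intro p hp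
      rw [Finset.mem_filter] at hp
      refine ⟨(hT p hp.1).1, (hbad p (hT p hp.1).1 (hnd p hp.1).1).1, ?_⟩
      have := hp.2
      push_cast
      exact this)
    have s25 := t2_A hF tF25 hJ25' (T.filter fun p => (25 : ZMod p) ^ EF ((primorial ℓ) ^ J) F ≠ 1) (by
      intro p hp
      rw [Finset.mem_filter] at hp
      refine ⟨(hT p hp.1).1, (hbad p (hT p hp.1).1 (hnd p hp.1).1).2, ?_⟩
      have := hp.2
      push_cast
      exact this)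
    push_cast at s9 s25
    rw [Finset.sum_filter] at s9 s25
    refine le_trans (Finset.sum_le_sum (g := fun p =>
      ((if (9 : ZMod p) ^ EF ((primorial ℓ) ^ J) F ≠ 1 then
        wt p / (orderOf ((9 : ZMod p) ^ EF ((primorial ℓ) ^ J) F) : ℝ) else 0) +
      (if (25 : ZMod p) ^ EF ((primorial ℓ) ^ J) F ≠ 1 then
        wt p / (orderOf ((25 : ZMod p) ^ EF ((primorial ℓ) ^ J) F) : ℝ) else 0))) ?_) ?_
    · intro p hp
      have hb := hbad p (hT p hp).1 (hnd p hp).1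
      have p9 := t2_order_pos (hT p hp).1 hb.1 (EF ((primorial ℓ) ^ J) F)
      have p25 := t2_order_pos (hT p hp).1 hb.2 (EF ((primorial ℓ) ^ J) F)
      push_cast at p9 p25
      have p9' : (0 : ℝ) < (orderOf ((9 : ZMod p) ^ EF ((primorial ℓ) ^ J) F) : ℝ) := by
        exact_mod_cast p9
      have p25' : (0 : ℝ) < (orderOf ((25 : ZMod p) ^ EF ((primorial ℓ) ^ J) F) : ℝ) := by
        exact_mod_cast p25
      have n9 : 0 ≤ (if (9 : ZMod p) ^ EF ((primorial ℓ) ^ J) F ≠ 1 then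
          wt p / (orderOf ((9 : ZMod p) ^ EF ((primorial ℓ) ^ J) F) : ℝ) else 0) := by
        split_ifs
        · exact div_nonneg (t2_wt_nonneg p) p9'.le
        · exact le_rfl
      have n25 : 0 ≤ (if (25 : ZMod p) ^ EF ((primorial ℓ) ^ J) F ≠ 1 then
          wt p / (orderOf ((25 : ZMod p) ^ EF ((primorial ℓ) ^ J) F) : ℝ) else 0) := by
        split_ifs
        · exact div_nonneg (t2_wt_nonneg p) p25'.le
        · exact le_rfl
      rcases (hnd p hp).2 with h1 | h1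
      · have h2 : wt p / ((max (orderOf ((9 : ZMod p) ^ EF ((primorial ℓ) ^ J) F))
            (orderOf ((25 : ZMod p) ^ EF ((primorial ℓ) ^ J) F)) : ℕ) : ℝ) ≤
            wt p / (orderOf ((9 : ZMod p) ^ EF ((primorial ℓ) ^ J) F) : ℝ) :=
          div_le_div_of_nonneg_left (t2_wt_nonneg p) p9' (by exact_mod_cast le_max_left _ _)
        simp only [if_pos h1] at n9 ⊢
        linarith
      · have h2 : wt p / ((max (orderOf ((9 : ZMod p) ^ EF ((primorial ℓ) ^ J) F))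
            (orderOf ((25 : ZMod p) ^ EF ((primorial ℓ) ^ J) F)) : ℕ) : ℝ) ≤
            wt p / (orderOf ((25 : ZMod p) ^ EF ((primorial ℓ) ^ J) F) : ℝ) :=
          div_le_div_of_nonneg_left (t2_wt_nonneg p) p25' (by exact_mod_cast le_max_right _ _)
        simp only [if_pos h1] at n25 ⊢
        linarith
    · rw [Finset.sum_add_distrib]
      linarith
  · have hprime : ∀ p ∈ New (Wd ℓ Jp ((primorial ℓ) ^ J)) ((primorial ℓ) ^ J) F,
        p.Prime ∧ ((9 : ZMod p) ^ EF ((primorial ℓ) ^ J) F = 1 ∧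
        (25 : ZMod p) ^ EF ((primorial ℓ) ^ J) F = 1) ∧ ¬ p ∣ Wd ℓ Jp ((primorial ℓ) ^ J) := by
      intro p hp
      unfold New at hp
      rw [Finset.mem_filter, Finset.mem_inter] at hp
      have key : ∀ g : ℕ, 2 ≤ g → p ∈ (g ^ EF ((primorial ℓ) ^ J) F - 1).primeFactors →
          ((g : ZMod p)) ^ EF ((primorial ℓ) ^ J) F = 1 := by
        intro g hg h1
        have h2 := Nat.dvd_of_mem_primeFactors h1
        rw [← ZMod.natCast_eq_zero_iff, Nat.cast_sub (Nat.one_le_pow _ _ (by omega))] at h2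
        push_cast at h2
        exact sub_eq_zero.1 h2
      have k9 := key 9 (by norm_num) hp.1.1
      have k25 := key 25 (by norm_num) hp.1.2
      push_cast at k9 k25
      exact ⟨Nat.prime_of_mem_primeFactors hp.1.1, ⟨k9, k25⟩, hp.2⟩
    have hor : ∀ p ∈ New (Wd ℓ Jp ((primorial ℓ) ^ J)) ((primorial ℓ) ^ J) F,
        ℓ < p ∧ ((9 : ZMod p) ^ ((primorial ℓ) ^ J) ≠ 1 ∨ (25 : ZMod p) ^ ((primorial ℓ) ^ J) ≠ 1) :=
      fun p hp => not_dvd (by omega) hJp hE0 (hprime p hp).1 (hprime p hp).2.2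
    have s9 := t2_B hF tF9 ((New (Wd ℓ Jp ((primorial ℓ) ^ J)) ((primorial ℓ) ^ J) F).filter
      (fun p => (9 : ZMod p) ^ ((primorial ℓ) ^ J) ≠ 1)) (by
      intro p hp
      rw [Finset.mem_filter] at hp
      have h1 := hprime p hp.1
      have h2 := hor p hp.1
      refine ⟨h1.1, by omega, (hbad p h1.1 h2.1).1, ?_, ?_⟩
      · push_cast
        exact h1.2.1.1
      · push_cast
        exact hp.2)
    have s25 := t2_B hF tF25 ((New (Wd ℓ Jp ((primorial ℓ) ^ J)) ((primorial ℓ) ^ J) F).filter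
      (fun p => ¬ (9 : ZMod p) ^ ((primorial ℓ) ^ J) ≠ 1)) (by
      intro p hp
      rw [Finset.mem_filter] at hp
      have h1 := hprime p hp.1
      have h2 := hor p hp.1
      refine ⟨h1.1, by omega, (hbad p h1.1 h2.1).2, ?_, ?_⟩
      · push_cast
        exact h1.2.1.2
      · push_cast
        exact h2.2.resolve_left hp.2)
    rw [← Finset.sum_filter_add_sum_filter_not _ (fun p => (9 : ZMod p) ^ ((primorial ℓ) ^ J) ≠ 1)]
    linarith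

end H2T
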