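import Pool.Agent.H2T.Shift2

/-!
# H2T/Wit2: a good quadruple with large exponents and `5 ∤ n - k`

As `H2S/Wit` (file `Pool/Agent/H2S/Wit.lean`, copy the last part), with `L = Lper Q` (odd, `Lper_odd`, so `L ≥ 1`) and `good_shift`:
replacing `b` by `b + L x` and `d` by `d + L y` preserves `GoodZ2 Q z`. With `d' = d + L (Jp+1)`: `d' ≥ Jp`, `d' ≥ 1`,
`z' = n - 4^a 9^b' mod 5`, `9^b' = (-1)^b' mod 5`. Of `b' = b + L Jp` and `b' = b + L (Jp + 1)` (different parity, `2 · 4^a` is not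
divisible by 5) at least one has `5 ∤ z'`.
-/

namespace H2T

open Finset H2S

private theorem kk_eq2 (a b c d : ℕ) : kk a b c d = 4 ^ a * 9 ^ b + 4 ^ c * 25 ^ d := by
  unfold kk
  have h1 : ∀ k : ℕ, (2 ^ k) ^ 2 = 4 ^ k := fun k => by rw [← pow_mul, mul_comm, pow_mul]; norm_num
  have h2 : ∀ k : ℕ, (3 ^ k) ^ 2 = 9 ^ k := fun k => by rw [← pow_mul, mul_comm, pow_mul]; norm_num
  have h3 : ∀ k : ℕ, (5 ^ k) ^ 2 = 25 ^ k := fun k => by rw [← pow_mul, mul_comm, pow_mul]; norm_num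
  rw [mul_pow, mul_pow, h1, h2, h1, h3]

theorem witness2 (Q : Finset ℕ) (hQ : ∀ q ∈ Q, q.Prime ∧ q % 4 = 3 ∧ 3 < q) (Jp n : ℕ)
    (h : ∃ a b c d : ℕ, 2 ≤ b ∧ GoodZ2 Q ((n : ℤ) - kk a b c d)) :
    ∃ a b c d : ℕ, Jp ≤ b ∧ Jp ≤ d ∧ GoodZ2 Q ((n : ℤ) - kk a b c d) ∧ ¬ (5 : ℤ) ∣ (n : ℤ) - kk a b c d := by
  obtain ⟨a, b, c, d, hb, hg⟩ := h
  obtain ⟨L, hL⟩ : ∃ L, L = Lper Q := ⟨_, rfl⟩
  have hLodd : Odd L := by
    rw [hL]
    exact Lper_odd Q hQ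
  have hL1 : 1 ≤ L := hLodd.pos
  have hdvd : Lper Q ∣ L := by rw [hL]
  have good : ∀ t u : ℕ, GoodZ2 Q ((n : ℤ) - kk a (b + L * t) c (d + L * u)) :=
    fun t u => (good_shift Q hQ hdvd hb t u).2 hg
  have hJ : Jp ≤ L * Jp := Nat.le_mul_of_pos_left Jp hL1
  have hJ' : L * (Jp + 1) = L * Jp + L := by ring
  by_cases h5 : (5 : ℤ) ∣ (n : ℤ) - kk a (b + L * Jp) c (d + L * Jp)
  · refine ⟨a, b + L * (Jp + 1), c, d + L * Jp, by omega, by omega, good _ _, ?_⟩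
    intro h5'
    have h6 := dvd_sub h5 h5'
    rw [kk_eq2, kk_eq2, hJ', ← add_assoc] at h6
    have h7 : ((n : ℤ) - ((4 ^ a * 9 ^ (b + L * Jp) + 4 ^ c * 25 ^ (d + L * Jp) : ℕ) : ℤ)) -
        ((n : ℤ) - ((4 ^ a * 9 ^ (b + L * Jp + L) + 4 ^ c * 25 ^ (d + L * Jp) : ℕ) : ℤ)) =
        4 ^ a * 9 ^ (b + L * Jp) * (9 ^ L - 1) := by
      push_cast
      rw [pow_add (9 : ℤ) (b + L * Jp) L]
      ring
    rw [h7] at h6
    have hp : Prime (5 : ℤ) := by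
      rw [Int.prime_iff_natAbs_prime]
      norm_num
    have h8 : (9 : ℤ) ^ L ≡ (-1) ^ L [ZMOD 5] := by
      apply Int.ModEq.pow
      decide
    rw [hLodd.neg_one_pow] at h8
    rcases hp.dvd_or_dvd h6 with h9 | h9
    · rcases hp.dvd_or_dvd h9 with h10 | h10
      · have := hp.dvd_of_dvd_pow h10
        norm_num at this
      · have := hp.dvd_of_dvd_pow h10
        norm_num at this
    · have h11 : (9 : ℤ) ^ L - 1 ≡ -1 - 1 [ZMOD 5] := h8.sub (Int.ModEq.refl 1)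
      have h12 : (9 : ℤ) ^ L - 1 ≡ 0 [ZMOD 5] := (Int.modEq_zero_iff_dvd).2 h9
      have h13 := h11.symm.trans h12
      revert h13
      decide
  · exact ⟨a, b + L * Jp, c, d + L * Jp, by omega, by omega, good _ _, h5⟩

end H2T
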