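import Pool.Agent.H2T.Class2
import Pool.Agent.H2T.Split2
import Pool.Agent.H2T.Tail2
import Pool.Agent.H2T.Wit2

/-!
# H2T/LocGlob2: the local-global theorem with the true local conditions

Adapt the proof of `H2S.local_global` (file `Pool/Agent/H2S/LocGlob.lean`). Let `C` be the constant of `good_class2`. Choose `τ > 0`, `ξ > 0` (`ξ ≤ 1/4`) with
`450 ((1 + C τ)(1 + 4 ξ) - 1) + τ ≤ ε/8` (e.g. `η = min 1 (ε/10800)`, `τ = min (η/C) (ε/32)`..., `ξ = η/4`), then `ℓ ≥ ℓ0` (`tail_both2`), `ℓ ≥ 5`, with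
`ξ' := ℓ^(-1/4) ≤ ξ` and `2/(ξ' √ℓ) = 2 ℓ^(-1/4) ≤ ε/16`, `Jp ≥ 3` with `ℓ / 5^Jp ≤ ε/16`, `J ≥ max (J0, Jp + ℓ)`; `E = (primorial ℓ)^J`, `W = Wd ℓ Jp E`,
`Q = Q3 W`. Since `WA ∣ W`, `Q3 WA ⊆ Q3 W`, so a `z` with `GoodZ2 (Q3 W) z` has `GoodZ2 (Q3 WA) z`. Call `n` good if
`∃ a b c d, 2 ≤ b ∧ GoodZ2 (Q3 WA) (n - kk a b c d)`; by `good_congrA` this only depends on `n mod WA`. For every good residue `s < WA` choose by `witness2` a
quadruple `v(s)` with exponents `≥ Jp`, put `f s = kk (v s)` (and `f s = 0` if `s` is not good). For a good `r < W`, `z = r - f (r % WA)` satisfies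
`GoodZ2 (Q3 WA) z`, `5 ∤ z` (`good_congrA`). Let `r` be outside the exceptional set of `not_nice2` (with `ξ'`), and `F` the set of `good_class2`. The `q ∈ F` are not
doubly Wieferich (otherwise `q ∈ Q3 WA` and `GoodQ q z` says `q ∤ z`), so `∑_{q ∈ F} q^(-1/2) ≤ ξ'` and `tail_both2` gives the two hypotheses with `τ`; also
`∑ 1/q ≤ ∑ q^(-1/2) ≤ ξ' ≤ ξ` over the `q ∈ Qset`, `q = 1 mod 4`, `q ∣ z`; for primes `q ≤ ℓ`, `q = 3 mod 4`, `q > 3`: `q ∈ Q3 WA`. So `good_class2` bounds the number of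
`t < N'` with `r + W t` not representable by `(ε/4) N'` for large `N'`. Sum over the classes as in `H2S.local_global`.
-/

namespace H2T

open Finset Filter H2S

private theorem tendsto_div {W : ℕ} (hW : 0 < W) :
    Tendsto (fun N : ℕ => N / W + 1) atTop atTop := by
  rw [tendsto_atTop_atTop]
  intro b
  refine ⟨b * W, fun a ha => ?_⟩
  have := (Nat.le_div_iff_mul_le hW).2 ha
  omega

/-- counting by residue classes -/
private theorem count_classes {W : ℕ} (hW : 0 < W) (P : ℕ → Prop) [DecidablePred P] (Bad : Finset ℕ) (N : ℕ) {κ β : ℝ}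
    (hκ : 0 ≤ κ)
    (hBad : (Bad.card : ℝ) ≤ β * W)
    (h : ∀ r ∈ range W, r ∉ Bad →
      (((range (N / W + 1)).filter (fun t => P (r + W * t))).card : ℝ) ≤ κ * ((N / W + 1 : ℕ) : ℝ)) :
    (((range N).filter P).card : ℝ) ≤ (κ + β) * (N + W) := by
  have hsub : (range N).filter P ⊆
      ((range W \ Bad).biUnion (fun r => ((range (N / W + 1)).filter (fun t => P (r + W * t))).image
        (fun t => r + W * t))) ∪ (Bad.biUnion (fun r => (range (N / W + 1)).image (fun t => r + W * t))) := by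
    intro n hn
    rw [mem_filter, mem_range] at hn
    have h1 : n % W + W * (n / W) = n := Nat.mod_add_div n W
    have h2 : n / W < N / W + 1 := Nat.lt_succ_of_le (Nat.div_le_div_right hn.1.le)
    rw [mem_union]
    by_cases hb : n % W ∈ Bad
    · right
      rw [mem_biUnion]
      exact ⟨n % W, hb, mem_image.2 ⟨n / W, mem_range.2 h2, h1⟩⟩
    · left
      rw [mem_biUnion]
      refine ⟨n % W, Finset.mem_sdiff.2 ⟨mem_range.2 (Nat.mod_lt _ hW), hb⟩, mem_image.2 ⟨n / W, ?_, h1⟩⟩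
      rw [mem_filter, mem_range]
      exact ⟨h2, by rw [h1]; exact hn.2⟩
  have hc1 : (((range W \ Bad).biUnion (fun r => ((range (N / W + 1)).filter
      (fun t => P (r + W * t))).image (fun t => r + W * t))).card : ℝ) ≤
      W * (κ * ((N / W + 1 : ℕ) : ℝ)) := by
    have e1 : (((range W \ Bad).biUnion (fun r => ((range (N / W + 1)).filter
      (fun t => P (r + W * t))).image (fun t => r + W * t))).card : ℝ) ≤
      ∑ r ∈ range W \ Bad, (((range (N / W + 1)).filter (fun t => P (r + W * t))).card : ℝ) := by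
      have e2 : ((range W \ Bad).biUnion (fun r => ((range (N / W + 1)).filter
        (fun t => P (r + W * t))).image (fun t => r + W * t))).card ≤
        ∑ r ∈ range W \ Bad, ((range (N / W + 1)).filter (fun t => P (r + W * t))).card :=
        card_biUnion_le.trans (sum_le_sum (fun r _ => card_image_le))
      exact_mod_cast e2
    refine e1.trans ?_
    have e3 : ∑ r ∈ range W \ Bad, (((range (N / W + 1)).filter (fun t => P (r + W * t))).card : ℝ) ≤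
        ∑ r ∈ range W \ Bad, κ * ((N / W + 1 : ℕ) : ℝ) := by
      apply sum_le_sum
      intro r hr
      rw [Finset.mem_sdiff] at hr
      exact h r hr.1 hr.2
    refine e3.trans ?_
    rw [sum_const, nsmul_eq_mul]
    apply mul_le_mul_of_nonneg_right _ (by positivity)
    have : (range W \ Bad).card ≤ W := (card_le_card sdiff_subset).trans (by rw [card_range])
    exact_mod_cast this
  have hc2 : ((Bad.biUnion (fun r => (range (N / W + 1)).image (fun t => r + W * t))).card : ℝ) ≤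
      β * W * ((N / W + 1 : ℕ) : ℝ) := by
    have e2 : (Bad.biUnion (fun r => (range (N / W + 1)).image (fun t => r + W * t))).card ≤
        Bad.card * (N / W + 1) := by
      refine card_biUnion_le_card_mul _ _ _ (fun r _ => ?_)
      exact card_image_le.trans (by rw [card_range])
    have e3 : ((Bad.biUnion (fun r => (range (N / W + 1)).image (fun t => r + W * t))).card : ℝ) ≤
        Bad.card * ((N / W + 1 : ℕ) : ℝ) := by exact_mod_cast e2
    exact e3.trans (mul_le_mul_of_nonneg_right hBad (by positivity))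
  have hc3 : (((range N).filter P).card : ℝ) ≤
      W * (κ * ((N / W + 1 : ℕ) : ℝ)) + β * W * ((N / W + 1 : ℕ) : ℝ) := by
    have e1 := (card_le_card hsub).trans (card_union_le _ _)
    have e2 : (((range N).filter P).card : ℝ) ≤ (((range W \ Bad).biUnion (fun r =>
      ((range (N / W + 1)).filter (fun t => P (r + W * t))).image (fun t => r + W * t))).card : ℝ) +
      ((Bad.biUnion (fun r => (range (N / W + 1)).image (fun t => r + W * t))).card : ℝ) := by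
      exact_mod_cast e1
    linarith
  have hβ : 0 ≤ β := by
    by_contra hneg
    push Not at hneg
    have : β * W < 0 := mul_neg_of_neg_of_pos hneg (by exact_mod_cast hW)
    have : (0 : ℝ) ≤ Bad.card := by positivity
    linarith
  have hdiv : (W : ℝ) * ((N / W + 1 : ℕ) : ℝ) ≤ N + W := by
    have : W * (N / W + 1) ≤ N + W := by
      rw [mul_add, mul_one]
      have := Nat.mul_div_le N W
      omega
    exact_mod_cast this
  have : W * (κ * ((N / W + 1 : ℕ) : ℝ)) + β * W * ((N / W + 1 : ℕ) : ℝ) =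
      (κ + β) * ((W : ℝ) * ((N / W + 1 : ℕ) : ℝ)) := by ring
  rw [this] at hc3
  exact hc3.trans (mul_le_mul_of_nonneg_left hdiv (by positivity))

private theorem WA_pos {ℓ Jp E : ℕ} (hℓ : 5 ≤ ℓ) : 0 < WA ℓ Jp E := by
  have h1 := Wd_pos ℓ Jp E
  rw [(W_split2 ℓ Jp E hℓ).1] at h1
  exact Nat.pos_of_ne_zero fun h => by simp [h] at h1

private theorem small_dvd_WA {ℓ Jp E p : ℕ} (hJp : 1 ≤ Jp) (hp : p.Prime) (hpl : p ≤ ℓ)
    (h : ¬ (p % 4 = 1 ∧ p ≠ 5)) : p ∣ WA ℓ Jp E := by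
  unfold WA
  refine Dvd.dvd.mul_right ?_ _
  refine (dvd_pow_self p (by omega : Jp ≠ 0)).trans (dvd_prod_of_mem (fun p => p ^ Jp) ?_)
  rw [mem_filter, Nat.mem_primesBelow]
  exact ⟨⟨by omega, hp⟩, h⟩

private theorem big_dvd_WA {ℓ Jp E q : ℕ} (hq : q ∈ Qset ℓ E) (h : q % 4 = 3 ∧ DW q) :
    q ∣ WA ℓ Jp E := by
  unfold WA
  refine Dvd.dvd.mul_left ?_ _
  exact dvd_prod_of_mem (fun q => q) (mem_filter.2 ⟨hq, h⟩)

private theorem Qset_prime' {ℓ E q : ℕ} (hq : q ∈ Qset ℓ E) : q.Prime ∧ ℓ < q := by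
  unfold Qset at hq
  rw [Finset.mem_filter, Finset.mem_inter] at hq
  exact ⟨Nat.prime_of_mem_primeFactors hq.1.1, hq.2⟩

open scoped Classical in
theorem local_global2 {ε : ℝ} (hε : 0 < ε) : ∃ Q : Finset ℕ, (∀ q ∈ Q, q.Prime ∧ q % 4 = 3 ∧ 3 < q) ∧
    ∀ᶠ N : ℕ in atTop,
      (((range N).filter (fun n => ¬ Rep n ∧ ∃ a b c d : ℕ, 2 ≤ b ∧ GoodZ2 Q ((n : ℤ) - kk a b c d))).card : ℝ) ≤
        ε * N := by
  obtain ⟨C, hC, hgc⟩ := good_class2
  -- the parameters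
  obtain ⟨η, hη0, hη1, hηε⟩ : ∃ η : ℝ, 0 < η ∧ η ≤ 1 ∧ η ≤ ε / 10800 :=
    ⟨min 1 (ε / 10800), lt_min one_pos (by positivity), min_le_left _ _, min_le_right _ _⟩
  obtain ⟨τ, hτ, hτC, hτε⟩ : ∃ τ : ℝ, 0 < τ ∧ C * τ ≤ η ∧ τ ≤ ε / 16 :=
    ⟨min (η / C) (ε / 16), lt_min (div_pos hη0 hC) (by positivity), by
      have h1 : C * min (η / C) (ε / 16) ≤ C * (η / C) :=
        mul_le_mul_of_nonneg_left (min_le_left _ _) hC.le
      have h2 : C * (η / C) = η := by field_simp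
      linarith, min_le_right _ _⟩
  have hξ : 0 < η / 4 := by positivity
  obtain ⟨ℓ0, hℓ0⟩ := tail_both2 hτ
  set B : ℝ := max (32 / ε) (4 / η) with hBdef
  have hB0 : 0 < B := lt_of_lt_of_le (by positivity) (le_max_right _ _)
  obtain ⟨ℓ1, hℓ1⟩ := exists_nat_gt (B ^ (4 : ℕ))
  obtain ⟨ℓ, hℓ0', hℓ5, hℓ1'⟩ : ∃ ℓ : ℕ, ℓ0 ≤ ℓ ∧ 5 ≤ ℓ ∧ ℓ1 ≤ ℓ :=
    ⟨max ℓ0 (max 5 ℓ1), le_max_left _ _, (le_max_left _ _).trans (le_max_right _ _),
      (le_max_right _ _).trans (le_max_right _ _)⟩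
  have hℓpos : (0 : ℝ) < ℓ := by
    have : 0 < ℓ := by omega
    exact_mod_cast this
  -- the fourth root
  set R : ℝ := (ℓ : ℝ) ^ (1 / 4 : ℝ) with hR
  have hR0 : 0 < R := Real.rpow_pos_of_pos hℓpos _
  have hBR : B ≤ R := by
    have h1 : B ^ (4 : ℕ) ≤ (ℓ : ℝ) := hℓ1.le.trans (by exact_mod_cast hℓ1')
    have h2 : (B ^ (4 : ℕ)) ^ (1 / 4 : ℝ) ≤ (ℓ : ℝ) ^ (1 / 4 : ℝ) :=
      Real.rpow_le_rpow (by positivity) h1 (by norm_num)
    rw [← Real.rpow_natCast, ← Real.rpow_mul hB0.le] at h2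
    norm_num at h2
    rw [hR]
    norm_num
    exact h2
  have hξ' : (ℓ : ℝ) ^ (-(1 / 4) : ℝ) = 1 / R := by
    rw [Real.rpow_neg hℓpos.le, ← hR, inv_eq_one_div]
  have hξpos : 0 < (ℓ : ℝ) ^ (-(1 / 4) : ℝ) := Real.rpow_pos_of_pos hℓpos _
  have hξη : (ℓ : ℝ) ^ (-(1 / 4) : ℝ) ≤ η / 4 := by
    rw [hξ', div_le_iff₀ hR0]
    have h1 : 4 / η ≤ R := (le_max_right _ _).trans hBR
    rw [div_le_iff₀ hη0] at h1
    linarith
  have hsq : Real.sqrt ℓ = R * R := by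
    rw [hR, ← Real.rpow_add hℓpos, Real.sqrt_eq_rpow]
    norm_num
  have hA : 2 / ((ℓ : ℝ) ^ (-(1 / 4) : ℝ) * Real.sqrt ℓ) ≤ ε / 16 := by
    rw [hξ', hsq]
    have e1 : 1 / R * (R * R) = R := by field_simp
    rw [e1, div_le_iff₀ hR0]
    have h1 : 32 / ε ≤ R := (le_max_left _ _).trans hBR
    rw [div_le_iff₀ hε] at h1
    linarith
  obtain ⟨Jp0, hJp0⟩ := exists_nat_gt (16 * (ℓ : ℝ) / ε)
  obtain ⟨Jp, hJp3, hJp0'⟩ : ∃ Jp : ℕ, 3 ≤ Jp ∧ Jp0 ≤ Jp := ⟨max 3 Jp0, le_max_left _ _, le_max_right _ _⟩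
  have hB : (ℓ : ℝ) / 5 ^ Jp ≤ ε / 16 := by
    have h1 : (Jp : ℝ) ≤ 5 ^ Jp := by
      have : Jp ≤ 5 ^ Jp := (Nat.lt_pow_self (by norm_num)).le
      exact_mod_cast this
    have h2 : 16 * (ℓ : ℝ) / ε ≤ 5 ^ Jp := hJp0.le.trans (le_trans (by exact_mod_cast hJp0') h1)
    rw [div_le_iff₀ hε] at h2
    rw [div_le_iff₀ (by positivity)]
    linarith
  obtain ⟨J0, hJ0⟩ := hℓ0 ℓ hℓ0'
  obtain ⟨J, hJ0', hJJ⟩ : ∃ J : ℕ, J0 ≤ J ∧ Jp + ℓ ≤ J := ⟨max J0 (Jp + ℓ), le_max_left _ _, le_max_right _ _⟩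
  have htail := hJ0 J Jp hJ0' (by omega)
  have hgc' := hgc ℓ J Jp _ τ (η / 4) rfl hℓ5 hJp3 hJJ hτ.le hξ.le (by linarith)
  have hWpos : 0 < Wd ℓ Jp ((primorial ℓ) ^ J) := Wd_pos _ _ _
  have hsplit := W_split2 ℓ Jp ((primorial ℓ) ^ J) hℓ5
  clear hgc hℓ0 hJ0
  generalize hEdef : (primorial ℓ) ^ J = E at *
  set W := Wd ℓ Jp E with hWdef
  set m3 := WA ℓ Jp E with hm3
  have hQ : ∀ q ∈ Q3 m3, q.Prime ∧ q % 4 = 3 ∧ 3 < q := by
    intro q hq
    unfold Q3 at hq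
    rw [mem_filter, Nat.mem_primeFactors] at hq
    exact ⟨hq.1.1, hq.2.1, hq.2.2⟩
  have hm3pos : m3 ≠ 0 := (WA_pos hℓ5).ne'
  have hQmem : ∀ q, q.Prime → q ∣ m3 → q % 4 = 3 → 3 < q → q ∈ Q3 m3 := by
    intro q h1 h2 h3 h4
    unfold Q3
    rw [mem_filter, Nat.mem_primeFactors]
    exact ⟨⟨h1, h2, hm3pos⟩, h3, h4⟩
  -- the choice of the quadruples
  have hwit : ∀ s : ℕ, ∃ v : ℕ × ℕ × ℕ × ℕ,
      (∃ a b c d : ℕ, 2 ≤ b ∧ GoodZ2 (Q3 m3) ((s : ℤ) - kk a b c d)) →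
      Jp ≤ v.2.1 ∧ Jp ≤ v.2.2.2 ∧ GoodZ2 (Q3 m3) ((s : ℤ) - kk v.1 v.2.1 v.2.2.1 v.2.2.2) ∧
      ¬ (5 : ℤ) ∣ (s : ℤ) - kk v.1 v.2.1 v.2.2.1 v.2.2.2 := by
    intro s
    by_cases hs : ∃ a b c d : ℕ, 2 ≤ b ∧ GoodZ2 (Q3 m3) ((s : ℤ) - kk a b c d)
    · obtain ⟨a, b, c, d, h1, h2, h3, h4⟩ := witness2 (Q3 m3) hQ Jp s hs
      exact ⟨(a, b, c, d), fun _ => ⟨h1, h2, h3, h4⟩⟩
    · exact ⟨(0, 0, 0, 0), fun h => absurd h hs⟩
  choose v hv using hwit
  set f : ℕ → ℤ := fun s => (kk (v s).1 (v s).2.1 (v s).2.2.1 (v s).2.2.2 : ℕ) with hf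
  have hcongr : ∀ r : ℕ, ((m3 : ℕ) : ℤ) ∣ (r : ℤ) - ((r % m3 : ℕ) : ℤ) := by
    intro r
    have h1 : ((r % m3 : ℕ) : ℤ) = (r : ℤ) % (m3 : ℤ) := by push_cast; rfl
    rw [h1]
    exact Int.dvd_self_sub_emod
  have hgood : ∀ r s : ℕ, ((m3 : ℕ) : ℤ) ∣ (r : ℤ) - (s : ℤ) →
      (∃ a b c d : ℕ, 2 ≤ b ∧ GoodZ2 (Q3 m3) ((r : ℤ) - kk a b c d)) →
      (∃ a b c d : ℕ, 2 ≤ b ∧ GoodZ2 (Q3 m3) ((s : ℤ) - kk a b c d)) := by
    rintro r s hrs ⟨a, b, c, d, hb, hg⟩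
    refine ⟨a, b, c, d, hb, ?_⟩
    refine ((good_congrA (E := E) hℓ5 hJp3 (z := (r : ℤ) - kk a b c d) (z' := (s : ℤ) - kk a b c d) ?_).1).1 hg
    have e : ((r : ℤ) - kk a b c d) - ((s : ℤ) - kk a b c d) = (r : ℤ) - s := by ring
    rw [e]
    exact hrs
  set Bad : Finset ℕ := (range W).filter (fun r : ℕ =>
      (∃ p : ℕ, p.Prime ∧ p ≤ ℓ ∧ p % 4 = 1 ∧ p ≠ 5 ∧ ((p ^ Jp : ℕ) : ℤ) ∣ (r : ℤ) - f (r % m3)) ∨
      (ℓ : ℝ) ^ (-(1 / 4) : ℝ) < ∑ q ∈ (Qset ℓ E).filter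
        (fun q : ℕ => ¬ (q % 4 = 3 ∧ DW q) ∧ (q : ℤ) ∣ (r : ℤ) - f (r % m3)),
        1 / Real.sqrt q) with hBad
  have hBadc : (Bad.card : ℝ) ≤ ε / 8 * W := by
    have h1 := not_nice2 (ℓ := ℓ) (Jp := Jp) (E := E) hℓ5 (by omega) hξpos f
    have h2 : (W : ℝ) * ((ℓ : ℝ) / 5 ^ Jp + 2 / ((ℓ : ℝ) ^ (-(1 / 4) : ℝ) * Real.sqrt ℓ)) ≤
        W * (ε / 16 + ε / 16) :=
      mul_le_mul_of_nonneg_left (add_le_add hB hA) (by positivity)
    refine h1.trans (h2.trans (le_of_eq ?_))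
    ring
  -- the nice classes
  have hconst : 450 * ((1 + C * τ) * (1 + 4 * (η / 4)) - 1) + τ + ε / 16 ≤ ε / 4 := by
    have h1 : 0 ≤ C * τ := by positivity
    have h2 : (1 + C * τ) * (1 + 4 * (η / 4)) ≤ (1 + η) * (1 + η) :=
      mul_le_mul (by linarith) (by linarith) (by linarith) (by linarith)
    nlinarith
  have hclass : ∀ r ∈ range W, r ∉ Bad →
      ∀ᶠ N : ℕ in atTop, (((range N).filter (fun t => ¬ Rep (r + W * t) ∧
        ∃ a b c d : ℕ, 2 ≤ b ∧ GoodZ2 (Q3 m3) (((r + W * t : ℕ) : ℤ) - kk a b c d))).card : ℝ) ≤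
        ε / 4 * N := by
    intro r hr hrB
    by_cases hg : ∃ a b c d : ℕ, 2 ≤ b ∧ GoodZ2 (Q3 m3) ((r : ℤ) - kk a b c d)
    · have hgs := hgood r (r % m3) (hcongr r) hg
      obtain ⟨h1, h2, h3, h4⟩ := hv (r % m3) hgs
      obtain ⟨z, hz⟩ : ∃ z : ℤ, z = (r : ℤ) -
        kk (v (r % m3)).1 (v (r % m3)).2.1 (v (r % m3)).2.2.1 (v (r % m3)).2.2.2 := ⟨_, rfl⟩
      have hcg := good_congrA (ℓ := ℓ) (Jp := Jp) (E := E) hℓ5 hJp3
        (z := z)
        (z' := ((r % m3 : ℕ) : ℤ) - kk (v (r % m3)).1 (v (r % m3)).2.1 (v (r % m3)).2.2.1 (v (r % m3)).2.2.2)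
        (by
          have e : z -
            (((r % m3 : ℕ) : ℤ) - kk (v (r % m3)).1 (v (r % m3)).2.1 (v (r % m3)).2.2.1 (v (r % m3)).2.2.2) =
            (r : ℤ) - ((r % m3 : ℕ) : ℤ) := by rw [hz]; ring
          rw [e]
          exact hcongr r)
      have hfz : (r : ℤ) - f (r % m3) = z := by rw [hz]
      have hnb := hrB
      rw [hBad, mem_filter, not_and, not_or, hfz] at hnb
      obtain ⟨hnb1, hnb2⟩ := hnb hr
      rw [not_lt] at hnb2
      obtain ⟨g1, g2, g3⟩ := hcg.1.2 h3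
      -- the set `F`
      obtain ⟨F, hF⟩ : ∃ F : Finset ℕ, F = (Qset ℓ E).filter (fun q : ℕ => q % 4 = 3 ∧ (q : ℤ) ∣ z) :=
        ⟨_, rfl⟩
      have hFmem : ∀ q ∈ F, q ∈ Qset ℓ E ∧ q % 4 = 3 ∧ (q : ℤ) ∣ z := by
        intro q hq
        rw [hF, mem_filter] at hq
        exact hq
      have hFDW : ∀ q ∈ F, ¬ DW q := by
        intro q hq hdw
        obtain ⟨q1, q2, q3⟩ := hFmem q hq
        have q4 := Qset_prime' q1
        have q5 : q ∈ Q3 m3 := hQmem q q4.1 (big_dvd_WA q1 ⟨q2, hdw⟩) q2 (by omega)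
        rcases g3 q q5 with h | h
        · exact h q3
        · exact h.1 hdw
      have hFsum : ∑ q ∈ F, 1 / Real.sqrt q ≤ (ℓ : ℝ) ^ (-(1 / 4) : ℝ) := by
        refine le_trans (sum_le_sum_of_subset_of_nonneg ?_ fun q _ _ => by positivity) hnb2
        intro q hq
        obtain ⟨q1, q2, q3⟩ := hFmem q hq
        exact mem_filter.2 ⟨q1, fun h => hFDW q hq h.2, q3⟩
      have hFp : ∀ q ∈ F, q.Prime ∧ ℓ < q := fun q hq => Qset_prime' (hFmem q hq).1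
      obtain ⟨t1, t2⟩ := htail F hFp hFsum
      have hsum1 : ∑ q ∈ (Qset ℓ E).filter (fun q : ℕ => q % 4 = 1 ∧ (q : ℤ) ∣ z), (1 : ℝ) / q ≤
          η / 4 := by
        refine le_trans ?_ (hnb2.trans hξη)
        have s1 : ∑ q ∈ (Qset ℓ E).filter (fun q : ℕ => q % 4 = 1 ∧ (q : ℤ) ∣ z), (1 : ℝ) / q ≤
            ∑ q ∈ (Qset ℓ E).filter (fun q : ℕ => q % 4 = 1 ∧ (q : ℤ) ∣ z), 1 / Real.sqrt q := by
          refine sum_le_sum fun q hq => ?_
          have q1 := Qset_prime' (mem_filter.1 hq).1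
          have q2 : (1 : ℝ) ≤ q := by exact_mod_cast q1.1.one_lt.le
          have q3 : Real.sqrt q ≤ q := by
            rw [Real.sqrt_le_left (by positivity)]
            nlinarith
          exact one_div_le_one_div_of_le (Real.sqrt_pos.2 (by linarith)) q3
        refine s1.trans (sum_le_sum_of_subset_of_nonneg ?_ fun q _ _ => by positivity)
        intro q hq
        obtain ⟨q1, q2, q3⟩ := mem_filter.1 hq
        exact mem_filter.2 ⟨q1, fun h => by omega, q3⟩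
      have key := hgc' r _ _ _ _ z hz h1 h2 F hF t1 t2 g1 g2 (fun h5 => h4 (hcg.2.1 h5))
        (fun q hq hql hq4 hq3 => g3 q (hQmem q hq
          (small_dvd_WA (by omega) hq hql (by omega)) hq4 hq3)) hFDW
        (fun p hp hpl hp4 hp5 hd => hnb1 ⟨p, hp, hpl, hp4, hp5, hd⟩) hsum1 (ε / 16) (by positivity)
      filter_upwards [key] with N hN
      have hle : (((range N).filter (fun t => ¬ Rep (r + W * t) ∧
        ∃ a b c d : ℕ, 2 ≤ b ∧ GoodZ2 (Q3 m3) (((r + W * t : ℕ) : ℤ) - kk a b c d))).card : ℝ) ≤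
        (((range N).filter (fun t => ¬ Rep (r + W * t))).card : ℝ) := by
        have : ((range N).filter (fun t => ¬ Rep (r + W * t) ∧
          ∃ a b c d : ℕ, 2 ≤ b ∧ GoodZ2 (Q3 m3) (((r + W * t : ℕ) : ℤ) - kk a b c d))).card ≤
          ((range N).filter (fun t => ¬ Rep (r + W * t))).card := by
          apply card_le_card
          intro t ht
          rw [mem_filter] at ht ⊢
          exact ⟨ht.1, ht.2.1⟩
        exact_mod_cast this
      refine hle.trans (hN.trans ?_)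
      exact mul_le_mul_of_nonneg_right hconst (by positivity)
    · filter_upwards with N
      have h0 : (range N).filter (fun t => ¬ Rep (r + W * t) ∧
        ∃ a b c d : ℕ, 2 ≤ b ∧ GoodZ2 (Q3 m3) (((r + W * t : ℕ) : ℤ) - kk a b c d)) = ∅ := by
        rw [filter_eq_empty_iff]
        rintro t - ⟨-, h2⟩
        apply hg
        refine hgood (r + W * t) r ?_ h2
        have e : ((r + W * t : ℕ) : ℤ) - (r : ℤ) = (W : ℤ) * t := by push_cast; ring
        rw [e, hsplit.1]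
        push_cast
        exact Dvd.dvd.mul_right (Dvd.intro _ rfl) _
      rw [h0, card_empty, Nat.cast_zero]
      positivity
  have hall : ∀ᶠ N : ℕ in atTop, ∀ r ∈ range W, r ∉ Bad →
      (((range N).filter (fun t => ¬ Rep (r + W * t) ∧
        ∃ a b c d : ℕ, 2 ≤ b ∧ GoodZ2 (Q3 m3) (((r + W * t : ℕ) : ℤ) - kk a b c d))).card : ℝ) ≤
        ε / 4 * N := by
    rw [Filter.eventually_all_finset]
    intro r hr
    by_cases hb : r ∈ Bad
    · filter_upwards with N h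
      exact absurd hb h
    · filter_upwards [hclass r hr hb] with N hN _
      exact hN
  refine ⟨Q3 m3, hQ, ?_⟩
  filter_upwards [(tendsto_div hWpos).eventually hall, eventually_ge_atTop W] with N hN hNW
  have h1 := count_classes hWpos (fun n => ¬ Rep n ∧ ∃ a b c d : ℕ, 2 ≤ b ∧
    GoodZ2 (Q3 m3) ((n : ℤ) - kk a b c d)) Bad N (κ := ε / 4) (β := ε / 8) (by positivity) hBadc hN
  refine h1.trans ?_
  have h2 : (W : ℝ) ≤ N := by exact_mod_cast hNW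
  nlinarith

end H2T
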