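import Pool.Agent.H2T.Defs
import Pool.Agent.H2S.Smooth

/-!
# H2T/Parts: a sum over integers divisible by a prime of `F`

`part P s` = the product of the prime powers of `s` at the primes with property `P`. For `s ≥ 1` write `s = a t m`,
`a = part (· ≤ ℓ) s`, `t = part (· ∈ F) s` (the `q ∈ F` are `> ℓ`), `m = part (ℓ < · ∉ F) s`: the three sets of primes are disjoint and
exhaust all primes. `t > 1` as some `q ∈ F` divides `s`.
* `1 + log (a t m) ≤ (1 + log a)(1 + log t)(1 + log m)` for `a, t, m ≥ 1`. The map `s ↦ (a, t, m)` is injective (`s = a t m`), so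
  the sum is at most `(∑_a (1 + log a)³/a) (∑_t (1 + log t)³/t) (∑_m (1 + log m)³/m²)` over the images of `S`.
* `∑_a ≤ C (log ℓ)^7`: `smooth_sum` (`gpf a ≤ ℓ`, `ℓ ≥ 2`).
* `1 + log m ≤ 6 m^(1/6)`, so `(1 + log m)³/m² ≤ 216 m^(-3/2)`, summable.
* `(1 + log t)³/t ≤ 216 t^(-1/2)`, and the sum of `t^(-1/2)` over `t > 1` with all prime factors in `F` is at most
  `∏_{q ∈ F} (1 - q^(-1/2))⁻¹ - 1` (`EulerProduct.summable_and_hasSum_factoredNumbers_prod_filter_prime_geometric` for the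
  completely multiplicative function `n ↦ n^(-1/2)`, remove the term `t = 1`; compare `H2S/Prod.lean`, `sum_inv_dvd_le`). With
  `x = ∑ q^(-1/2) ≤ 1/4`: `(1 - y)⁻¹ ≤ exp (4 y/3)` for `0 ≤ y ≤ 1/4`, so this is at most `exp (4x/3) - 1 ≤ 2 x`.
-/

namespace H2T

open Finset H2S

/-- the part of `s` at the primes with property `P` -/
def part (P : ℕ → Prop) [DecidablePred P] (s : ℕ) : ℕ := ∏ p ∈ s.primeFactors.filter P, p ^ s.factorization p

private theorem part_pos (P : ℕ → Prop) [DecidablePred P] (s : ℕ) : 1 ≤ part P s :=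
  Finset.prod_pos fun p hp => pow_pos (Nat.prime_of_mem_primeFactors (mem_filter.1 hp).1).pos _

private theorem prime_dvd_part {P : ℕ → Prop} [DecidablePred P] {s r : ℕ} (hr : r.Prime)
    (h : r ∣ part P s) : P r := by
  unfold part at h
  obtain ⟨p, hp, hrp⟩ := (Prime.dvd_finsetProd_iff hr.prime _).1 h
  have h1 := hr.dvd_of_dvd_pow hrp
  have h2 := (mem_filter.1 hp).1
  have h3 := (Nat.prime_dvd_prime_iff_eq hr (Nat.prime_of_mem_primeFactors h2)).1 h1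
  rw [h3]
  exact (mem_filter.1 hp).2

private theorem dvd_part {P : ℕ → Prop} [DecidablePred P] {s q : ℕ} (hs : s ≠ 0) (hq : q.Prime)
    (hqs : q ∣ s) (hP : P q) : q ∣ part P s := by
  unfold part
  have hmem : q ∈ s.primeFactors.filter P :=
    mem_filter.2 ⟨Nat.mem_primeFactors.2 ⟨hq, hqs, hs⟩, hP⟩
  refine dvd_trans ?_ (Finset.dvd_prod_of_mem _ hmem)
  exact dvd_pow_self q (Nat.Prime.factorization_pos_of_dvd hq hs hqs).ne'

private theorem part_mul {ℓ : ℕ} {F : Finset ℕ} (hF : ∀ q ∈ F, ℓ < q) {s : ℕ} (hs : s ≠ 0) :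
    part (fun p => p ≤ ℓ) s * (part (fun p => p ∈ F) s * part (fun p => ℓ < p ∧ p ∉ F) s) = s := by
  have h0 : ∏ p ∈ s.primeFactors, p ^ s.factorization p = s := by
    have := Nat.prod_factorization_pow_eq_self hs
    exact this
  have h1 := Finset.prod_filter_mul_prod_filter_not s.primeFactors (fun p => p ≤ ℓ)
    (fun p => p ^ s.factorization p)
  have h2 := Finset.prod_filter_mul_prod_filter_not (s.primeFactors.filter (fun p => ¬ p ≤ ℓ))
    (fun p => p ∈ F) (fun p => p ^ s.factorization p)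
  have e1 : (s.primeFactors.filter (fun p => ¬ p ≤ ℓ)).filter (fun p => p ∈ F) =
      s.primeFactors.filter (fun p => p ∈ F) := by
    ext p
    simp only [mem_filter]
    constructor
    · exact fun h => ⟨h.1.1, h.2⟩
    · exact fun h => ⟨⟨h.1, not_le.2 (hF p h.2)⟩, h.2⟩
  have e2 : (s.primeFactors.filter (fun p => ¬ p ≤ ℓ)).filter (fun p => ¬ p ∈ F) =
      s.primeFactors.filter (fun p => ℓ < p ∧ p ∉ F) := by
    ext p
    simp only [mem_filter, not_le, and_assoc]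
  rw [e1, e2] at h2
  unfold part
  rw [h2, h1, h0]

private theorem log_mul3 {a t m : ℕ} (ha : 1 ≤ a) (ht : 1 ≤ t) (hm : 1 ≤ m) :
    (1 + Real.log ((a * (t * m) : ℕ) : ℝ)) ^ 3 / (((a * (t * m) : ℕ) : ℝ) * m) ≤
      (1 + Real.log a) ^ 3 / a * ((1 + Real.log t) ^ 3 / t * ((1 + Real.log m) ^ 3 / (m : ℝ) ^ 2)) := by
  have ha' : (1 : ℝ) ≤ a := by exact_mod_cast ha
  have ht' : (1 : ℝ) ≤ t := by exact_mod_cast ht
  have hm' : (1 : ℝ) ≤ m := by exact_mod_cast hm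
  have ha0 : (0 : ℝ) < a := by linarith
  have ht0 : (0 : ℝ) < t := by linarith
  have hm0 : (0 : ℝ) < m := by linarith
  have hla : 0 ≤ Real.log a := Real.log_nonneg ha'
  have hlt : 0 ≤ Real.log t := Real.log_nonneg ht'
  have hlm : 0 ≤ Real.log m := Real.log_nonneg hm'
  push_cast
  rw [Real.log_mul ha0.ne' (by positivity), Real.log_mul ht0.ne' hm0.ne', div_mul_div_comm,
    div_mul_div_comm, ← mul_pow, ← mul_pow]
  have e1 : (a : ℝ) * (t * m) * m = a * (t * (m : ℝ) ^ 2) := by ring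
  rw [e1]
  gcongr
  have h1 : 0 ≤ Real.log t * Real.log m := mul_nonneg hlt hlm
  have h2 : 0 ≤ Real.log a * (Real.log t + Real.log m + Real.log t * Real.log m) :=
    mul_nonneg hla (by linarith)
  nlinarith

private theorem sqrt_inv (q : ℕ) : 1 / Real.sqrt q = (q : ℝ) ^ (-(1 / 2) : ℝ) := by
  rw [Real.rpow_neg (by positivity), ← Real.sqrt_eq_rpow, one_div]

/-- the integers `> 1` with all prime factors in `F` -/
private theorem sum_t {F : Finset ℕ} (hF : ∀ q ∈ F, q.Prime) (hx : ∑ q ∈ F, 1 / Real.sqrt q ≤ 1 / 4)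
    (T : Finset ℕ) (hT : ∀ t ∈ T, t ≠ 0 ∧ t ≠ 1 ∧ ∀ p, p.Prime → p ∣ t → p ∈ F) :
    ∑ t ∈ T, (t : ℝ) ^ (-(1 / 2) : ℝ) ≤ 2 * ∑ q ∈ F, 1 / Real.sqrt q := by
  classical
  have hnn : ∀ q : ℕ, 0 ≤ 1 / Real.sqrt q := fun q => by positivity
  have hlt : ∀ {p : ℕ}, p.Prime → ‖SmoothAux.pw (-(1 / 2)) p‖ < 1 := by
    intro p hp
    rw [SmoothAux.pw_apply, Real.norm_of_nonneg (by positivity)]
    exact Real.rpow_lt_one_of_one_lt_of_neg (by exact_mod_cast hp.one_lt) (by norm_num)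
  have hsum := (EulerProduct.summable_and_hasSum_factoredNumbers_prod_filter_prime_geometric
    (f := SmoothAux.pw (-(1 / 2))) hlt F).2
  have hfil : F.filter Nat.Prime = F := filter_true_of_mem hF
  rw [hfil] at hsum
  have h1T : (1 : ℕ) ∉ T := fun h => (hT 1 h).2.1 rfl
  have hmem : ∀ t ∈ insert 1 T, t ∈ Nat.factoredNumbers F := by
    intro t ht
    rw [Nat.mem_factoredNumbers']
    intro p hp hpt
    rcases mem_insert.1 ht with rfl | ht
    · exact absurd (Nat.dvd_one.1 hpt) hp.ne_one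
    · exact (hT t ht).2.2 p hp hpt
  have e1 : ∑ t ∈ insert 1 T, (t : ℝ) ^ (-(1 / 2) : ℝ) =
      ∑ x ∈ (insert 1 T).subtype (fun q => q ∈ Nat.factoredNumbers F),
        SmoothAux.pw (-(1 / 2)) (x : ℕ) := by
    rw [← Finset.sum_subtype_of_mem (fun q : ℕ => (q : ℝ) ^ (-(1 / 2) : ℝ)) hmem]
    rfl
  have h2 : ∑ t ∈ insert 1 T, (t : ℝ) ^ (-(1 / 2) : ℝ) ≤
      ∏ q ∈ F, (1 - (SmoothAux.pw (-(1 / 2))) q)⁻¹ := by
    rw [e1]
    refine sum_le_hasSum _ (fun x _ => ?_) hsum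
    rw [SmoothAux.pw_apply]
    positivity
  rw [sum_insert h1T] at h2
  have h3 : ((1 : ℕ) : ℝ) ^ (-(1 / 2) : ℝ) = 1 := by simp
  rw [h3] at h2
  have hfac : ∀ q ∈ F, (1 - (SmoothAux.pw (-(1 / 2))) q)⁻¹ ≤ Real.exp (4 / 3 * (1 / Real.sqrt q)) := by
    intro q hq
    rw [SmoothAux.pw_apply, ← sqrt_inv]
    have hy : 1 / Real.sqrt q ≤ 1 / 4 :=
      (single_le_sum (f := fun q : ℕ => 1 / Real.sqrt q) (fun q _ => hnn q) hq).trans hx
    have h4 : (1 - 1 / Real.sqrt q)⁻¹ ≤ 1 + 4 / 3 * (1 / Real.sqrt q) := by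
      rw [inv_le_iff_one_le_mul₀ (by linarith)]
      nlinarith [mul_nonneg (hnn q) (by linarith : 0 ≤ 1 / 4 - 1 / Real.sqrt q)]
    have h5 := Real.add_one_le_exp (4 / 3 * (1 / Real.sqrt q))
    linarith
  have h6 : ∏ q ∈ F, (1 - (SmoothAux.pw (-(1 / 2))) q)⁻¹ ≤
      Real.exp (4 / 3 * ∑ q ∈ F, 1 / Real.sqrt q) := by
    rw [mul_sum, Real.exp_sum]
    refine prod_le_prod (fun q hq => ?_) hfac
    rw [SmoothAux.pw_apply, ← sqrt_inv, inv_nonneg]
    have hy : 1 / Real.sqrt q ≤ 1 / 4 :=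
      (single_le_sum (f := fun q : ℕ => 1 / Real.sqrt q) (fun q _ => hnn q) hq).trans hx
    linarith
  have hx0 : 0 ≤ ∑ q ∈ F, 1 / Real.sqrt q := sum_nonneg fun q _ => hnn q
  obtain ⟨x, hxd⟩ : ∃ x : ℝ, x = ∑ q ∈ F, 1 / Real.sqrt q := ⟨_, rfl⟩
  rw [← hxd] at hx h6 hx0 ⊢
  have h7 : Real.exp (4 / 3 * x) ≤ 1 / (1 - 4 / 3 * x) :=
    Real.exp_bound_div_one_sub_of_interval (by positivity) (by linarith)
  have h8 : 1 / (1 - 4 / 3 * x) ≤ 1 + 2 * x := by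
    rw [div_le_iff₀ (by linarith)]
    nlinarith [mul_nonneg hx0 (by linarith : 0 ≤ 1 / 4 - x)]
  linarith

private theorem summable_m : Summable fun n : ℕ => 216 * (n : ℝ) ^ (-(3 / 2) : ℝ) :=
  (Real.summable_nat_rpow.2 (by norm_num)).mul_left _

private theorem cube_m {m : ℕ} (hm : 1 ≤ m) :
    (1 + Real.log m) ^ 3 / (m : ℝ) ^ 2 ≤ 216 * (m : ℝ) ^ (-(3 / 2) : ℝ) := by
  have hm' : (1 : ℝ) ≤ m := by exact_mod_cast hm
  have hm0 : (0 : ℝ) < m := by linarith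
  have h1 := SmoothAux.cube_le hm (y := 2) (by norm_num)
  have h2 : (m : ℝ) ^ (-(3 / 2) : ℝ) = (m : ℝ) ^ (-1 + 1 / 2 : ℝ) / m := by
    rw [← Real.rpow_sub_one hm0.ne']
    norm_num
  have h3 : (1 + Real.log m) ^ 3 / (m : ℝ) ^ 2 = (1 + Real.log m) ^ 3 / m / m := by
    rw [div_div, pow_two]
  rw [h2, h3, ← mul_div_assoc]
  gcongr
  refine h1.trans (le_of_eq ?_)
  norm_num

private theorem cube_t {t : ℕ} (ht : 1 ≤ t) :
    (1 + Real.log t) ^ 3 / (t : ℝ) ≤ 216 * (t : ℝ) ^ (-(1 / 2) : ℝ) := by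
  have h1 := SmoothAux.cube_le ht (y := 2) (by norm_num)
  refine h1.trans (le_of_eq ?_)
  norm_num

theorem sum_parts : ∃ C : ℝ, 0 < C ∧ ∀ ℓ : ℕ, 2 ≤ ℓ → ∀ F : Finset ℕ, (∀ q ∈ F, q.Prime ∧ ℓ < q) →
    ∑ q ∈ F, 1 / Real.sqrt q ≤ 1 / 4 → ∀ S : Finset ℕ, (∀ s ∈ S, 1 ≤ s ∧ ∃ q ∈ F, q ∣ s) →
    ∑ s ∈ S, (1 + Real.log s) ^ 3 / ((s : ℝ) * part (fun p => ℓ < p ∧ p ∉ F) s) ≤
      C * (Real.log ℓ) ^ 7 * ∑ q ∈ F, 1 / Real.sqrt q := by
  classical
  obtain ⟨C1, hC1, hA⟩ := smooth_sum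
  obtain ⟨C3, hC3⟩ : ∃ C3 : ℝ, C3 = (∑' n : ℕ, 216 * (n : ℝ) ^ (-(3 / 2) : ℝ)) + 1 := ⟨_, rfl⟩
  have hts : 0 ≤ ∑' n : ℕ, 216 * (n : ℝ) ^ (-(3 / 2) : ℝ) := tsum_nonneg fun n => by positivity
  have hC30 : 0 < C3 := by rw [hC3]; linarith
  refine ⟨C1 * 432 * C3, by positivity, fun ℓ hℓ F hF hx S hS => ?_⟩
  have hFl : ∀ q ∈ F, ℓ < q := fun q hq => (hF q hq).2
  have hne : ∀ s ∈ S, s ≠ 0 := fun s hs => by have := (hS s hs).1; omega
  -- the three sums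
  have b1 := hA ℓ hℓ (S.image (part fun p => p ≤ ℓ)) (by
    intro a ha
    obtain ⟨s, hs, rfl⟩ := mem_image.1 ha
    refine ⟨part_pos _ _, ?_⟩
    rw [SmoothAux.gpf_le]
    intro q hq
    exact prime_dvd_part (P := fun p => p ≤ ℓ) (Nat.prime_of_mem_primeFactors hq)
      (Nat.dvd_of_mem_primeFactors hq))
  have b2 : ∑ t ∈ S.image (part fun p => p ∈ F), (1 + Real.log t) ^ 3 / (t : ℝ) ≤
      432 * ∑ q ∈ F, 1 / Real.sqrt q := by
    have h1 := sum_t (fun q hq => (hF q hq).1) hx (S.image (part fun p => p ∈ F)) (by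
      intro t ht
      obtain ⟨s, hs, rfl⟩ := mem_image.1 ht
      have hpos := part_pos (fun p => p ∈ F) s
      refine ⟨by omega, ?_, fun p hp hpt => prime_dvd_part hp hpt⟩
      obtain ⟨q, hq, hqs⟩ := (hS s hs).2
      have h2 := dvd_part (P := fun p => p ∈ F) (hne s hs) (hF q hq).1 hqs hq
      intro h3
      rw [h3] at h2
      exact (hF q hq).1.ne_one (Nat.dvd_one.1 h2))
    calc ∑ t ∈ S.image (part fun p => p ∈ F), (1 + Real.log t) ^ 3 / (t : ℝ)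
        ≤ ∑ t ∈ S.image (part fun p => p ∈ F), 216 * (t : ℝ) ^ (-(1 / 2) : ℝ) := by
          refine sum_le_sum fun t ht => ?_
          obtain ⟨s, hs, rfl⟩ := mem_image.1 ht
          exact cube_t (part_pos _ _)
      _ = 216 * ∑ t ∈ S.image (part fun p => p ∈ F), (t : ℝ) ^ (-(1 / 2) : ℝ) := by
          rw [mul_sum]
      _ ≤ 216 * (2 * ∑ q ∈ F, 1 / Real.sqrt q) := by gcongr
      _ = _ := by ring
  have b3 : ∑ m ∈ S.image (part fun p => ℓ < p ∧ p ∉ F), (1 + Real.log m) ^ 3 / (m : ℝ) ^ 2 ≤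
      C3 := by
    calc ∑ m ∈ S.image (part fun p => ℓ < p ∧ p ∉ F), (1 + Real.log m) ^ 3 / (m : ℝ) ^ 2
        ≤ ∑ m ∈ S.image (part fun p => ℓ < p ∧ p ∉ F), 216 * (m : ℝ) ^ (-(3 / 2) : ℝ) := by
          refine sum_le_sum fun t ht => ?_
          obtain ⟨s, hs, rfl⟩ := mem_image.1 ht
          exact cube_m (part_pos _ _)
      _ ≤ ∑' n : ℕ, 216 * (n : ℝ) ^ (-(3 / 2) : ℝ) :=
          summable_m.sum_le_tsum _ fun n _ => by positivity
      _ ≤ C3 := by rw [hC3]; linarith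
  -- the map to the product
  have hinj : Set.InjOn (fun s : ℕ => (part (fun p => p ≤ ℓ) s, part (fun p => p ∈ F) s,
      part (fun p => ℓ < p ∧ p ∉ F) s)) (S : Set ℕ) := by
    intro s hs s' hs' h
    simp only [Prod.mk.injEq] at h
    obtain ⟨h1, h2, h3⟩ := h
    rw [← part_mul hFl (hne s hs), ← part_mul hFl (hne s' hs'), h1, h2, h3]
  have f1nn : ∀ a ∈ S.image (part fun p => p ≤ ℓ), 0 ≤ (1 + Real.log a) ^ 3 / (a : ℝ) := by
    intro a _
    have := Real.log_natCast_nonneg a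
    positivity
  have f2nn : ∀ a ∈ S.image (part fun p => p ∈ F), 0 ≤ (1 + Real.log a) ^ 3 / (a : ℝ) := by
    intro a _
    have := Real.log_natCast_nonneg a
    positivity
  have f3nn : ∀ a ∈ S.image (part fun p => ℓ < p ∧ p ∉ F),
      0 ≤ (1 + Real.log a) ^ 3 / (a : ℝ) ^ 2 := by
    intro a _
    have := Real.log_natCast_nonneg a
    positivity
  have b4 : ∑ s ∈ S, (1 + Real.log s) ^ 3 / ((s : ℝ) * part (fun p => ℓ < p ∧ p ∉ F) s) ≤
      (∑ a ∈ S.image (part fun p => p ≤ ℓ), (1 + Real.log a) ^ 3 / (a : ℝ)) *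
      ((∑ t ∈ S.image (part fun p => p ∈ F), (1 + Real.log t) ^ 3 / (t : ℝ)) *
        ∑ m ∈ S.image (part fun p => ℓ < p ∧ p ∉ F), (1 + Real.log m) ^ 3 / (m : ℝ) ^ 2) := by
    rw [sum_mul_sum (S.image (part fun p => p ∈ F)), ← sum_product', sum_mul_sum, ← sum_product']
    calc ∑ s ∈ S, (1 + Real.log s) ^ 3 / ((s : ℝ) * part (fun p => ℓ < p ∧ p ∉ F) s)
        ≤ ∑ s ∈ S, (fun x : ℕ × ℕ × ℕ => (1 + Real.log x.1) ^ 3 / (x.1 : ℝ) *
          ((1 + Real.log x.2.1) ^ 3 / (x.2.1 : ℝ) * ((1 + Real.log x.2.2) ^ 3 / (x.2.2 : ℝ) ^ 2)))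
          ((fun s : ℕ => (part (fun p => p ≤ ℓ) s, part (fun p => p ∈ F) s,
            part (fun p => ℓ < p ∧ p ∉ F) s)) s) := by
          refine sum_le_sum fun s hs => ?_
          have h1 := log_mul3 (part_pos (fun p => p ≤ ℓ) s) (part_pos (fun p => p ∈ F) s)
            (part_pos (fun p => ℓ < p ∧ p ∉ F) s)
          rw [part_mul hFl (hne s hs)] at h1
          exact h1
      _ = ∑ x ∈ S.image (fun s : ℕ => (part (fun p => p ≤ ℓ) s, part (fun p => p ∈ F) s,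
            part (fun p => ℓ < p ∧ p ∉ F) s)), (1 + Real.log x.1) ^ 3 / (x.1 : ℝ) *
          ((1 + Real.log x.2.1) ^ 3 / (x.2.1 : ℝ) * ((1 + Real.log x.2.2) ^ 3 / (x.2.2 : ℝ) ^ 2)) := by
          rw [sum_image hinj]
      _ ≤ _ := by
          refine sum_le_sum_of_subset_of_nonneg ?_ ?_
          · intro x hx'
            obtain ⟨s, hs, rfl⟩ := mem_image.1 hx'
            exact mem_product.2 ⟨mem_image_of_mem _ hs, mem_product.2
              ⟨mem_image_of_mem _ hs, mem_image_of_mem _ hs⟩⟩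
          · intro x _ _
            have h1 := Real.log_natCast_nonneg x.1
            have h2 := Real.log_natCast_nonneg x.2.1
            have h3 := Real.log_natCast_nonneg x.2.2
            positivity
  have hlog : 0 ≤ Real.log ℓ := Real.log_natCast_nonneg ℓ
  have hx0 : 0 ≤ ∑ q ∈ F, 1 / Real.sqrt q := sum_nonneg fun q _ => by positivity
  refine b4.trans ?_
  calc _ ≤ (C1 * (Real.log ℓ) ^ 7) * ((432 * ∑ q ∈ F, 1 / Real.sqrt q) * C3) := by
        have s2 := sum_nonneg f2nn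
        have s3 := sum_nonneg f3nn
        gcongr
    _ = _ := by ring

end H2T
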