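import Pool.Agent.H2T.Defs

/-!
# H2T/Shift2: the conditions are periodic in `b` and `d`

`Lper Q = 9 ∏_{q ∈ Q} ((q-1)/2) q²`, an odd number (`q = 3 mod 4`). For `L` a multiple of `Lper Q`:
* modulo 8: `9^(L x) = 25^(L y) = 1`; modulo 27: `9^b = 0 = 9^(b + L x)` as `b ≥ 2`, `25^9 = 1` (so `25^(L y) = 1`);
* modulo `q³`: `9^((q-1)/2) = 3^(q-1) = 1 mod q`, so `9^((q-1)/2 · q²) = 1 mod q³` (`dvd_sub_pow_of_dvd_sub` with `k = 2`, over `ℤ`; or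
  Euler's theorem, `φ(q³) = q² (q-1)`), the same for 25 (`q ≥ 7`).
So `kk a (b + L x) c (d + L y) = kk a b c d` modulo 8, 27 and the `q³`, and `GoodZ2 Q` only depends on these residues.
-/

namespace H2T

open Finset H2S

theorem Lper_odd (Q : Finset ℕ) (hQ : ∀ q ∈ Q, q.Prime ∧ q % 4 = 3 ∧ 3 < q) : Odd (Lper Q) := by
  unfold Lper
  refine Odd.mul (by decide) ?_
  refine Finset.prod_induction _ Odd (fun _ _ => Odd.mul) odd_one ?_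
  intro q hq
  obtain ⟨h1, h2, h3⟩ := hQ q hq
  refine Odd.mul ?_ (Odd.pow ?_)
  · rw [Nat.odd_iff]
    omega
  · rw [Nat.odd_iff]
    omega

/-- congruences modulo 8, 27 and the `q³` preserve `GoodZ2 Q` -/
theorem good_congr2 (Q : Finset ℕ) {z w : ℤ} (h8 : (8 : ℤ) ∣ z - w) (h27 : (27 : ℤ) ∣ z - w)
    (hQ : ∀ q ∈ Q, ((q ^ 3 : ℕ) : ℤ) ∣ z - w) : GoodZ2 Q z ↔ GoodZ2 Q w := by
  have key : ∀ {z w : ℤ}, (8 : ℤ) ∣ z - w → (27 : ℤ) ∣ z - w →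
      (∀ q ∈ Q, ((q ^ 3 : ℕ) : ℤ) ∣ z - w) → GoodZ2 Q z → GoodZ2 Q w := by
    intro z w h8 h27 hQ hz
    obtain ⟨g1, g2, g3⟩ := hz
    refine ⟨by omega, by omega, ?_⟩
    intro q hq
    have h3 := hQ q hq
    have hd2 : ((q ^ 2 : ℕ) : ℤ) ∣ z - w :=
      (Int.natCast_dvd_natCast.2 (pow_dvd_pow q (by norm_num))).trans h3
    have hd1 : (q : ℤ) ∣ z - w :=
      (Int.natCast_dvd_natCast.2 (dvd_pow_self q (by norm_num))).trans h3
    rcases g3 q hq with g | ⟨ga, gb, gc⟩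
    · left
      rwa [← dvd_iff_dvd_of_dvd_sub hd1]
    · right
      refine ⟨ga, ?_, ?_⟩
      · rwa [← dvd_iff_dvd_of_dvd_sub hd2]
      · rwa [← dvd_iff_dvd_of_dvd_sub h3]
  refine ⟨key h8 h27 hQ, key ?_ ?_ ?_⟩
  · rw [← neg_sub]
    exact h8.neg_right
  · rw [← neg_sub]
    exact h27.neg_right
  · intro q hq
    rw [← neg_sub]
    exact (hQ q hq).neg_right

private theorem pow_sub_one_dvd {m u : ℤ} {k n : ℕ} (h : m ∣ u ^ k - 1) (hk : k ∣ n) :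
    m ∣ u ^ n - 1 := by
  obtain ⟨j, rfl⟩ := hk
  rw [pow_mul]
  have h1 := sub_dvd_pow_sub_pow (u ^ k) 1 j
  rw [one_pow] at h1
  exact h.trans h1

private theorem kk_diff (a b c d s t : ℕ) : (kk a (b + s) c (d + t) : ℤ) - kk a b c d =
    4 ^ a * 9 ^ b * (9 ^ s - 1) + 4 ^ c * 25 ^ d * (25 ^ t - 1) := by
  have h4 : ∀ n : ℕ, (4 : ℤ) ^ n = (2 ^ n) ^ 2 := fun n => by
    rw [← pow_mul, mul_comm, pow_mul]; norm_num
  have h9 : ∀ n : ℕ, (9 : ℤ) ^ n = (3 ^ n) ^ 2 := fun n => by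
    rw [← pow_mul, mul_comm, pow_mul]; norm_num
  have h25 : ∀ n : ℕ, (25 : ℤ) ^ n = (5 ^ n) ^ 2 := fun n => by
    rw [← pow_mul, mul_comm, pow_mul]; norm_num
  unfold kk
  push_cast
  rw [h4, h4, h9, h9, h25, h25, pow_add, pow_add]
  ring

private theorem euler3 {q : ℕ} (hq : q.Prime) (h3 : q % 4 = 3) {e : ℕ} (he : Nat.Coprime e q) :
    ((q ^ 3 : ℕ) : ℤ) ∣ ((e : ℤ) ^ 2) ^ ((q - 1) / 2 * q ^ 2) - 1 := by
  have h1 : Nat.Coprime e (q ^ 3) := he.pow_right 3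
  have h2 := Nat.ModEq.pow_totient h1
  rw [Nat.totient_prime_pow hq (by norm_num)] at h2
  have h4 : (q - 1) / 2 * 2 = q - 1 := by omega
  have h5 : ((e : ℤ) ^ 2) ^ ((q - 1) / 2 * q ^ 2) = ((e ^ (q ^ (3 - 1) * (q - 1)) : ℕ) : ℤ) := by
    push_cast
    rw [← pow_mul]
    congr 1
    calc 2 * ((q - 1) / 2 * q ^ 2) = q ^ 2 * ((q - 1) / 2 * 2) := by ring
      _ = q ^ (3 - 1) * (q - 1) := by rw [h4]
  rw [h5]
  have h6 := (Nat.modEq_iff_dvd.1 h2.symm)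
  push_cast at h6 ⊢
  exact h6

theorem kk_shift (Q : Finset ℕ) (hQ : ∀ q ∈ Q, q.Prime ∧ q % 4 = 3 ∧ 3 < q) {L : ℕ} (hL : Lper Q ∣ L) {a b c d : ℕ}
    (hb : 2 ≤ b) (x y : ℕ) :
    (8 : ℤ) ∣ (kk a (b + L * x) c (d + L * y) : ℤ) - kk a b c d ∧
      (27 : ℤ) ∣ (kk a (b + L * x) c (d + L * y) : ℤ) - kk a b c d ∧
      ∀ q ∈ Q, ((q ^ 3 : ℕ) : ℤ) ∣ (kk a (b + L * x) c (d + L * y) : ℤ) - kk a b c d := by
  rw [kk_diff]
  have h9 : 9 ∣ L := (Dvd.intro _ rfl).trans hL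
  refine ⟨?_, ?_, ?_⟩
  · have h1 : (8 : ℤ) ∣ 9 ^ (L * x) - 1 :=
      pow_sub_one_dvd (k := 1) (by norm_num) (one_dvd _)
    have h2 : (8 : ℤ) ∣ 25 ^ (L * y) - 1 :=
      pow_sub_one_dvd (k := 1) (by norm_num) (one_dvd _)
    exact dvd_add (h1.mul_left _) (h2.mul_left _)
  · have h1 : (27 : ℤ) ∣ 9 ^ b := by
      have : (27 : ℤ) ∣ 9 ^ 2 := by norm_num
      exact this.trans (pow_dvd_pow 9 hb)
    have h2 : (27 : ℤ) ∣ 25 ^ (L * y) - 1 :=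
      pow_sub_one_dvd (k := 9) (by norm_num) (h9.mul_right y)
    exact dvd_add ((h1.mul_left _).mul_right _) (h2.mul_left _)
  · intro q hq
    obtain ⟨g1, g2, g3⟩ := hQ q hq
    have hdiv : (q - 1) / 2 * q ^ 2 ∣ L := by
      refine Dvd.dvd.trans ?_ hL
      exact (Finset.dvd_prod_of_mem (fun q => (q - 1) / 2 * q ^ 2) hq).mul_left 9
    have c3 : Nat.Coprime 3 q := by
      rw [Nat.coprime_primes Nat.prime_three g1]
      omega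
    have c5 : Nat.Coprime 5 q := by
      rw [Nat.coprime_primes Nat.prime_five g1]
      omega
    have e3 := euler3 g1 g2 c3
    have e5 := euler3 g1 g2 c5
    have f3 : ((3 : ℕ) : ℤ) ^ 2 = 9 := by norm_num
    have f5 : ((5 : ℕ) : ℤ) ^ 2 = 25 := by norm_num
    rw [f3] at e3
    rw [f5] at e5
    have h1 := pow_sub_one_dvd e3 (hdiv.mul_right x)
    have h2 := pow_sub_one_dvd e5 (hdiv.mul_right y)
    exact dvd_add (h1.mul_left _) (h2.mul_left _)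

theorem good_shift (Q : Finset ℕ) (hQ : ∀ q ∈ Q, q.Prime ∧ q % 4 = 3 ∧ 3 < q) {L : ℕ} (hL : Lper Q ∣ L) {n : ℤ}
    {a b c d : ℕ} (hb : 2 ≤ b) (x y : ℕ) :
    GoodZ2 Q (n - kk a (b + L * x) c (d + L * y)) ↔ GoodZ2 Q (n - kk a b c d) := by
  obtain ⟨h1, h2, h3⟩ := kk_shift Q hQ hL (a := a) (c := c) (d := d) hb x y
  have e : (n - kk a (b + L * x) c (d + L * y)) - (n - kk a b c d) =
      -((kk a (b + L * x) c (d + L * y) : ℤ) - kk a b c d) := by ring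
  apply good_congr2
  · rw [e]
    exact h1.neg_right
  · rw [e]
    exact h2.neg_right
  · intro q hq
    rw [e]
    exact (h3 q hq).neg_right

end H2T
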