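import Pool.Agent.H2T.Parts
import Pool.Agent.H2S.OrdSum

/-!
# H2T/TailF: the Romanoff sum over the primes whose order is divisible by a prime of `F`

For `p ∈ T` put `s = orderOf (g : ZMod p) ≥ 1` (`p ∤ g`), `E' = EF E F = (primorial ℓ)^J ∏_{q ∈ F} q²`. All prime factors of `E'` are
`≤ ℓ` or in `F`, so `m = part (ℓ < · ∉ F) s` is coprime to `E'`, hence `m · gcd(s, E')` divides `s` and
`orderOf (g^E') = s / gcd(s, E') ≥ m` (`orderOf_pow`). Group the `p ∈ T` by `s` (a finite set `S` of `s`, each divisible by some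
`q ∈ F`; `Finset.sum_fiberwise_of_maps_to`, as in the proof of `H2S.tail` in `Pool/Agent/H2S/Tail.lean`): by `ord_sum g` the sum is at most
`∑_{s ∈ S} C (1 + log s)³/(s m(s))`; now `sum_parts`.
-/

namespace H2T

open Finset H2S

private theorem wt_nonnegTF (q : ℕ) : 0 ≤ wt q := by
  unfold wt
  positivity

private theorem order_posTF {g q : ℕ} (hq : q.Prime) (hg : ¬ q ∣ g) :
    0 < orderOf (g : ZMod q) := by
  haveI := Fact.mk hq
  rw [orderOf_pos_iff, isOfFinOrder_iff_pow_eq_one]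
  refine ⟨q - 1, ?_, ZMod.pow_card_sub_one_eq_one ?_⟩
  · have := hq.two_le
    omega
  · intro h
    exact hg ((ZMod.natCast_eq_zero_iff g q).1 h)

private theorem dvd_primorialTF {p ℓ : ℕ} (hp : p.Prime) : p ∣ primorial ℓ ↔ p ≤ ℓ := by
  unfold primorial
  rw [Prime.dvd_finset_prod_iff hp.prime]
  constructor
  · rintro ⟨r, hr, hpr⟩
    rw [Finset.mem_filter, Finset.mem_range] at hr
    rw [Nat.prime_dvd_prime_iff_eq hp hr.2] at hpr
    omega
  · intro h
    exact ⟨p, Finset.mem_filter.2 ⟨Finset.mem_range.2 (by omega), hp⟩, dvd_rfl⟩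

private theorem part_dvdTF (P : ℕ → Prop) [DecidablePred P] {s : ℕ} (hs : s ≠ 0) : part P s ∣ s := by
  unfold part
  have h1 : ∏ p ∈ s.primeFactors, p ^ s.factorization p = s := by
    have h := Nat.prod_factorization_pow_eq_self hs
    rw [Finsupp.prod, Nat.support_factorization] at h
    exact h
  have h2 : (∏ p ∈ s.primeFactors.filter P, p ^ s.factorization p) ∣
      ∏ p ∈ s.primeFactors, p ^ s.factorization p :=
    Finset.prod_dvd_prod_of_subset _ _ _ (Finset.filter_subset _ _)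
  rwa [h1] at h2

private theorem part_posTF (P : ℕ → Prop) [DecidablePred P] (s : ℕ) : 0 < part P s := by
  unfold part
  apply Finset.prod_pos
  intro p hp
  exact Nat.pow_pos (Nat.prime_of_mem_primeFactors (Finset.mem_filter.1 hp).1).pos

private theorem EF_posTF {ℓ J : ℕ} {F : Finset ℕ} (hF : ∀ q ∈ F, q.Prime ∧ ℓ < q) :
    EF ((primorial ℓ) ^ J) F ≠ 0 := by
  unfold EF
  refine mul_ne_zero (pow_ne_zero _ (primorial_pos ℓ).ne') ?_
  rw [Finset.prod_ne_zero_iff]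
  intro q hq
  exact pow_ne_zero _ (hF q hq).1.ne_zero

private theorem order_geTF {g p ℓ J : ℕ} (hp : p.Prime) (hg : ¬ p ∣ g) {F : Finset ℕ}
    (hF : ∀ q ∈ F, q.Prime ∧ ℓ < q) :
    part (fun p => ℓ < p ∧ p ∉ F) (orderOf (g : ZMod p)) ≤
      orderOf ((g : ZMod p) ^ EF ((primorial ℓ) ^ J) F) := by
  have hs := order_posTF hp hg
  have hE := EF_posTF (J := J) hF
  rw [orderOf_pow' _ hE]
  generalize orderOf (g : ZMod p) = s at *
  have h1 := part_dvdTF (fun p => ℓ < p ∧ p ∉ F) hs.ne'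
  have h2 : s.gcd (EF ((primorial ℓ) ^ J) F) ∣ s := Nat.gcd_dvd_left _ _
  have h3 : Nat.Coprime (part (fun p => ℓ < p ∧ p ∉ F) s) (EF ((primorial ℓ) ^ J) F) := by
    unfold part
    apply Nat.Coprime.prod_left
    intro r hr
    rw [Finset.mem_filter] at hr
    obtain ⟨hr1, hr2, hr3⟩ := hr
    have hrp := Nat.prime_of_mem_primeFactors hr1
    apply Nat.Coprime.pow_left
    rw [hrp.coprime_iff_not_dvd]
    intro h4
    unfold EF at h4
    rcases hrp.dvd_mul.1 h4 with h5 | h5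
    · have h6 := (dvd_primorialTF hrp).1 (hrp.dvd_of_dvd_pow h5)
      omega
    · rw [Prime.dvd_finset_prod_iff hrp.prime] at h5
      obtain ⟨q, hq, h6⟩ := h5
      have h7 := (Nat.prime_dvd_prime_iff_eq hrp (hF q hq).1).1 (hrp.dvd_of_dvd_pow h6)
      rw [h7] at hr3
      exact hr3 hq
  have h4 : Nat.Coprime (part (fun p => ℓ < p ∧ p ∉ F) s) (s.gcd (EF ((primorial ℓ) ^ J) F)) :=
    Nat.Coprime.coprime_dvd_right (Nat.gcd_dvd_right _ _) h3
  have h5 := h4.mul_dvd_of_dvd_of_dvd h1 h2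
  rw [Nat.le_div_iff_mul_le (Nat.gcd_pos_of_pos_left _ hs)]
  exact Nat.le_of_dvd hs h5

theorem tailF (g : ℕ) (hg : 2 ≤ g) : ∃ C : ℝ, 0 < C ∧ ∀ ℓ J : ℕ, 2 ≤ ℓ → ∀ F : Finset ℕ,
    (∀ q ∈ F, q.Prime ∧ ℓ < q) → ∑ q ∈ F, 1 / Real.sqrt q ≤ 1 / 4 → ∀ T : Finset ℕ,
    (∀ p ∈ T, p.Prime ∧ ¬ p ∣ g ∧ ∃ q ∈ F, q ∣ orderOf (g : ZMod p)) →
    ∑ p ∈ T, wt p / (orderOf ((g : ZMod p) ^ EF ((primorial ℓ) ^ J) F) : ℝ) ≤
      C * (Real.log ℓ) ^ 7 * ∑ q ∈ F, 1 / Real.sqrt q := by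
  classical
  obtain ⟨C1, hC1, hord⟩ := ord_sum g hg
  obtain ⟨C2, hC2, hparts⟩ := sum_parts
  refine ⟨C1 * C2, by positivity, fun ℓ J hℓ F hF hsum T hT => ?_⟩
  have e1 : ∀ p ∈ T, wt p / (orderOf ((g : ZMod p) ^ EF ((primorial ℓ) ^ J) F) : ℝ) ≤
      wt p / (part (fun p => ℓ < p ∧ p ∉ F) (orderOf (g : ZMod p)) : ℝ) := by
    intro p hp
    obtain ⟨hpp, hpg, _⟩ := hT p hp
    apply div_le_div_of_nonneg_left (wt_nonnegTF p)
    · exact_mod_cast part_posTF _ _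
    · exact_mod_cast order_geTF (J := J) hpp hpg hF
  refine (Finset.sum_le_sum e1).trans ?_
  rw [← Finset.sum_fiberwise_of_maps_to (s := T)
    (t := T.image (fun p => orderOf (g : ZMod p))) (g := fun p => orderOf (g : ZMod p))
    (fun p hp => Finset.mem_image_of_mem _ hp)]
  have e2 : ∀ s ∈ T.image (fun p => orderOf (g : ZMod p)),
      ∑ p ∈ T.filter (fun p => orderOf (g : ZMod p) = s),
        wt p / (part (fun p => ℓ < p ∧ p ∉ F) (orderOf (g : ZMod p)) : ℝ) ≤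
        C1 * ((1 + Real.log s) ^ 3 / ((s : ℝ) * part (fun p => ℓ < p ∧ p ∉ F) s)) := by
    intro s hs
    rw [Finset.mem_image] at hs
    obtain ⟨p0, hp0, hp0s⟩ := hs
    have hs1 : 1 ≤ s := by
      rw [← hp0s]
      exact order_posTF (hT p0 hp0).1 (hT p0 hp0).2.1
    have hm : (0 : ℝ) < part (fun p => ℓ < p ∧ p ∉ F) s := by
      exact_mod_cast part_posTF _ _
    have e3 : ∑ p ∈ T.filter (fun p => orderOf (g : ZMod p) = s),
        wt p / (part (fun p => ℓ < p ∧ p ∉ F) (orderOf (g : ZMod p)) : ℝ) =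
        (∑ p ∈ T.filter (fun p => orderOf (g : ZMod p) = s), wt p) /
          (part (fun p => ℓ < p ∧ p ∉ F) s : ℝ) := by
      rw [Finset.sum_div]
      refine Finset.sum_congr rfl fun p hp => ?_
      rw [(Finset.mem_filter.1 hp).2]
    rw [e3]
    have e4 := hord s hs1 (T.filter (fun p => orderOf (g : ZMod p) = s)) (fun p hp => by
      rw [Finset.mem_filter] at hp
      exact ⟨(hT p hp.1).1, (hT p hp.1).2.1, hp.2⟩)
    calc _ ≤ C1 * (1 + Real.log s) ^ 3 / s / (part (fun p => ℓ < p ∧ p ∉ F) s : ℝ) :=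
          div_le_div_of_nonneg_right e4 hm.le
      _ = _ := by
          rw [div_div, mul_div_assoc]
  refine (Finset.sum_le_sum e2).trans ?_
  rw [← Finset.mul_sum]
  have e5 := hparts ℓ hℓ F hF hsum (T.image (fun p => orderOf (g : ZMod p))) (by
    intro s hs
    rw [Finset.mem_image] at hs
    obtain ⟨p0, hp0, hp0s⟩ := hs
    rw [← hp0s]
    exact ⟨order_posTF (hT p0 hp0).1 (hT p0 hp0).2.1, (hT p0 hp0).2.2⟩)
  calc _ ≤ C1 * (C2 * (Real.log ℓ) ^ 7 * ∑ q ∈ F, 1 / Real.sqrt q) :=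
        mul_le_mul_of_nonneg_left e5 hC1.le
    _ = _ := by ring

end H2T
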