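import Pool.Agent.H2T.Tune

/-!
# H2T/TuneF: tuning at several primes at once

For `q ∈ F` let `(x_q, y_q)` be given by `tune` with `T = E`. By the Chinese remainder theorem (the `q²` are pairwise coprime) choose
`x = x_q mod q²`, `y = y_q mod q²` for all `q ∈ F` (e.g. `Nat.chineseRemainderOfFinset`, or induction on `F`). Modulo `q³` the
number `9^(E x)` only depends on `x` modulo `q²`: `9^(E q²) = 1 mod q³` by `pow_sq` (`u = 9^E`), the same for 25. So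
`n - kk a (b + E x) c (d + E y) = n - kk a (b + E x_q) c (d + E y_q) mod q³`, and `GoodQ q` only depends on `z` modulo `q³`
(`goodQ_congr`).
-/

namespace H2T

open Finset H2S

theorem goodQ_congr {q : ℕ} {z w : ℤ} (h : ((q ^ 3 : ℕ) : ℤ) ∣ z - w) : GoodQ q z ↔ GoodQ q w := by
  have key : ∀ c : ℤ, c ∣ ((q ^ 3 : ℕ) : ℤ) → (c ∣ z ↔ c ∣ w) := by
    intro c hc
    have h1 := hc.trans h
    constructor
    · intro hz
      have := dvd_sub hz h1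
      rwa [sub_sub_cancel] at this
    · intro hw
      have := dvd_add hw h1
      rwa [add_sub_cancel] at this
  have k1 := key (q : ℤ) (by
    push_cast
    exact dvd_pow_self _ (by norm_num))
  have k2 := key ((q ^ 2 : ℕ) : ℤ) (by
    push_cast
    exact pow_dvd_pow _ (by norm_num))
  have k3 := key ((q ^ 3 : ℕ) : ℤ) dvd_rfl
  unfold GoodQ
  rw [k1, k2, k3]

private theorem pow_congr {q : ℕ} {u : ℤ} (hu : (q : ℤ) ∣ u - 1) {x x' : ℕ}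
    (h : x ≡ x' [MOD q ^ 2]) : ((q ^ 3 : ℕ) : ℤ) ∣ u ^ x - u ^ x' := by
  have main : ∀ a b : ℕ, a ≤ b → a ≡ b [MOD q ^ 2] → ((q ^ 3 : ℕ) : ℤ) ∣ u ^ b - u ^ a := by
    intro a b hab hm
    obtain ⟨k, hk⟩ := (Nat.modEq_iff_dvd' hab).1 hm
    have h1 : b = a + q ^ 2 * k := by omega
    have h2 : u ^ b - u ^ a = u ^ a * (u ^ (q ^ 2 * k) - 1) := by
      rw [h1, pow_add]; ring
    rw [h2]
    exact Dvd.dvd.mul_left (pow_sq hu k) _
  rcases le_total x x' with h1 | h1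
  · have := main x x' h1 h
    rw [← neg_sub]
    exact (dvd_neg).2 this
  · exact main x' x h1 h.symm

private theorem cast_dvd {q B E : ℕ} (hB : 1 ≤ B) (h : q ∣ B ^ E - 1) :
    (q : ℤ) ∣ ((B : ℤ) ^ E) - 1 := by
  have h1 : ((B ^ E - 1 : ℕ) : ℤ) = (B : ℤ) ^ E - 1 := by
    rw [Nat.cast_sub (Nat.one_le_pow _ _ hB)]
    push_cast
    rfl
  rw [← h1]
  exact_mod_cast h

private theorem kk_int (a b c d E x y : ℕ) : ((kk a (b + E * x) c (d + E * y) : ℕ) : ℤ) =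
    4 ^ a * 9 ^ b * ((9 : ℤ) ^ E) ^ x + 4 ^ c * 25 ^ d * ((25 : ℤ) ^ E) ^ y := by
  unfold kk
  push_cast
  have e4 : ∀ k : ℕ, (4 : ℤ) ^ k = (2 ^ k) ^ 2 := by
    intro k; rw [← pow_mul, mul_comm, pow_mul]; norm_num
  have e9 : ∀ k : ℕ, (9 : ℤ) ^ k = (3 ^ k) ^ 2 := by
    intro k; rw [← pow_mul, mul_comm, pow_mul]; norm_num
  have e25 : ∀ k : ℕ, (25 : ℤ) ^ k = (5 ^ k) ^ 2 := by
    intro k; rw [← pow_mul, mul_comm, pow_mul]; norm_num
  rw [← pow_mul, ← pow_mul, e4, e4, e9, e9, e25, e25, pow_add, pow_add]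
  ring

theorem tuneF {E : ℕ} (F : Finset ℕ)
    (hF : ∀ q ∈ F, q.Prime ∧ 5 < q ∧ ¬ DW q ∧ ¬ q ∣ E ∧ q ∣ 9 ^ E - 1 ∧ q ∣ 25 ^ E - 1)
    (n : ℤ) (a b c d : ℕ) (hz : ∀ q ∈ F, (q : ℤ) ∣ n - kk a b c d) :
    ∃ x y : ℕ, ∀ q ∈ F, GoodQ q (n - kk a (b + E * x) c (d + E * y)) := by
  classical
  have hex : ∀ q : ℕ, ∃ p : ℕ × ℕ, q ∈ F → GoodQ q (n - kk a (b + E * p.1) c (d + E * p.2)) := by
    intro q
    by_cases hq : q ∈ F
    · obtain ⟨h1, h2, h3, h4, h5, h6⟩ := hF q hq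
      obtain ⟨x, y, h⟩ := tune h1 h2 h3 h4 h5 h6 n a b c d (hz q hq)
      exact ⟨(x, y), fun _ => h⟩
    · exact ⟨(0, 0), fun h => absurd h hq⟩
  choose p hp using hex
  have hne : ∀ q ∈ F, q ^ 2 ≠ 0 := fun q hq => pow_ne_zero _ (hF q hq).1.ne_zero
  have hcop : Set.Pairwise (F : Set ℕ) (Function.onFun Nat.Coprime fun q => q ^ 2) := by
    intro q hq r hr hqr
    exact Nat.Coprime.pow _ _ ((Nat.coprime_primes (hF q hq).1 (hF r hr).1).2 hqr)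
  obtain ⟨x, hx⟩ := Nat.chineseRemainderOfFinset (fun q => (p q).1) (fun q => q ^ 2) F hne hcop
  obtain ⟨y, hy⟩ := Nat.chineseRemainderOfFinset (fun q => (p q).2) (fun q => q ^ 2) F hne hcop
  refine ⟨x, y, fun q hq => ?_⟩
  obtain ⟨-, -, -, -, h9, h25⟩ := hF q hq
  refine (goodQ_congr ?_).2 (hp q hq)
  have g1 := pow_congr (cast_dvd (by norm_num) h9) (hx q hq)
  have g2 := pow_congr (cast_dvd (by norm_num) h25) (hy q hq)
  have g3 : (n - (kk a (b + E * x) c (d + E * y) : ℕ) : ℤ) -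
      (n - (kk a (b + E * (p q).1) c (d + E * (p q).2) : ℕ)) =
      -(4 ^ a * 9 ^ b * (((9 : ℤ) ^ E) ^ x - ((9 : ℤ) ^ E) ^ (p q).1) +
        4 ^ c * 25 ^ d * (((25 : ℤ) ^ E) ^ y - ((25 : ℤ) ^ E) ^ (p q).2)) := by
    rw [kk_int, kk_int]
    ring
  rw [g3]
  exact (dvd_neg).2 (dvd_add (Dvd.dvd.mul_left g1 _) (Dvd.dvd.mul_left g2 _))

end H2T
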