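import Pool.Agent.H2T.WDef

/-!
# H2T/WChk1: the kernel test for the `m = 11 + 4 i`, `312960 ≤ i < 625920`
-/

namespace H2T

namespace WC

set_option maxRecDepth 100000 in
theorem w1_0 : run (11 + 4 * 312960) 489 = true := by decide +kernel

set_option maxRecDepth 100000 in
theorem w1_1 : run (11 + 4 * 344256) 489 = true := by decide +kernel

set_option maxRecDepth 100000 in
theorem w1_2 : run (11 + 4 * 375552) 489 = true := by decide +kernel

set_option maxRecDepth 100000 in
theorem w1_3 : run (11 + 4 * 406848) 489 = true := by decide +kernel

set_option maxRecDepth 100000 in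
theorem w1_4 : run (11 + 4 * 438144) 489 = true := by decide +kernel

set_option maxRecDepth 100000 in
theorem w1_5 : run (11 + 4 * 469440) 489 = true := by decide +kernel

set_option maxRecDepth 100000 in
theorem w1_6 : run (11 + 4 * 500736) 489 = true := by decide +kernel

set_option maxRecDepth 100000 in
theorem w1_7 : run (11 + 4 * 532032) 489 = true := by decide +kernel

set_option maxRecDepth 100000 in
theorem w1_8 : run (11 + 4 * 563328) 489 = true := by decide +kernel

set_option maxRecDepth 100000 in
theorem w1_9 : run (11 + 4 * 594624) 489 = true := by decide +kernel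

theorem w1 (i : ℕ) (h1 : 312960 ≤ i) (h2 : i < 625920) : leaf (11 + 4 * i) = true := by
  by_cases g0 : i < 344256
  · exact run_range 312960 489 w1_0 i (by omega) (by omega)
  by_cases g1 : i < 375552
  · exact run_range 344256 489 w1_1 i (by omega) (by omega)
  by_cases g2 : i < 406848
  · exact run_range 375552 489 w1_2 i (by omega) (by omega)
  by_cases g3 : i < 438144
  · exact run_range 406848 489 w1_3 i (by omega) (by omega)
  by_cases g4 : i < 469440
  · exact run_range 438144 489 w1_4 i (by omega) (by omega)
  by_cases g5 : i < 500736
  · exact run_range 469440 489 w1_5 i (by omega) (by omega)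
  by_cases g6 : i < 532032
  · exact run_range 500736 489 w1_6 i (by omega) (by omega)
  by_cases g7 : i < 563328
  · exact run_range 532032 489 w1_7 i (by omega) (by omega)
  by_cases g8 : i < 594624
  · exact run_range 563328 489 w1_8 i (by omega) (by omega)
  exact run_range 594624 489 w1_9 i (by omega) (by omega)

end WC

end H2T
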