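import Pool.Agent.H2T.WDef

/-!
# H2T/WChk2: the kernel test for the `m = 11 + 4 i`, `625920 ≤ i < 938880`
-/

namespace H2T

namespace WC

set_option maxRecDepth 100000 in
theorem w2_0 : run (11 + 4 * 625920) 489 = true := by decide +kernel

set_option maxRecDepth 100000 in
theorem w2_1 : run (11 + 4 * 657216) 489 = true := by decide +kernel

set_option maxRecDepth 100000 in
theorem w2_2 : run (11 + 4 * 688512) 489 = true := by decide +kernel

set_option maxRecDepth 100000 in
theorem w2_3 : run (11 + 4 * 719808) 489 = true := by decide +kernel

set_option maxRecDepth 100000 in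
theorem w2_4 : run (11 + 4 * 751104) 489 = true := by decide +kernel

set_option maxRecDepth 100000 in
theorem w2_5 : run (11 + 4 * 782400) 489 = true := by decide +kernel

set_option maxRecDepth 100000 in
theorem w2_6 : run (11 + 4 * 813696) 489 = true := by decide +kernel

set_option maxRecDepth 100000 in
theorem w2_7 : run (11 + 4 * 844992) 489 = true := by decide +kernel

set_option maxRecDepth 100000 in
theorem w2_8 : run (11 + 4 * 876288) 489 = true := by decide +kernel

set_option maxRecDepth 100000 in
theorem w2_9 : run (11 + 4 * 907584) 489 = true := by decide +kernel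

theorem w2 (i : ℕ) (h1 : 625920 ≤ i) (h2 : i < 938880) : leaf (11 + 4 * i) = true := by
  by_cases g0 : i < 657216
  · exact run_range 625920 489 w2_0 i (by omega) (by omega)
  by_cases g1 : i < 688512
  · exact run_range 657216 489 w2_1 i (by omega) (by omega)
  by_cases g2 : i < 719808
  · exact run_range 688512 489 w2_2 i (by omega) (by omega)
  by_cases g3 : i < 751104
  · exact run_range 719808 489 w2_3 i (by omega) (by omega)
  by_cases g4 : i < 782400
  · exact run_range 751104 489 w2_4 i (by omega) (by omega)
  by_cases g5 : i < 813696
  · exact run_range 782400 489 w2_5 i (by omega) (by omega)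
  by_cases g6 : i < 844992
  · exact run_range 813696 489 w2_6 i (by omega) (by omega)
  by_cases g7 : i < 876288
  · exact run_range 844992 489 w2_7 i (by omega) (by omega)
  by_cases g8 : i < 907584
  · exact run_range 876288 489 w2_8 i (by omega) (by omega)
  exact run_range 907584 489 w2_9 i (by omega) (by omega)

end WC

end H2T
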