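import Pool.Agent.H2T.WDef

/-!
# H2T/WChk3: the kernel test for the `m = 11 + 4 i`, `938880 ≤ i < 1251840`
-/

namespace H2T

namespace WC

set_option maxRecDepth 100000 in
theorem w3_0 : run (11 + 4 * 938880) 489 = true := by decide +kernel

set_option maxRecDepth 100000 in
theorem w3_1 : run (11 + 4 * 970176) 489 = true := by decide +kernel

set_option maxRecDepth 100000 in
theorem w3_2 : run (11 + 4 * 1001472) 489 = true := by decide +kernel

set_option maxRecDepth 100000 in
theorem w3_3 : run (11 + 4 * 1032768) 489 = true := by decide +kernel

set_option maxRecDepth 100000 in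
theorem w3_4 : run (11 + 4 * 1064064) 489 = true := by decide +kernel

set_option maxRecDepth 100000 in
theorem w3_5 : run (11 + 4 * 1095360) 489 = true := by decide +kernel

set_option maxRecDepth 100000 in
theorem w3_6 : run (11 + 4 * 1126656) 489 = true := by decide +kernel

set_option maxRecDepth 100000 in
theorem w3_7 : run (11 + 4 * 1157952) 489 = true := by decide +kernel

set_option maxRecDepth 100000 in
theorem w3_8 : run (11 + 4 * 1189248) 489 = true := by decide +kernel

set_option maxRecDepth 100000 in
theorem w3_9 : run (11 + 4 * 1220544) 489 = true := by decide +kernel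

theorem w3 (i : ℕ) (h1 : 938880 ≤ i) (h2 : i < 1251840) : leaf (11 + 4 * i) = true := by
  by_cases g0 : i < 970176
  · exact run_range 938880 489 w3_0 i (by omega) (by omega)
  by_cases g1 : i < 1001472
  · exact run_range 970176 489 w3_1 i (by omega) (by omega)
  by_cases g2 : i < 1032768
  · exact run_range 1001472 489 w3_2 i (by omega) (by omega)
  by_cases g3 : i < 1064064
  · exact run_range 1032768 489 w3_3 i (by omega) (by omega)
  by_cases g4 : i < 1095360
  · exact run_range 1064064 489 w3_4 i (by omega) (by omega)
  by_cases g5 : i < 1126656
  · exact run_range 1095360 489 w3_5 i (by omega) (by omega)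
  by_cases g6 : i < 1157952
  · exact run_range 1126656 489 w3_6 i (by omega) (by omega)
  by_cases g7 : i < 1189248
  · exact run_range 1157952 489 w3_7 i (by omega) (by omega)
  by_cases g8 : i < 1220544
  · exact run_range 1189248 489 w3_8 i (by omega) (by omega)
  exact run_range 1220544 489 w3_9 i (by omega) (by omega)

end WC

end H2T
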