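import Pool.Agent.H2T.WDef

/-!
# H2T/WChk4: the kernel test for the `m = 11 + 4 i`, `1251840 ≤ i < 1564800`
-/

namespace H2T

namespace WC

set_option maxRecDepth 100000 in
theorem w4_0 : run (11 + 4 * 1251840) 489 = true := by decide +kernel

set_option maxRecDepth 100000 in
theorem w4_1 : run (11 + 4 * 1283136) 489 = true := by decide +kernel

set_option maxRecDepth 100000 in
theorem w4_2 : run (11 + 4 * 1314432) 489 = true := by decide +kernel

set_option maxRecDepth 100000 in
theorem w4_3 : run (11 + 4 * 1345728) 489 = true := by decide +kernel

set_option maxRecDepth 100000 in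
theorem w4_4 : run (11 + 4 * 1377024) 489 = true := by decide +kernel

set_option maxRecDepth 100000 in
theorem w4_5 : run (11 + 4 * 1408320) 489 = true := by decide +kernel

set_option maxRecDepth 100000 in
theorem w4_6 : run (11 + 4 * 1439616) 489 = true := by decide +kernel

set_option maxRecDepth 100000 in
theorem w4_7 : run (11 + 4 * 1470912) 489 = true := by decide +kernel

set_option maxRecDepth 100000 in
theorem w4_8 : run (11 + 4 * 1502208) 489 = true := by decide +kernel

set_option maxRecDepth 100000 in
theorem w4_9 : run (11 + 4 * 1533504) 489 = true := by decide +kernel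

theorem w4 (i : ℕ) (h1 : 1251840 ≤ i) (h2 : i < 1564800) : leaf (11 + 4 * i) = true := by
  by_cases g0 : i < 1283136
  · exact run_range 1251840 489 w4_0 i (by omega) (by omega)
  by_cases g1 : i < 1314432
  · exact run_range 1283136 489 w4_1 i (by omega) (by omega)
  by_cases g2 : i < 1345728
  · exact run_range 1314432 489 w4_2 i (by omega) (by omega)
  by_cases g3 : i < 1377024
  · exact run_range 1345728 489 w4_3 i (by omega) (by omega)
  by_cases g4 : i < 1408320
  · exact run_range 1377024 489 w4_4 i (by omega) (by omega)
  by_cases g5 : i < 1439616
  · exact run_range 1408320 489 w4_5 i (by omega) (by omega)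
  by_cases g6 : i < 1470912
  · exact run_range 1439616 489 w4_6 i (by omega) (by omega)
  by_cases g7 : i < 1502208
  · exact run_range 1470912 489 w4_7 i (by omega) (by omega)
  by_cases g8 : i < 1533504
  · exact run_range 1502208 489 w4_8 i (by omega) (by omega)
  exact run_range 1533504 489 w4_9 i (by omega) (by omega)

end WC

end H2T
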