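import Pool.Agent.H2T.WDef

/-!
# H2T/WChk5: the kernel test for the `m = 11 + 4 i`, `1564800 ≤ i < 1877760`
-/

namespace H2T

namespace WC

set_option maxRecDepth 100000 in
theorem w5_0 : run (11 + 4 * 1564800) 489 = true := by decide +kernel

set_option maxRecDepth 100000 in
theorem w5_1 : run (11 + 4 * 1596096) 489 = true := by decide +kernel

set_option maxRecDepth 100000 in
theorem w5_2 : run (11 + 4 * 1627392) 489 = true := by decide +kernel

set_option maxRecDepth 100000 in
theorem w5_3 : run (11 + 4 * 1658688) 489 = true := by decide +kernel

set_option maxRecDepth 100000 in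
theorem w5_4 : run (11 + 4 * 1689984) 489 = true := by decide +kernel

set_option maxRecDepth 100000 in
theorem w5_5 : run (11 + 4 * 1721280) 489 = true := by decide +kernel

set_option maxRecDepth 100000 in
theorem w5_6 : run (11 + 4 * 1752576) 489 = true := by decide +kernel

set_option maxRecDepth 100000 in
theorem w5_7 : run (11 + 4 * 1783872) 489 = true := by decide +kernel

set_option maxRecDepth 100000 in
theorem w5_8 : run (11 + 4 * 1815168) 489 = true := by decide +kernel

set_option maxRecDepth 100000 in
theorem w5_9 : run (11 + 4 * 1846464) 489 = true := by decide +kernel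

theorem w5 (i : ℕ) (h1 : 1564800 ≤ i) (h2 : i < 1877760) : leaf (11 + 4 * i) = true := by
  by_cases g0 : i < 1596096
  · exact run_range 1564800 489 w5_0 i (by omega) (by omega)
  by_cases g1 : i < 1627392
  · exact run_range 1596096 489 w5_1 i (by omega) (by omega)
  by_cases g2 : i < 1658688
  · exact run_range 1627392 489 w5_2 i (by omega) (by omega)
  by_cases g3 : i < 1689984
  · exact run_range 1658688 489 w5_3 i (by omega) (by omega)
  by_cases g4 : i < 1721280
  · exact run_range 1689984 489 w5_4 i (by omega) (by omega)
  by_cases g5 : i < 1752576
  · exact run_range 1721280 489 w5_5 i (by omega) (by omega)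
  by_cases g6 : i < 1783872
  · exact run_range 1752576 489 w5_6 i (by omega) (by omega)
  by_cases g7 : i < 1815168
  · exact run_range 1783872 489 w5_7 i (by omega) (by omega)
  by_cases g8 : i < 1846464
  · exact run_range 1815168 489 w5_8 i (by omega) (by omega)
  exact run_range 1846464 489 w5_9 i (by omega) (by omega)

end WC

end H2T
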