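import Pool.Agent.H2T.WDef

/-!
# H2T/WChk6: the kernel test for the `m = 11 + 4 i`, `1877760 ≤ i < 2190720`
-/

namespace H2T

namespace WC

set_option maxRecDepth 100000 in
theorem w6_0 : run (11 + 4 * 1877760) 489 = true := by decide +kernel

set_option maxRecDepth 100000 in
theorem w6_1 : run (11 + 4 * 1909056) 489 = true := by decide +kernel

set_option maxRecDepth 100000 in
theorem w6_2 : run (11 + 4 * 1940352) 489 = true := by decide +kernel

set_option maxRecDepth 100000 in
theorem w6_3 : run (11 + 4 * 1971648) 489 = true := by decide +kernel

set_option maxRecDepth 100000 in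
theorem w6_4 : run (11 + 4 * 2002944) 489 = true := by decide +kernel

set_option maxRecDepth 100000 in
theorem w6_5 : run (11 + 4 * 2034240) 489 = true := by decide +kernel

set_option maxRecDepth 100000 in
theorem w6_6 : run (11 + 4 * 2065536) 489 = true := by decide +kernel

set_option maxRecDepth 100000 in
theorem w6_7 : run (11 + 4 * 2096832) 489 = true := by decide +kernel

set_option maxRecDepth 100000 in
theorem w6_8 : run (11 + 4 * 2128128) 489 = true := by decide +kernel

set_option maxRecDepth 100000 in
theorem w6_9 : run (11 + 4 * 2159424) 489 = true := by decide +kernel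

theorem w6 (i : ℕ) (h1 : 1877760 ≤ i) (h2 : i < 2190720) : leaf (11 + 4 * i) = true := by
  by_cases g0 : i < 1909056
  · exact run_range 1877760 489 w6_0 i (by omega) (by omega)
  by_cases g1 : i < 1940352
  · exact run_range 1909056 489 w6_1 i (by omega) (by omega)
  by_cases g2 : i < 1971648
  · exact run_range 1940352 489 w6_2 i (by omega) (by omega)
  by_cases g3 : i < 2002944
  · exact run_range 1971648 489 w6_3 i (by omega) (by omega)
  by_cases g4 : i < 2034240
  · exact run_range 2002944 489 w6_4 i (by omega) (by omega)
  by_cases g5 : i < 2065536
  · exact run_range 2034240 489 w6_5 i (by omega) (by omega)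
  by_cases g6 : i < 2096832
  · exact run_range 2065536 489 w6_6 i (by omega) (by omega)
  by_cases g7 : i < 2128128
  · exact run_range 2096832 489 w6_7 i (by omega) (by omega)
  by_cases g8 : i < 2159424
  · exact run_range 2128128 489 w6_8 i (by omega) (by omega)
  exact run_range 2159424 489 w6_9 i (by omega) (by omega)

end WC

end H2T
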