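import Pool.Agent.H2T.WDef

/-!
# H2T/WChk7: the kernel test for the `m = 11 + 4 i`, `2190720 ≤ i < 2503680`
-/

namespace H2T

namespace WC

set_option maxRecDepth 100000 in
theorem w7_0 : run (11 + 4 * 2190720) 489 = true := by decide +kernel

set_option maxRecDepth 100000 in
theorem w7_1 : run (11 + 4 * 2222016) 489 = true := by decide +kernel

set_option maxRecDepth 100000 in
theorem w7_2 : run (11 + 4 * 2253312) 489 = true := by decide +kernel

set_option maxRecDepth 100000 in
theorem w7_3 : run (11 + 4 * 2284608) 489 = true := by decide +kernel

set_option maxRecDepth 100000 in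
theorem w7_4 : run (11 + 4 * 2315904) 489 = true := by decide +kernel

set_option maxRecDepth 100000 in
theorem w7_5 : run (11 + 4 * 2347200) 489 = true := by decide +kernel

set_option maxRecDepth 100000 in
theorem w7_6 : run (11 + 4 * 2378496) 489 = true := by decide +kernel

set_option maxRecDepth 100000 in
theorem w7_7 : run (11 + 4 * 2409792) 489 = true := by decide +kernel

set_option maxRecDepth 100000 in
theorem w7_8 : run (11 + 4 * 2441088) 489 = true := by decide +kernel

set_option maxRecDepth 100000 in
theorem w7_9 : run (11 + 4 * 2472384) 489 = true := by decide +kernel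

theorem w7 (i : ℕ) (h1 : 2190720 ≤ i) (h2 : i < 2503680) : leaf (11 + 4 * i) = true := by
  by_cases g0 : i < 2222016
  · exact run_range 2190720 489 w7_0 i (by omega) (by omega)
  by_cases g1 : i < 2253312
  · exact run_range 2222016 489 w7_1 i (by omega) (by omega)
  by_cases g2 : i < 2284608
  · exact run_range 2253312 489 w7_2 i (by omega) (by omega)
  by_cases g3 : i < 2315904
  · exact run_range 2284608 489 w7_3 i (by omega) (by omega)
  by_cases g4 : i < 2347200
  · exact run_range 2315904 489 w7_4 i (by omega) (by omega)
  by_cases g5 : i < 2378496
  · exact run_range 2347200 489 w7_5 i (by omega) (by omega)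
  by_cases g6 : i < 2409792
  · exact run_range 2378496 489 w7_6 i (by omega) (by omega)
  by_cases g7 : i < 2441088
  · exact run_range 2409792 489 w7_7 i (by omega) (by omega)
  by_cases g8 : i < 2472384
  · exact run_range 2441088 489 w7_8 i (by omega) (by omega)
  exact run_range 2472384 489 w7_9 i (by omega) (by omega)

end WC

end H2T
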