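import Pool.Agent.H2T.WChk0
import Pool.Agent.H2T.WChk1
import Pool.Agent.H2T.WChk2
import Pool.Agent.H2T.WChk3
import Pool.Agent.H2T.WChk4
import Pool.Agent.H2T.WChk5
import Pool.Agent.H2T.WChk6
import Pool.Agent.H2T.WChk7

/-!
# H2T/WChk: no doubly Wieferich prime `q = 3 mod 4`, `3 < q ≤ 10^7`
-/

namespace H2T

open WC

theorem not_DW {q : ℕ} (hq : q.Prime) (h4 : q % 4 = 3) (h3 : 3 < q) (h : q ≤ 10000000) : ¬ DW q := by
  intro hD
  obtain ⟨hD3, hD5⟩ := hD
  by_cases h7 : q = 7
  · subst h7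
    revert hD3
    decide
  have hcop : Nat.Coprime q 105 := by
    rw [hq.coprime_iff_not_dvd]
    intro hd
    have h105 : (105 : ℕ) = 3 * (5 * 7) := by norm_num
    rw [h105, hq.dvd_mul, hq.dvd_mul] at hd
    rcases hd with hd | hd | hd
    · have := (Nat.prime_dvd_prime_iff_eq hq Nat.prime_three).1 hd
      omega
    · have := (Nat.prime_dvd_prime_iff_eq hq Nat.prime_five).1 hd
      omega
    · have := (Nat.prime_dvd_prime_iff_eq hq (by norm_num)).1 hd
      omega
  have hleaf : leaf q = true := by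
    have hq11 : 11 ≤ q := by omega
    obtain ⟨i, hi⟩ : ∃ i, q = 11 + 4 * i := ⟨(q - 11) / 4, by omega⟩
    rw [hi]
    by_cases g0 : i < 312960
    · exact w0 i (by omega) g0
    by_cases g1 : i < 625920
    · exact w1 i (by omega) g1
    by_cases g2 : i < 938880
    · exact w2 i (by omega) g2
    by_cases g3 : i < 1251840
    · exact w3 i (by omega) g3
    by_cases g4 : i < 1564800
    · exact w4 i (by omega) g4
    by_cases g5 : i < 1877760
    · exact w5 i (by omega) g5
    by_cases g6 : i < 2190720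
    · exact w6 i (by omega) g6
    exact w7 i (by omega) (by omega)
  have hone : ∀ g : ℕ, q ^ 2 ∣ g ^ (q - 1) - 1 → 0 < g → g ^ (q - 1) % (q * q) = 1 := by
    intro g hg hg0
    have h1 : 1 ≤ g ^ (q - 1) := Nat.one_le_pow _ _ hg0
    have h2 : g ^ (q - 1) ≡ 1 [MOD q * q] := by
      rw [← sq]
      exact ((Nat.modEq_iff_dvd' h1).2 hg).symm
    have h5 : 1 % (q * q) = 1 := Nat.mod_eq_of_lt (by nlinarith)
    exact (show g ^ (q - 1) % (q * q) = 1 % (q * q) from h2).trans h5
  rcases leaf_ne hleaf hcop with h1 | h1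
  · exact h1 (hone 3 hD3 (by norm_num))
  · exact h1 (hone 5 hD5 (by norm_num))

end H2T
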