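import Pool.Agent.H2T.WDef

/-!
# H2T/WChk0: the kernel test for the `m = 11 + 4 i`, `0 ≤ i < 312960`
-/

namespace H2T

namespace WC

set_option maxRecDepth 100000 in
theorem w0_0 : run (11 + 4 * 0) 489 = true := by decide +kernel

set_option maxRecDepth 100000 in
theorem w0_1 : run (11 + 4 * 31296) 489 = true := by decide +kernel

set_option maxRecDepth 100000 in
theorem w0_2 : run (11 + 4 * 62592) 489 = true := by decide +kernel

set_option maxRecDepth 100000 in
theorem w0_3 : run (11 + 4 * 93888) 489 = true := by decide +kernel

set_option maxRecDepth 100000 in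
theorem w0_4 : run (11 + 4 * 125184) 489 = true := by decide +kernel

set_option maxRecDepth 100000 in
theorem w0_5 : run (11 + 4 * 156480) 489 = true := by decide +kernel

set_option maxRecDepth 100000 in
theorem w0_6 : run (11 + 4 * 187776) 489 = true := by decide +kernel

set_option maxRecDepth 100000 in
theorem w0_7 : run (11 + 4 * 219072) 489 = true := by decide +kernel

set_option maxRecDepth 100000 in
theorem w0_8 : run (11 + 4 * 250368) 489 = true := by decide +kernel

set_option maxRecDepth 100000 in
theorem w0_9 : run (11 + 4 * 281664) 489 = true := by decide +kernel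

theorem w0 (i : ℕ) (h1 : 0 ≤ i) (h2 : i < 312960) : leaf (11 + 4 * i) = true := by
  by_cases g0 : i < 31296
  · exact run_range 0 489 w0_0 i (by omega) (by omega)
  by_cases g1 : i < 62592
  · exact run_range 31296 489 w0_1 i (by omega) (by omega)
  by_cases g2 : i < 93888
  · exact run_range 62592 489 w0_2 i (by omega) (by omega)
  by_cases g3 : i < 125184
  · exact run_range 93888 489 w0_3 i (by omega) (by omega)
  by_cases g4 : i < 156480
  · exact run_range 125184 489 w0_4 i (by omega) (by omega)
  by_cases g5 : i < 187776
  · exact run_range 156480 489 w0_5 i (by omega) (by omega)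
  by_cases g6 : i < 219072
  · exact run_range 187776 489 w0_6 i (by omega) (by omega)
  by_cases g7 : i < 250368
  · exact run_range 219072 489 w0_7 i (by omega) (by omega)
  by_cases g8 : i < 281664
  · exact run_range 250368 489 w0_8 i (by omega) (by omega)
  exact run_range 281664 489 w0_9 i (by omega) (by omega)

end WC

end H2T
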