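import Pool.Agent.H2T.Defs

/-!
# H2T/WDef: a kernel test for doubly Wieferich numbers

`leaf m` is true if `m` is not coprime to 105, or `3^(m-1) mod m²` is not 1, or `5^(m-1) mod m²` is not 1 (powers are computed by powers of 32).
`run m n` tests the `64 n` numbers `m + 4 i`, `i < 64 n`.
-/

namespace H2T

namespace WC

/-- one step: `r^32 g^t mod M` -/
def stp (g M r t : ℕ) : ℕ := Nat.mod (Nat.mul (Nat.pow r 32) (Nat.pow g t)) M

/-- `g^e mod M` -/
def pm (g e M : ℕ) : ℕ :=
  stp g M (stp g M (stp g M (stp g M (Nat.mod (Nat.pow g (Nat.div e 1048576)) M) (Nat.mod (Nat.div e 32768) 32))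
    (Nat.mod (Nat.div e 1024) 32)) (Nat.mod (Nat.div e 32) 32)) (Nat.mod e 32)

/-- the test at `m` -/
def leaf (m : ℕ) : Bool :=
  cond (Nat.beq (Nat.gcd m 105) 1)
    (or (not (Nat.beq (pm 3 (Nat.sub m 1) (Nat.mul m m)) 1)) (not (Nat.beq (pm 5 (Nat.sub m 1) (Nat.mul m m)) 1))) true

/-- `2^k` terms of the progression `m + 4 i` -/
def seg (k : ℕ) : ℕ → Bool :=
  Nat.rec (motive := fun _ => ℕ → Bool) (fun m => leaf m)
    (fun k ih m => and (ih m) (ih (Nat.add m (Nat.mul 4 (Nat.pow 2 k))))) k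

/-- `64 n` terms -/
def run (m n : ℕ) : Bool :=
  Nat.rec (motive := fun _ => Bool) true (fun j ih => and (seg 6 (Nat.add m (Nat.mul 256 j))) ih) n

theorem stp_eq (g M e r : ℕ) (h : r = g ^ (e / 32) % M) : stp g M r (e % 32) = g ^ e % M := by
  have h1 : stp g M r (e % 32) = r ^ 32 * g ^ (e % 32) % M := rfl
  rw [h1, h]
  have h2 : (g ^ (e / 32) % M) ^ 32 * g ^ (e % 32) ≡ (g ^ (e / 32)) ^ 32 * g ^ (e % 32) [MOD M] :=
    ((Nat.mod_modEq _ _).pow 32).mul_right _
  have h3 : (g ^ (e / 32)) ^ 32 * g ^ (e % 32) = g ^ e := by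
    rw [← pow_mul, ← pow_add]
    congr 1
    omega
  rw [h3] at h2
  exact h2

theorem pm_eq (g e M : ℕ) : pm g e M = g ^ e % M := by
  have h0 : pm g e M = stp g M (stp g M (stp g M (stp g M (g ^ (e / 1048576) % M) (e / 32768 % 32)) (e / 1024 % 32))
    (e / 32 % 32)) (e % 32) := rfl
  have h1 : stp g M (g ^ (e / 1048576) % M) (e / 32768 % 32) = g ^ (e / 32768) % M := by
    apply stp_eq
    rw [Nat.div_div_eq_div_mul]
  have h2 : stp g M (g ^ (e / 32768) % M) (e / 1024 % 32) = g ^ (e / 1024) % M := by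
    apply stp_eq
    rw [Nat.div_div_eq_div_mul]
  have h3 : stp g M (g ^ (e / 1024) % M) (e / 32 % 32) = g ^ (e / 32) % M := by
    apply stp_eq
    rw [Nat.div_div_eq_div_mul]
  rw [h0, h1, h2, h3]
  exact stp_eq _ _ _ _ rfl

theorem leaf_ne {m : ℕ} (h : leaf m = true) (hc : Nat.Coprime m 105) :
    3 ^ (m - 1) % (m * m) ≠ 1 ∨ 5 ^ (m - 1) % (m * m) ≠ 1 := by
  by_contra hcon
  push Not at hcon
  unfold leaf at h
  have h2 : pm 3 (Nat.sub m 1) (Nat.mul m m) = 1 := by
    rw [pm_eq]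
    exact hcon.1
  have h4 : pm 5 (Nat.sub m 1) (Nat.mul m m) = 1 := by
    rw [pm_eq]
    exact hcon.2
  have h3 : Nat.gcd m 105 = 1 := hc
  rw [h2, h4, h3] at h
  exact absurd h (by decide)

theorem seg_true (k m : ℕ) (h : seg k m = true) : ∀ i < 2 ^ k, leaf (m + 4 * i) = true := by
  induction k generalizing m with
  | zero =>
    intro i hi
    have : i = 0 := by simpa using hi
    subst this
    exact h
  | succ k ih =>
    have h1 : (seg k m && seg k (m + 4 * 2 ^ k)) = true := h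
    rw [Bool.and_eq_true] at h1
    intro i hi
    rw [pow_succ] at hi
    by_cases hik : i < 2 ^ k
    · exact ih m h1.1 i hik
    · have h2 := ih _ h1.2 (i - 2 ^ k) (by omega)
      have h3 : m + 4 * 2 ^ k + 4 * (i - 2 ^ k) = m + 4 * i := by omega
      rwa [h3] at h2

theorem run_true (m n : ℕ) (h : run m n = true) : ∀ i < 64 * n, leaf (m + 4 * i) = true := by
  induction n with
  | zero => intro i hi; omega
  | succ n ih =>
    have h1 : (seg 6 (m + 256 * n) && run m n) = true := h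
    rw [Bool.and_eq_true] at h1
    intro i hi
    by_cases hin : i < 64 * n
    · exact ih h1.2 i hin
    · have h2 := seg_true 6 _ h1.1 (i - 64 * n) (by norm_num; omega)
      have h3 : m + 256 * n + 4 * (i - 64 * n) = m + 4 * i := by omega
      rwa [h3] at h2

theorem run_range (lo n : ℕ) (h : run (11 + 4 * lo) n = true) (i : ℕ) (h1 : lo ≤ i) (h2 : i < lo + 64 * n) :
    leaf (11 + 4 * i) = true := by
  have h3 := run_true _ _ h (i - lo) (by omega)
  have e : 11 + 4 * lo + 4 * (i - lo) = 11 + 4 * i := by omega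
  rwa [e] at h3

attribute [irreducible] leaf seg run pm stp

end WC

end H2T
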